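import Pool.Agent.Helper84.FR.PV
import Pool.Agent.Helper84.NI.Vec

/-!
# Project FR, block FA: covariant systems

PROOFS. `exists_phi`: the vectors `φ f • e f x` are pairwise orthogonal (`symm`, `orth`) with `‖φ f • e f x‖ ≤ ‖e f x‖`, `∑ ‖e f x‖^2 = ‖x‖^2` (apply `inner x` to `I0.sum`, `⟪x, e f x⟫ = ‖e f x‖^2`), so they are summable with sum of norm `≤ ‖x‖` (Cauchy criterion,
`summable_iff_vanishing_norm`, `F` need not be countable); linear in `x`. `phi_p`: `comm`. `phi_V`: `e f (V g x) = V g (e (g⁻¹ f) x)` (`cov`), reindex. `inner_phi`: `⟪x, e f x⟫ = ‖e f x‖^2`.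
`Phi`: `φ̂` componentwise on `Lv Y L0` (`dg`, see `NI/Vec.lean`: `dg_apply`, `norm_dg_le`). `Phi_V`: componentwise. `inner_Phi`: `⟪w, Phi w⟫ = ∑_y ⟪w y, φ̂ (w y)⟫ = ∑_y ∑_f φ f ‖e f (w y)‖^2` (`lv_inner`), summable over `F × Y` (absolutely: `∑ ‖e f (w y)‖^2 = ‖w‖^2`), interchange
(`HasSum.prod_fiberwise`, `Summable.prod_factor`, `tsum_comm`).
-/

set_option autoImplicit false

open Filter Topology MeasureTheory

namespace Pool.Agent.Helper84.FR

open NI GVN

/-- A covariant system for `F` commuting with a projection valued measure. -/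
structure Imp (F X : Type) [Group F] [MeasurableSpace X] (L0 : Type) [NormedAddCommGroup L0]
    [InnerProductSpace ℂ L0] where
  /-- the representation -/
  V : F →* (L0 ≃ₗᵢ[ℂ] L0)
  /-- functions on `X` -/
  P0 : PV X L0
  /-- the covariant projections -/
  e : F → (L0 →L[ℂ] L0)
  idem : ∀ f x, e f (e f x) = e f x
  orth : ∀ f g, f ≠ g → ∀ x, e f (e g x) = 0
  symm : ∀ f x y, inner ℂ (e f x) y = inner ℂ x (e f y)
  sum : ∀ x, HasSum (fun f => e f x) x
  cov : ∀ f g x, V f (e g x) = e (f * g) (V f x)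
  comm : ∀ f (D : Set X), MeasurableSet D → ∀ x, e f (P0.p D x) = P0.p D (e f x)

section Aux

variable {F X : Type} [Group F] [MeasurableSpace X] {L0 : Type} [NormedAddCommGroup L0]
  [InnerProductSpace ℂ L0] (I0 : Imp F X L0)

private theorem fa52_inner (f : F) (x : L0) : inner ℂ x (I0.e f x) = ((‖I0.e f x‖ ^ 2 : ℝ) : ℂ) := by
  have h := I0.symm f x (I0.e f x)
  rw [I0.idem, inner_self_eq_norm_sq_to_K] at h
  rw [← h]
  push_cast
  rfl

private theorem fa52_orth {f g : F} (hfg : f ≠ g) (x y : L0) :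
    inner ℂ (I0.e f x) (I0.e g y) = 0 := by
  rw [I0.symm, I0.orth f g hfg, inner_zero_right]

private theorem fa52_hasSum (x : L0) : HasSum (fun f => ‖I0.e f x‖ ^ 2) (‖x‖ ^ 2) := by
  have h1 : HasSum (fun f => inner ℂ x (I0.e f x)) (inner ℂ x x) :=
    (innerSL ℂ x).hasSum (I0.sum x)
  have h2 := Complex.reCLM.hasSum h1
  have e1 : (fun f => Complex.reCLM (inner ℂ x (I0.e f x))) = fun f => ‖I0.e f x‖ ^ 2 := by
    funext f
    rw [fa52_inner]
    exact Complex.ofReal_re _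
  have e2 : Complex.reCLM (inner ℂ x x) = ‖x‖ ^ 2 := by
    rw [inner_self_eq_norm_sq_to_K]
    have : (((‖x‖ : ℝ) : ℂ) ^ 2) = ((‖x‖ ^ 2 : ℝ) : ℂ) := by push_cast; rfl
    change (((‖x‖ : ℝ) : ℂ) ^ 2).re = _
    rw [this, Complex.ofReal_re]
  change HasSum (fun f => Complex.reCLM (inner ℂ x (I0.e f x))) (Complex.reCLM (inner ℂ x x)) at h2
  rwa [e1, e2] at h2

private theorem fa52_fin (φ : F → ℝ) (x : L0) (s : Finset F) :
    ‖∑ f ∈ s, (φ f : ℂ) • I0.e f x‖ ^ 2 = ∑ f ∈ s, |φ f| ^ 2 * ‖I0.e f x‖ ^ 2 := by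
  classical
  induction s using Finset.induction_on with
  | empty => simp
  | insert a s ha ih =>
    rw [Finset.sum_insert ha, Finset.sum_insert ha, ← ih]
    have h0 : inner ℂ ((φ a : ℂ) • I0.e a x) (∑ f ∈ s, (φ f : ℂ) • I0.e f x) = 0 := by
      rw [inner_sum]
      refine Finset.sum_eq_zero fun f hf => ?_
      have hne : a ≠ f := fun h => ha (h ▸ hf)
      rw [inner_smul_left, inner_smul_right, fa52_orth I0 hne, mul_zero, mul_zero]
    have h1 := norm_add_sq_eq_norm_sq_add_norm_sq_of_inner_eq_zero _ _ h0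
    rw [← sq, ← sq, ← sq] at h1
    rw [h1, norm_smul, mul_pow, Complex.norm_real, Real.norm_eq_abs]

private theorem fa52_fin_le {φ : F → ℝ} (hφ : ∀ f, |φ f| ≤ 1) (x : L0) (s : Finset F) :
    ‖∑ f ∈ s, (φ f : ℂ) • I0.e f x‖ ^ 2 ≤ ∑ f ∈ s, ‖I0.e f x‖ ^ 2 := by
  rw [fa52_fin]
  refine Finset.sum_le_sum fun f _ => ?_
  refine mul_le_of_le_one_left (by positivity) ?_
  exact pow_le_one₀ (abs_nonneg _) (hφ f)

private theorem fa52_summable [CompleteSpace L0] {φ : F → ℝ} (hφ : ∀ f, |φ f| ≤ 1) (x : L0) :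
    Summable fun f => (φ f : ℂ) • I0.e f x := by
  rw [summable_iff_vanishing_norm]
  intro ε hε
  obtain ⟨s, hs⟩ := summable_iff_vanishing_norm.1 (fa52_hasSum I0 x).summable (ε ^ 2) (by positivity)
  refine ⟨s, fun t ht => ?_⟩
  have h1 := hs t ht
  have h2 : ‖∑ f ∈ t, ‖I0.e f x‖ ^ 2‖ = ∑ f ∈ t, ‖I0.e f x‖ ^ 2 :=
    Real.norm_of_nonneg (Finset.sum_nonneg fun _ _ => by positivity)
  rw [h2] at h1
  have h3 := (fa52_fin_le I0 hφ x t).trans_lt h1
  exact lt_of_pow_lt_pow_left₀ 2 hε.le h3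

end Aux

section

variable {F X : Type} [Group F] [MeasurableSpace X] {L0 : Type} [NormedAddCommGroup L0]
  [InnerProductSpace ℂ L0] [CompleteSpace L0] (I0 : Imp F X L0)

theorem exists_phi (φ : F → ℝ) (hφ : ∀ f, |φ f| ≤ 1) : ∃ Φ : L0 →L[ℂ] L0,
    (∀ x, HasSum (fun f => (φ f : ℂ) • I0.e f x) (Φ x)) ∧ ∀ x, ‖Φ x‖ ≤ ‖x‖ := by
  have hs := fa52_summable I0 hφ
  have hb : ∀ x, ‖∑' f, (φ f : ℂ) • I0.e f x‖ ≤ ‖x‖ := by
    intro x
    refine le_of_tendsto (hs x).hasSum.norm (Filter.Eventually.of_forall fun s => ?_)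
    refine (sq_le_sq₀ (norm_nonneg _) (norm_nonneg _)).1 ?_
    refine (fa52_fin_le I0 hφ x s).trans ?_
    exact sum_le_hasSum s (fun _ _ => by positivity) (fa52_hasSum I0 x)
  refine ⟨LinearMap.mkContinuous
    { toFun := fun x => ∑' f, (φ f : ℂ) • I0.e f x
      map_add' := fun x y => ?_
      map_smul' := fun c x => ?_ } 1 (fun x => ?_), fun x => ?_, fun x => ?_⟩
  · rw [← (hs x).tsum_add (hs y)]
    refine tsum_congr fun f => ?_
    rw [map_add, smul_add]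
  · rw [RingHom.id_apply, ← (hs x).tsum_const_smul c]
    refine tsum_congr fun f => ?_
    rw [map_smul, smul_comm]
  · rw [one_mul]
    exact hb x
  · exact (hs x).hasSum
  · exact hb x

/-- The operator `∑_f φ f • e f`. -/
noncomputable def phi (φ : F → ℝ) : L0 →L[ℂ] L0 := by
  classical exact
  if h : ∃ Φ : L0 →L[ℂ] L0, (∀ x, HasSum (fun f => (φ f : ℂ) • I0.e f x) (Φ x)) ∧ ∀ x, ‖Φ x‖ ≤ ‖x‖
  then h.choose else 0

variable {φ : F → ℝ} (hφ : ∀ f, |φ f| ≤ 1)

include hφ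

theorem phi_hasSum (x : L0) : HasSum (fun f => (φ f : ℂ) • I0.e f x) (phi I0 φ x) := by
  have h := exists_phi I0 φ hφ
  unfold phi
  rw [dif_pos h]
  exact h.choose_spec.1 x

theorem norm_phi_le (x : L0) : ‖phi I0 φ x‖ ≤ ‖x‖ := by
  have h := exists_phi I0 φ hφ
  unfold phi
  rw [dif_pos h]
  exact h.choose_spec.2 x

theorem phi_p {D : Set X} (hD : MeasurableSet D) (x : L0) :
    phi I0 φ (I0.P0.p D x) = I0.P0.p D (phi I0 φ x) := by
  have h1 := phi_hasSum I0 hφ (I0.P0.p D x)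
  have h2 := (I0.P0.p D).hasSum (phi_hasSum I0 hφ x)
  refine h1.unique ?_
  convert h2 using 1
  funext f
  rw [map_smul, I0.comm f D hD]

theorem phi_V (g : F) (x : L0) : phi I0 φ (I0.V g x) = I0.V g (phi I0 (fun f => φ (g * f)) x) := by
  have h1 := (Equiv.hasSum_iff (Equiv.mulLeft g)).2 (phi_hasSum I0 hφ (I0.V g x))
  have h2 : HasSum (fun f => I0.V g ((φ (g * f) : ℂ) • I0.e f x))
      (I0.V g (phi I0 (fun f => φ (g * f)) x)) :=
    ((I0.V g).toContinuousLinearEquiv : L0 →L[ℂ] L0).hasSum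
      (phi_hasSum I0 (φ := fun f => φ (g * f)) (fun f => hφ _) x)
  refine h1.unique ?_
  convert h2 using 1
  funext f
  change (φ (g * f) : ℂ) • I0.e (g * f) (I0.V g x) = _
  rw [map_smul, I0.cov]

omit hφ in
/-- `φ̂` componentwise. -/
noncomputable def Phi (Y : Type) (φ : F → ℝ) : Lv Y L0 →L[ℂ] Lv Y L0 := dg fun _ => phi I0 φ

variable {Y : Type}

theorem Phi_apply (w : Lv Y L0) (y : Y) : Phi I0 Y φ w y = phi I0 φ (w y) := by
  unfold Phi
  exact dg_apply (C := 1) (fun _ x => by rw [one_mul]; exact norm_phi_le I0 hφ x) w y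

theorem norm_Phi_le (w : Lv Y L0) : ‖Phi I0 Y φ w‖ ≤ ‖w‖ := by
  unfold Phi
  have h := norm_dg_le (I := Y) (T := fun _ => phi I0 φ) (C := 1) zero_le_one
    (fun _ x => by rw [one_mul]; exact norm_phi_le I0 hφ x) w
  rwa [one_mul] at h

/-- `J'` is `V g` componentwise on `w`. -/
theorem inner_Phi_V (g : F) {w w' v v' : Lv Y L0} (hw : ∀ y, w' y = I0.V g (w y))
    (hv : ∀ y, v' y = I0.V g (v y)) :
    inner ℂ w' (Phi I0 Y φ v') = inner ℂ w (Phi I0 Y (fun f => φ (g * f)) v) := by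
  have h1 := lv_inner w' (Phi I0 Y φ v')
  have h2 := lv_inner w (Phi I0 Y (fun f => φ (g * f)) v)
  refine h1.unique ?_
  convert h2 using 1
  funext y
  rw [Phi_apply I0 hφ, Phi_apply I0 (φ := fun f => φ (g * f)) (fun f => hφ _), hw, hv, phi_V I0 hφ,
    LinearIsometryEquiv.inner_map_map]

theorem inner_Phi_p {D : Set X} (hD : MeasurableSet D) {w w' v v' : Lv Y L0}
    (hw : ∀ y, w' y = I0.P0.p D (w y)) (hv : ∀ y, v' y = I0.P0.p D (v y)) :
    inner ℂ w' (Phi I0 Y φ v) = inner ℂ w (Phi I0 Y φ v') := by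
  have h1 := lv_inner w' (Phi I0 Y φ v)
  have h2 := lv_inner w (Phi I0 Y φ v')
  refine h1.unique ?_
  convert h2 using 1
  funext y
  rw [Phi_apply I0 hφ, Phi_apply I0 hφ, hw, hv, phi_p I0 hφ hD, I0.P0.symm D hD]

theorem inner_Phi (w : Lv Y L0) : HasSum (fun f => φ f * ∑' y, ‖I0.e f (w y)‖ ^ 2)
    (inner ℂ w (Phi I0 Y φ w)).re ∧ (inner ℂ w (Phi I0 Y φ w)).im = 0 ∧
      HasSum (fun f => ∑' y, ‖I0.e f (w y)‖ ^ 2) (‖w‖ ^ 2) := by
  -- the values at the points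
  have hx : ∀ x : L0, HasSum (fun f => φ f * ‖I0.e f x‖ ^ 2) (inner ℂ x (phi I0 φ x)).re ∧
      (inner ℂ x (phi I0 φ x)).im = 0 := by
    intro x
    have h1 : HasSum (fun f => inner ℂ x ((φ f : ℂ) • I0.e f x)) (inner ℂ x (phi I0 φ x)) :=
      (innerSL ℂ x).hasSum (phi_hasSum I0 hφ x)
    have e1 : (fun f => inner ℂ x ((φ f : ℂ) • I0.e f x)) =
        fun f => ((φ f * ‖I0.e f x‖ ^ 2 : ℝ) : ℂ) := by
      funext f
      rw [inner_smul_right, fa52_inner, ← Complex.ofReal_mul]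
    rw [e1] at h1
    refine ⟨?_, ?_⟩
    · have h2 := Complex.reCLM.hasSum h1
      have e2 : (fun f => Complex.reCLM ((φ f * ‖I0.e f x‖ ^ 2 : ℝ) : ℂ)) =
          fun f => φ f * ‖I0.e f x‖ ^ 2 := by
        funext f
        exact Complex.ofReal_re _
      change HasSum (fun f => Complex.reCLM ((φ f * ‖I0.e f x‖ ^ 2 : ℝ) : ℂ)) _ at h2
      rw [e2] at h2
      exact h2
    · have h2 := Complex.imCLM.hasSum h1
      have e2 : (fun f => Complex.imCLM ((φ f * ‖I0.e f x‖ ^ 2 : ℝ) : ℂ)) = fun f => (0 : ℝ) := by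
        funext f
        exact Complex.ofReal_im (φ f * ‖I0.e f x‖ ^ 2)
      change HasSum (fun f => Complex.imCLM ((φ f * ‖I0.e f x‖ ^ 2 : ℝ) : ℂ)) _ at h2
      rw [e2] at h2
      exact h2.unique hasSum_zero
  have hin : HasSum (fun y => inner ℂ (w y) (phi I0 φ (w y))) (inner ℂ w (Phi I0 Y φ w)) := by
    have h := lv_inner w (Phi I0 Y φ w)
    have e : (fun y => inner ℂ (w y) (Phi I0 Y φ w y)) = fun y => inner ℂ (w y) (phi I0 φ (w y)) := by
      funext y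
      rw [Phi_apply I0 hφ]
    rwa [e] at h
  have hre : HasSum (fun y => (inner ℂ (w y) (phi I0 φ (w y))).re) (inner ℂ w (Phi I0 Y φ w)).re :=
    Complex.reCLM.hasSum hin
  have him : HasSum (fun y => (inner ℂ (w y) (phi I0 φ (w y))).im) (inner ℂ w (Phi I0 Y φ w)).im :=
    Complex.imCLM.hasSum hin
  -- the double sum
  have hsum : Summable (fun q : Y × F => ‖I0.e q.2 (w q.1)‖ ^ 2) := by
    refine (summable_prod_of_nonneg (fun q => by positivity)).2 ⟨fun y => ?_, ?_⟩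
    · exact (fa52_hasSum I0 (w y)).summable
    · have e : (fun y => ∑' f, ‖I0.e f (w y)‖ ^ 2) = fun y => ‖w y‖ ^ 2 := by
        funext y
        exact (fa52_hasSum I0 (w y)).tsum_eq
      change Summable (fun y => ∑' f, ‖I0.e f (w y)‖ ^ 2)
      rw [e]
      exact lv_summable w
  have hsum2 : Summable (fun q : Y × F => φ q.2 * ‖I0.e q.2 (w q.1)‖ ^ 2) := by
    refine Summable.of_norm_bounded hsum fun q => ?_
    rw [norm_mul, Real.norm_eq_abs, Real.norm_of_nonneg (by positivity)]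
    exact mul_le_of_le_one_left (by positivity) (hφ _)
  refine ⟨?_, ?_, ?_⟩
  · have h1 := hsum2.hasSum
    have h2 := h1.prod_fiberwise (fun y => (hx (w y)).1)
    have h3 := h2.unique hre
    rw [h3] at h1
    have h4 : HasSum (fun q : F × Y => φ q.1 * ‖I0.e q.1 (w q.2)‖ ^ 2)
        (inner ℂ w (Phi I0 Y φ w)).re := (Equiv.hasSum_iff (Equiv.prodComm F Y)).2 h1
    refine h4.prod_fiberwise fun f => ?_
    have h5 : Summable (fun y => ‖I0.e f (w y)‖ ^ 2) := hsum.prod_symm.prod_factor f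
    exact h5.hasSum.mul_left (φ f)
  · have e : (fun y => (inner ℂ (w y) (phi I0 φ (w y))).im) = fun _ => (0 : ℝ) := by
      funext y
      exact (hx (w y)).2
    rw [e] at him
    exact him.unique hasSum_zero
  · have h1 := hsum.hasSum
    have h2 := h1.prod_fiberwise (fun y => fa52_hasSum I0 (w y))
    have h3 := h2.unique (lv_hasSum w)
    rw [h3] at h1
    have h4 : HasSum (fun q : F × Y => ‖I0.e q.1 (w q.2)‖ ^ 2) (‖w‖ ^ 2) :=
      (Equiv.hasSum_iff (Equiv.prodComm F Y)).2 h1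
    refine h4.prod_fiberwise fun f => ?_
    have h5 : Summable (fun y => ‖I0.e f (w y)‖ ^ 2) := hsum.prod_symm.prod_factor f
    exact h5.hasSum

end

end Pool.Agent.Helper84.FR
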