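import Pool.Agent.Helper84.FR.ET
import Pool.Agent.Helper66.FR.Zt5
import Pool.Agent.Helper55.FR.Asm
import Pool.Agent.Helper66.RK.NonAm

/-!
# Project FR (MP_0f6f3f_an, full rank theorem): the escape step
-/

set_option autoImplicit false
set_option linter.unusedSectionVars false

open Filter Topology Matrix

namespace Pool.Agent.Helper84.FR

open NI GVN GN MeasureTheory Pool.Agent.Helper66.FR Pool.Agent.Helper90.RK Pool.Agent.Helper55.FR
open Pool.Agent.Helper96.RK (HasCoc)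

section Esc

variable {G1 X : Type} [Group G1] [TopologicalSpace G1] [IsTopologicalGroup G1] [MeasurableSpace X]
  {μ : Measure X} [MulAction G1 X] [MeasurableConstSMul G1 X] [SMulInvariantMeasure G1 X μ]
  [IsProbabilityMeasure μ]
variable {G Λ : Type} [Group G] [Group Λ] [Countable Λ]

theorem esc_norm (a : Cocy G1 X Λ) (E : Emb Λ G) {R : Reg G} (b : ℕ → G1) (h : cen b) {z : XUa μ R}
    (hz : z ∈ VB (XAU R)) :
    ‖opL (xmUa μ b R) (cres a (cen b)) (CRep.ext (XAU R) E) h z‖ = ‖z‖ := by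
  have hU : UHom (xmUa μ b R) (CRep.ext (XAU R) E) := uhom_ext E (mrep_XU b).hA
  refine le_antisymm (norm_opL_le (xmUa μ b R) (cres a (cen b)) hU h z) ?_
  have h1 := opL_mul (xmUa μ b R) (cres a (cen b)) hU h⁻¹ h z
  rw [inv_mul_cancel, opL_one (xmUa μ b R) (cres a (cen b)) hU z] at h1
  have h2 : (CRep.ext (XAU R) E).U 1 z = z := ext_one_apply E hz
  rw [h2] at h1
  conv_lhs => rw [h1]
  exact norm_opL_le (xmUa μ b R) (cres a (cen b)) hU h⁻¹ _

theorem esc (a : Cocy G1 X Λ) (E : Emb Λ G) (h3 : Tendsto (fun g : G1 => μ {x | a.a g x ≠ 1}) (𝓝 1) (𝓝 0))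
    (hp : ∀ F : Subgroup G1, DiscreteTopology F → Countable F ∧ ∃ p : X → Λ → F,
      (∀ (l : Λ) (s : Set F), MeasurableSet {x | p x l ∈ s}) ∧
        ∀ (f : F) (x : X) (l : Λ), p ((f : G1) • x) (a.a f x * l) = f * p x l) :
    Esc (zx μ a E) (fun g => zx_bound g) := by
  classical
  intro R hco b hcomp a0 u w ha hu hw hu1 hw1 hdisc hna
  obtain ⟨L, _, _, _, Γ, hD⟩ := hco
  -- the component
  have hne : XPpr R (vec μ a E b) ≠ 0 := by
    obtain ⟨ξ, ⟨n, hn⟩, hin⟩ := hcomp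
    exact XPpr_ne_zero R (Submodule.le_topologicalClosure _ (Submodule.subset_span ⟨n, hn⟩)) hin
  -- elements of the centraliser
  let a0' : cen b := ⟨a0, mem_cen.2 ha⟩
  let u' : cen b := ⟨u, mem_cen.2 hu⟩
  let w' : cen b := ⟨w, mem_cen.2 hw⟩
  have hu1' : Tendsto (fun m : ℕ => (a0' ^ m)⁻¹ * u' * a0' ^ m) atTop (𝓝 1) := by
    rw [Topology.IsInducing.subtypeVal.tendsto_nhds_iff]
    exact hu1
  have hw1' : Tendsto (fun m : ℕ => a0' ^ m * w' * (a0' ^ m)⁻¹) atTop (𝓝 1) := by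
    rw [Topology.IsInducing.subtypeVal.tendsto_nhds_iff]
    exact hw1
  -- the group generated by `u`, `w`
  have hmap : (Subgroup.closure {u', w'}).map (cen b).subtype = Subgroup.closure {u, w} := by
    rw [MonoidHom.map_closure, Set.image_pair]
    rfl
  let e : Subgroup.closure {u', w'} ≃* Subgroup.closure {u, w} :=
    ((Subgroup.closure {u', w'}).equivMapOfInjective (cen b).subtype (cen b).subtype_injective).trans
      (MulEquiv.subgroupCongr hmap)
  have he : ∀ f : Subgroup.closure {u', w'}, ((e f : Subgroup.closure {u, w}) : G1) = ((f : cen b) : G1) :=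
    fun f => rfl
  have hna' : NonAm (Subgroup.closure {u', w'}) := by
    rw [Pool.Agent.Helper66.RK.nonAm_iff] at hna ⊢
    exact fun h => hna (h.congr e)
  obtain ⟨hcount, p, hpm, hpe⟩ := hp (Subgroup.closure {u, w}) hdisc
  have hcount' : Countable (Subgroup.closure {u', w'}) := e.toEquiv.countable_iff.2 hcount
  have hsmi : SMulInvariantMeasure (Subgroup.closure {u', w'}) X μ :=
    ⟨fun g _ hs => SMulInvariantMeasure.measure_preimage_smul ((g : cen b) : G1) hs⟩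
  have hmcs : MeasurableConstSMul (Subgroup.closure {u', w'}) X :=
    ⟨fun g => measurable_const_smul ((g : cen b) : G1)⟩
  let aF : Cocy (Subgroup.closure {u', w'}) X Λ := cres (cres a (cen b)) (Subgroup.closure {u', w'})
  let I0 : Imp (Subgroup.closure {u', w'}) X (XL μ (L2 Λ)) := impX μ aF (fun x l => e.symm (p x l))
    (fun l g => by
      have h := hpm l {e g}
      refine (congrArg MeasurableSet ?_).mp h
      ext x
      simp only [Set.mem_setOf_eq, Set.mem_singleton_iff]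
      exact (MulEquiv.symm_apply_eq e).symm)
    (fun f x l => by
      have h := hpe (e f) x l
      change e.symm (p (((f : cen b) : G1) • x) (a.a ((f : cen b) : G1) x * l)) = f * e.symm (p x l)
      rw [MulEquiv.symm_apply_eq, map_mul, MulEquiv.apply_symm_apply]
      exact h)
  set z : XUa μ R := XPpr R (vec μ a E b) with hz
  have hzn : 0 < ‖z‖ := norm_pos_iff.2 hne
  have hzV : z ∈ VB (XAU R) := (Bdd.map (A := AE μ G) (T := XPpr R) (XPpr_A R) (bdd_A_vec b)).mem_VB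
  refine ⟨‖z‖ / 4, by positivity, fun s hs m => ?_⟩
  obtain ⟨k, hk⟩ := escapeX Γ hD a E h3 b a0' u' w' hu1' hw1' hna' I0 (Too μ a E b)
    (fun f φ => Too_V (aF := aF) b f (f : cen b) (fun _ => rfl) (fun _ => rfl) φ)
    (fun D hDm φ => Too_P0 b hDm φ) (v0 μ Λ) (Too_v0 b) m (ε := ‖z‖ ^ 2 / 2) (by positivity)
  rw [← hz] at hk
  set zl : XUa μ R := opL (xmUa μ b R) (cres a (cen b)) (CRep.ext (XAU R) E) (a0' ^ k) z with hzl
  set ζl : UE μ (L2 G) := vec μ a E fun n => a0 ^ k * b n with hζl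
  have e1 : zl = XPpr R ζl := by
    rw [hzl, hz, ← XPpr_opL, opL_vec]
    rfl
  have n1 : ‖zl‖ = ‖z‖ := esc_norm a E b (a0' ^ k) hzV
  have n2 : ‖(zl : UE μ (L2 G))‖ = ‖z‖ := n1
  have n3 : ‖ζl‖ = 1 := norm_vec _
  have i1 : (inner ℂ (zl : UE μ (L2 G)) ζl : ℂ).re = ‖z‖ ^ 2 := by
    rw [inner_XPpr R ζl zl, ← e1, ← n1]
    exact (norm_sq_eq_re_inner (𝕜 := ℂ) zl).symm
  have hsplit : ind ℂ s = ind ℂ (s ∩ R.W m) + ind ℂ (s \ R.W m) := by
    ext1 x
    apply lv_ext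
    intro i
    rw [_root_.add_apply, lp.coeFn_add, Pi.add_apply, ind_apply, ind_apply, ind_apply]
    by_cases h4 : i ∈ R.W m <;> by_cases h5 : i ∈ s <;> simp [h4, h5]
  have i2 : (inner ℂ (zl : UE μ (L2 G)) ζl : ℂ) =
      inner ℂ (UE.map μ (ind ℂ (s ∩ R.W m)) (zl : UE μ (L2 G))) ζl +
        inner ℂ (zl : UE μ (L2 G)) (UE.map μ (ind ℂ (s \ R.W m)) ζl) := by
    conv_lhs => rw [← XUa_ind R hs zl.2]
    rw [xinner_ind, hsplit, UE.map_add, inner_add_right, ← xinner_ind (s ∩ R.W m)]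
  have b1 : (inner ℂ (UE.map μ (ind ℂ (s ∩ R.W m)) (zl : UE μ (L2 G))) ζl : ℂ).re ≤ ‖z‖ ^ 2 / 2 := by
    refine (Complex.re_le_norm _).trans ((norm_inner_le_norm _ _).trans ?_)
    rw [n3, mul_one, ← xind_ind]
    exact (xnorm_ind_le _ _).trans hk
  have b2 : (inner ℂ (zl : UE μ (L2 G)) (UE.map μ (ind ℂ (s \ R.W m)) ζl) : ℂ).re ≤
      ‖z‖ * ‖UE.map μ (ind ℂ (s \ R.W m)) ζl‖ := by
    refine (Complex.re_le_norm _).trans ((norm_inner_le_norm _ _).trans ?_)
    rw [n2]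
  have b3 : ‖z‖ / 2 ≤ ‖UE.map μ (ind ℂ (s \ R.W m)) ζl‖ := by
    rw [i2, Complex.add_re] at i1
    have : ‖z‖ * (‖z‖ / 2) ≤ ‖z‖ * ‖UE.map μ (ind ℂ (s \ R.W m)) ζl‖ := by
      nlinarith
    exact le_of_mul_le_mul_left this hzn
  have b4 : ‖z‖ / 4 < ‖UE.map μ (ind ℂ (s \ R.W m)) ζl‖ := by linarith
  rw [hζl, vec_eq, UE.map_mk] at b4
  have hEB : EB 1 (⟨fun n => zx μ a E (a0 ^ k * b n), 1, fun n => (norm_zx (a0 ^ k * b n)).le⟩ :
      BSeq (XL μ (L2 G))) := ⟨zero_le_one, fun n => zx_bound (a0 ^ k * b n)⟩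
  obtain ⟨n, hn⟩ := ((UE.tendsto_norm _ (EB.map hEB (ind ℂ (s \ R.W m)))).eventually
    (lt_mem_nhds b4)).exists
  exact ⟨n, k, hn.le⟩

end Esc

end Pool.Agent.Helper84.FR
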