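import Pool.Agent.Helper84.FR.ES

/-!
# Project FR (MP_0f6f3f_an, full rank theorem): the escape lemma, second part
-/

set_option autoImplicit false
set_option linter.unusedSectionVars false

open Filter Topology Matrix

namespace Pool.Agent.Helper84.FR

open NI GVN GN MeasureTheory Pool.Agent.Helper66.FR Pool.Agent.Helper90.RK

section Esc

variable {G1 X : Type} [Group G1] [TopologicalSpace G1] [IsTopologicalGroup G1] [MeasurableSpace X]
  {μ : Measure X} [MulAction G1 X] [MeasurableConstSMul G1 X] [SMulInvariantMeasure G1 X μ]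
  [IsProbabilityMeasure μ]
variable {G Λ : Type} [Group G] [Group Λ] [Countable Λ] {R : Reg G} {L : Type} [NormedAddCommGroup L]
  [InnerProductSpace ℂ L] [CompleteSpace L]

instance instMCS_cen (b : ℕ → G1) : MeasurableConstSMul (cen b) X where
  measurable_const_smul g := measurable_const_smul (g : G1)

instance instSMI_cen (b : ℕ → G1) : SMulInvariantMeasure (cen b) X μ where
  measure_preimage_smul g _ hs := SMulInvariantMeasure.measure_preimage_smul (g : G1) hs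

/-- `opL` and the projection on the stratum. -/
theorem XPpr_opL (a : Cocy G1 X Λ) (E : Emb Λ G) (b : ℕ → G1) (h : cen b) (ξ : UE μ (L2 G)) :
    XPpr R (opL (xmU μ b (L2 G)) (cres a (cen b)) (CRep.ext (AE μ G) E) h ξ) =
      opL (xmUa μ b R) (cres a (cen b)) (CRep.ext (XAU R) E) h (XPpr R ξ) :=
  opL_nat (xmU μ b (L2 G)) (cres a (cen b)) (uhom_ext E (mrep_UE (μ := μ) b).hA) (uhom_ext E (mrep_XU b).hA)
    (hom_XPpr b) (fun l ξ => map_ext (T := XPpr R) (XPpr_A R) E l ξ) h ξ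

theorem XPpr_opR (a : Cocy G1 X Λ) (E : Emb Λ G) (b : ℕ → G1) (h : cen b) (ξ : UE μ (L2 G)) :
    XPpr R (opR (xmU μ b (L2 G)) (cres a (cen b)) (CRep.ext (BE μ G) E.conj) h ξ) =
      opR (xmUa μ b R) (cres a (cen b)) (CRep.ext (XBU R) E.conj) h (XPpr R ξ) :=
  opR_nat (xmU μ b (L2 G)) (cres a (cen b)) (uhom_ext E.conj (mrep_UE (μ := μ) b).hB)
    (uhom_ext E.conj (mrep_XU b).hB) (hom_XPpr b) (fun l ξ => map_ext (T := XPpr R) (XPpr_B R) E.conj l ξ) h ξ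

theorem XTR_opL (Γ : Coc R L) (a : Cocy G1 X Λ) (E : Emb Λ G) (b : ℕ → G1) (h : cen b) (ξ : XUa μ R) :
    XTR μ Γ (opL (xmUa μ b R) (cres a (cen b)) (CRep.ext (XAU R) E) h ξ) =
      opL (xmVp μ b R L) (cres a (cen b)) (CRep.ext (XAV μ Γ) E) h (XTR μ Γ ξ) :=
  opL_nat (xmUa μ b R) (cres a (cen b)) (uhom_ext E (mrep_XU b).hA) (uhom_ext E (mrep_XV b Γ).hA)
    (hom_XTR b Γ) (fun l ξ => map_ext (T := (XTR μ Γ).toContinuousLinearMap) (XTR_A μ Γ) E l ξ) h ξ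

theorem norm_XPpr_le (ξ : UE μ (L2 G)) : ‖XPpr R ξ‖ ≤ ‖ξ‖ := by
  have h := (XPpr (μ := μ) R).le_opNorm ξ
  have h2 := mul_le_mul_of_nonneg_right (norm_XPpr (μ := μ) R) (norm_nonneg ξ)
  linarith

theorem escapeX (Γ : Coc R L) (hD : ∀ (Q : Finset G) (ε : ℝ), 0 < ε → Nonempty (Mul Γ Q ε))
    (a : Cocy G1 X Λ) (E : Emb Λ G) (h3 : Tendsto (fun g : G1 => μ {x | a.a g x ≠ 1}) (𝓝 1) (𝓝 0))
    (b : ℕ → G1) (a0 u w : cen b) (hu : Tendsto (fun m : ℕ => (a0 ^ m)⁻¹ * u * a0 ^ m) atTop (𝓝 1))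
    (hw : Tendsto (fun m : ℕ => a0 ^ m * w * (a0 ^ m)⁻¹) atTop (𝓝 1))
    (hF : NonAm (Subgroup.closure {u, w})) {L0 : Type} [NormedAddCommGroup L0] [InnerProductSpace ℂ L0]
    [CompleteSpace L0] (I0 : Imp (Subgroup.closure {u, w}) X L0) (T : L0 →L[ℂ] UE μ (L2 G))
    (hTV : ∀ (f : Subgroup.closure {u, w}) x,
      T (I0.V f x) = opL (xmU μ b (L2 G)) (cres a (cen b)) (CRep.ext (AE μ G) E) f (T x))
    (hTP : ∀ D : Set X, MeasurableSet D → ∀ x, T (I0.P0.p D x) = (xmU μ b (L2 G)).py.p D (T x))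
    (v0 : L0) (hT0 : T v0 = vec μ a E b) (n : ℕ) {ε : ℝ} (hε : 0 < ε) :
    ∃ k : ℤ, ‖UE.map μ (ind ℂ (R.W n)) ((opL (xmUa μ b R) (cres a (cen b)) (CRep.ext (XAU R) E)
      (a0 ^ k) (XPpr R (vec μ a E b)) : XUa μ R) : UE μ (L2 G))‖ ≤ ε := by
  by_contra hne
  push Not at hne
  obtain ⟨c, hc, hpos⟩ := Γ.pos n
  have hc1 : 0 < c * ε ^ 2 := by positivity
  have hbA : Bdd (XAU R) 1 (XPpr R (vec μ a E b)) :=
    (Bdd.map (A := AE μ G) (T := XPpr R) (XPpr_A R) (bdd_A_vec b)).mono (by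
      simpa using norm_XPpr (μ := μ) R)
  have hbB : BddX (xmUa μ b R) μ (XBU R) (XPpr R (vec μ a E b)) := by
    intro D hDm
    have h1 := (hom_XPpr (μ := μ) (R := R) b).y D hDm (vec μ a E b)
    rw [← h1]
    refine (Bdd.map (A := BE μ G) (T := XPpr R) (XPpr_B R) (bddX_vec (b := b) (a := a) (E := E) hDm)).mono ?_
    have := mul_le_mul_of_nonneg_right (norm_XPpr (μ := μ) R) (Real.sqrt_nonneg (μ D).toReal)
    linarith
  have hcen : ∀ v : cen b, opL (xmUa μ b R) (cres a (cen b)) (CRep.ext (XAU R) E) v⁻¹ (XPpr R (vec μ a E b)) =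
      opR (xmUa μ b R) (cres a (cen b)) (CRep.ext (XBU R) E.conj) v (XPpr R (vec μ a E b)) := by
    intro v
    rw [← XPpr_opL, ← XPpr_opR, vec_central]
  have hν : ∀ D : Set X, MeasurableSet D → ‖(xmUa μ b R).px.p D (XPpr R (vec μ a E b))‖ ^ 2 ≤ (μ D).toReal := by
    intro D hDm
    have h1 := (hom_XPpr (μ := μ) (R := R) b).x D hDm (vec μ a E b)
    rw [← h1]
    exact (pow_le_pow_left₀ (norm_nonneg _) (norm_XPpr_le _) 2).trans (norm_px_vec hDm)
  have h3' : Tendsto (fun h : cen b => μ {x | (cres a (cen b)).a h x ≠ 1}) (𝓝 1) (𝓝 0) := by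
    have h4 : Tendsto (fun h : cen b => (h : G1)) (𝓝 1) (𝓝 1) := continuous_subtype_val.tendsto (1 : cen b)
    exact h3.comp h4
  obtain ⟨η, h1, h2, hfix0, hcont⟩ := hullX (cres a (cen b)) E (mrep_XU b) (mrep_XV b Γ) (XTL μ Γ) (XTR μ Γ)
    (XTR_A μ Γ) (XTL_B μ Γ) (hom_XTR b Γ) (hom_XTL b Γ) (ν := μ) hbA.mem_VB hbB hcen hν h3'
    (Subgroup.zpowers a0) hc1 (fun v hv => by
      obtain ⟨k, rfl⟩ := Subgroup.mem_zpowers_iff.1 hv
      rw [inner_XTL_XTR]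
      refine le_trans ?_ (xlower (W := R.W n) (c := c) (fun γ => ?_) (fun γ => Γ.nonneg γ)
        (fun γ hγ => hpos γ hγ) _)
      · exact mul_le_mul_of_nonneg_left (pow_le_pow_left₀ hε.le (hne k).le 2) hc.le
      · refine (norm_inner_le_norm _ _).trans ?_
        rw [Γ.nvX, Γ.nv, mul_one])
  have hU : UHom (xmVp μ b R L) (CRep.ext (XAV μ Γ) E) := uhom_ext E (mrep_XV b Γ).hA
  have hU' : UHom (xmVp μ b R L) (CRep.ext (XBV μ Γ) E.conj) := uhom_ext E.conj (mrep_XV b Γ).hB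
  have hUU := ucom_ext (mrep_XV (μ := μ) (R := R) b Γ).comm2 E E.conj
  let σ : CRep (cen b) (XVp μ R L) :=
    { U := sgm (xmVp μ b R L) (cres a (cen b)) (CRep.ext (XAV μ Γ) E) (CRep.ext (XBV μ Γ) E.conj)
      mul := sgm_mul (xmVp μ b R L) (cres a (cen b)) hU hU' hUU
      norm_le := norm_sgm_le (xmVp μ b R L) (cres a (cen b)) hU hU'
      adj := sgm_adj (xmVp μ b R L) (cres a (cen b)) hU hU' hUU }
  have hfix : ∀ f ∈ Subgroup.closure {u, w}, σ.U f η = η := by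
    refine mautnerX (σ := σ) hcont (a0 := a0) (hfix0 a0 (Subgroup.mem_zpowers a0)) ?_
    rintro x (rfl | hx)
    · exact Or.inl hu
    · rw [Set.mem_singleton_iff] at hx
      subst hx
      exact Or.inr hw
  obtain ⟨F, ε₀, hε₀, hF⟩ := hF
  let T' : L0 →L[ℂ] XVp μ R L := ((XTR μ Γ).toContinuousLinearMap.comp (XPpr R)).comp T
  have hT' : ∀ x, T' x = XTR μ Γ (XPpr R (T x)) := fun x => rfl
  obtain ⟨q, hq, hq2⟩ := finalX (cres a (cen b)) E (mrep_XV b Γ) (xapx Γ b hD) (Subgroup.closure {u, w}) I0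
    T' (fun f x => by
      rw [hT', hT', hTV, XPpr_opL, XTR_opL]) (fun D hDm x => by
      rw [hT', hT', hTP D hDm]
      have e1 := (hom_XPpr (μ := μ) (R := R) b).y D hDm (T x)
      have e2 := (hom_XTR (μ := μ) b Γ).y D hDm (XPpr R (T x))
      rw [e1]
      exact e2) v0 h1 (by
      rw [hT', hT0]
      intro h0
      rw [h0, Complex.zero_re] at h2
      linarith) hfix F (half_pos hε₀)
  obtain ⟨g, hg, hg2⟩ := hF q hq
  have h5 := hq2 g hg
  linarith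

end Esc

end Pool.Agent.Helper84.FR
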