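import Pool.Agent.Helper84.NI.Cen

/-!
# Project FR (MP_0f6f3f_an, full rank theorem): projection valued measures, twisted products (definitions)

`PV X H`: a projection valued measure on the measurable sets of `X`, countably additive on countable partitions.
`CRep Λ H`: a `*`-representation of `Λ` by contractions (a unitary representation on a closed subspace, zero on its complement).
`tw P U c = ∑_l P {c = l} (U l)` for a measurable function `c : X → Λ`.
`XM C X H`: shifts `S h`, `h ∈ C`, and two commuting projection valued measures, `px` (position) and `py` (source point).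
`Cocy C X Λ`: a measurable cocycle. `opL h = S h ∘ tw px U (a h)`, `opR h = tw py U' (a h)`, `sig h = opL h ∘ opR h`.
-/

set_option autoImplicit false

open Filter Topology MeasureTheory

namespace Pool.Agent.Helper84.FR

open NI GVN

/-- A projection valued measure, countably additive on countable partitions. -/
structure PV (X : Type) [MeasurableSpace X] (H : Type) [NormedAddCommGroup H]
    [InnerProductSpace ℂ H] where
  /-- the projections -/
  p : Set X → (H →L[ℂ] H)
  univ : ∀ ξ, p Set.univ ξ = ξ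
  inter : ∀ A B : Set X, MeasurableSet A → MeasurableSet B → ∀ ξ, p A (p B ξ) = p (A ∩ B) ξ
  symm : ∀ A : Set X, MeasurableSet A → ∀ ξ η, inner ℂ (p A ξ) η = inner ℂ ξ (p A η)
  sum : ∀ (I : Type) [Countable I] (c : X → I), (∀ i, MeasurableSet (c ⁻¹' {i})) →
    ∀ ξ, HasSum (fun i => p (c ⁻¹' {i}) ξ) ξ

/-- A `*`-representation by contractions. -/
structure CRep (Λ : Type) [Group Λ] (H : Type) [NormedAddCommGroup H]
    [InnerProductSpace ℂ H] where
  /-- the operators -/
  U : Λ → (H →L[ℂ] H)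
  mul : ∀ l m ξ, U (l * m) ξ = U l (U m ξ)
  norm_le : ∀ l ξ, ‖U l ξ‖ ≤ ‖ξ‖
  adj : ∀ l ξ η, inner ℂ (U l ξ) η = inner ℂ ξ (U l⁻¹ η)

section Defs

variable {C X Λ G : Type} [Group C] [MulAction C X] [MeasurableSpace X] [Group Λ] [Group G]
variable {H K : Type} [NormedAddCommGroup H] [InnerProductSpace ℂ H]
  [NormedAddCommGroup K] [InnerProductSpace ℂ K]

/-- A unitary representation. -/
noncomputable def CRep.ofU (A : Λ →* (H ≃ₗᵢ[ℂ] H)) : CRep Λ H where
  U l := ((A l).toContinuousLinearEquiv : H →L[ℂ] H)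
  mul l m ξ := by
    rw [map_mul]
    rfl
  norm_le l ξ := (LinearIsometryEquiv.norm_map (A l) ξ).le
  adj l ξ η := by
    change inner ℂ (A l ξ) η = inner ℂ ξ (A l⁻¹ η)
    rw [← LinearIsometryEquiv.inner_map_map (A l) ξ (A l⁻¹ η)]
    congr 1
    change η = (A l * A l⁻¹) η
    rw [← map_mul, mul_inv_cancel, map_one]
    rfl

/-- The normal extension of a representation to the unitaries of `L(G)`. -/
noncomputable def CRep.ext [CompleteSpace H] (A : G →* (H ≃ₗᵢ[ℂ] H)) (E : Emb Λ G) : CRep Λ H where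
  U := NI.ext A E
  mul := ext_mul A E
  norm_le := norm_ext_le A E
  adj := inner_ext A E

/-- The operator `∑_l P {c = l} (U l)`. -/
noncomputable def tw (P : PV X H) (U : CRep Λ H) (c : X → Λ) : H →L[ℂ] H := by
  classical exact
  if h : ∃ W : H →L[ℂ] H, ∀ ξ, HasSum (fun l => P.p (c ⁻¹' {l}) (U.U l ξ)) (W ξ) then h.choose else 0

/-- `U` commutes with the projections. -/
def PCom (P : PV X H) (U : CRep Λ H) : Prop :=
  ∀ (A : Set X), MeasurableSet A → ∀ l ξ, P.p A (U.U l ξ) = U.U l (P.p A ξ)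

/-- Measurable functions with values in a countable set. -/
def Mea (c : X → Λ) : Prop := ∀ l, MeasurableSet (c ⁻¹' {l})

/-- Shifts and two commuting projection valued measures. -/
structure XM (C X : Type) [Group C] [MulAction C X] [MeasurableSpace X] (H : Type)
    [NormedAddCommGroup H] [InnerProductSpace ℂ H] where
  /-- the shifts -/
  S : C →* (H ≃ₗᵢ[ℂ] H)
  /-- position -/
  px : PV X H
  /-- source point -/
  py : PV X H
  comm : ∀ A B : Set X, MeasurableSet A → MeasurableSet B → ∀ ξ, px.p A (py.p B ξ) = py.p B (px.p A ξ)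
  Sx : ∀ (h : C) (A : Set X), MeasurableSet A → ∀ ξ,
    S h (px.p A ξ) = px.p ((fun x => h⁻¹ • x) ⁻¹' A) (S h ξ)
  Sy : ∀ (h : C) (A : Set X), MeasurableSet A → ∀ ξ,
    S h (py.p A ξ) = py.p ((fun x => h⁻¹ • x) ⁻¹' A) (S h ξ)

/-- `T` commutes with shifts and projections. -/
structure XM.Hom (M : XM C X H) (M' : XM C X K) (T : H →L[ℂ] K) : Prop where
  S : ∀ h ξ, T (M.S h ξ) = M'.S h (T ξ)
  x : ∀ A : Set X, MeasurableSet A → ∀ ξ, T (M.px.p A ξ) = M'.px.p A (T ξ)
  y : ∀ A : Set X, MeasurableSet A → ∀ ξ, T (M.py.p A ξ) = M'.py.p A (T ξ)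

/-- `A`, `B` commute with each other and with `M`. -/
structure MRep (M : XM C X H) (A B : G →* (H ≃ₗᵢ[ℂ] H)) : Prop where
  comm2 : Comm2 A B
  hA : ∀ g, M.Hom M ((A g).toContinuousLinearEquiv : H →L[ℂ] H)
  hB : ∀ g, M.Hom M ((B g).toContinuousLinearEquiv : H →L[ℂ] H)

/-- Measurable cocycles. -/
structure Cocy (C X Λ : Type) [Group C] [MulAction C X] [MeasurableSpace X] [Group Λ] where
  /-- the cocycle -/
  a : C → X → Λ
  meas : ∀ h, Mea (a h)
  mul : ∀ g h x, a (g * h) x = a g (h • x) * a h x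

/-- The left operators. -/
noncomputable def opL (M : XM C X H) (a : Cocy C X Λ) (U : CRep Λ H) (h : C) : H →L[ℂ] H :=
  ((M.S h).toContinuousLinearEquiv : H →L[ℂ] H).comp (tw M.px U (a.a h))

/-- The right operators. -/
noncomputable def opR (M : XM C X H) (a : Cocy C X Λ) (U : CRep Λ H) (h : C) : H →L[ℂ] H :=
  tw M.py U (a.a h)

/-- The conjugation operators. -/
noncomputable def sgm (M : XM C X H) (a : Cocy C X Λ) (U U' : CRep Λ H) (h : C) : H →L[ℂ] H :=
  (opL M a U h).comp (opR M a U' h)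

/-- Approximately equivariant multipliers commuting with the left action and with `M`. -/
def ApxM (M : XM C X H) (A B : G →* (H ≃ₗᵢ[ℂ] H)) : Prop :=
  ∀ (Q : Finset G) (ε : ℝ), 0 < ε → ∃ (S : Finset G) (m : G → (H →L[ℂ] H)),
    (∀ t, M.Hom M (m t)) ∧ (∀ t g x, m t (A g x) = A g (m t x)) ∧ (∀ t, t ∉ S → m t = 0) ∧
    (∀ x, ∑ t ∈ S, ‖m t x‖ ^ 2 = ‖x‖ ^ 2) ∧
    ∀ h ∈ Q, ∀ x, ∀ S' : Finset G, ∑ t ∈ S', ‖m t (B h x) - B h (m (h⁻¹ * t) x)‖ ^ 2 ≤ ε ^ 2 * ‖x‖ ^ 2

end Defs

end Pool.Agent.Helper84.FR
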