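import Pool.Agent.Helper84.FR.PV
import Pool.Agent.Helper84.NI.Rep

/-!
# Project FR, block XR: restriction of shifts and projections to invariant closed subspaces
-/

set_option autoImplicit false

open Filter Topology MeasureTheory

namespace Pool.Agent.Helper84.FR

open NI GVN

section Restrict

variable {C X G : Type} [Group C] [MulAction C X] [MeasurableSpace X] [Group G]
variable {K K' : Type} [NormedAddCommGroup K] [InnerProductSpace ℂ K]
  [NormedAddCommGroup K'] [InnerProductSpace ℂ K']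

/-- Restriction of a continuous operator to a subspace. -/
noncomputable def rst (T : K →L[ℂ] K') (V : Submodule ℂ K) (V' : Submodule ℂ K')
    (h : ∀ x ∈ V, T x ∈ V') : V →L[ℂ] V' :=
  (T.comp V.subtypeL).codRestrict V' fun x => h x x.2

theorem coe_rst {T : K →L[ℂ] K'} {V : Submodule ℂ K} {V' : Submodule ℂ K'}
    {h : ∀ x ∈ V, T x ∈ V'} (x : V) : (rst T V V' h x : K') = T x := rfl

/-- Restriction of a projection valued measure to an invariant subspace. -/
noncomputable def PV.restrict (P : PV X K) (V : Submodule ℂ K) (h : ∀ A, ∀ x ∈ V, P.p A x ∈ V) :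
    PV X V where
  p A := rst (P.p A) V V (h A)
  univ ξ := Subtype.ext (P.univ ξ)
  inter A B hA hB ξ := Subtype.ext (P.inter A B hA hB ξ)
  symm A hA ξ η := P.symm A hA ξ η
  sum I _ c hc ξ := by
    refine (V.subtypeₗᵢ.isometry.isEmbedding.isInducing.hasSum_iff _ _).1 ?_
    exact P.sum I c hc ξ

/-- Invariance of a subspace. -/
structure XM.Inv (M : XM C X K) (V : Submodule ℂ K) : Prop where
  S : ∀ h, ∀ x ∈ V, M.S h x ∈ V
  x : ∀ A, ∀ x ∈ V, M.px.p A x ∈ V
  y : ∀ A, ∀ x ∈ V, M.py.p A x ∈ V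

/-- Restriction to an invariant subspace. -/
noncomputable def XM.restrict (M : XM C X K) (V : Submodule ℂ K) (hV : M.Inv V) : XM C X V where
  S := restrictRep M.S V hV.S
  px := M.px.restrict V hV.x
  py := M.py.restrict V hV.y
  comm A B hA hB ξ := Subtype.ext (M.comm A B hA hB ξ)
  Sx h A hA ξ := Subtype.ext (M.Sx h A hA ξ)
  Sy h A hA ξ := Subtype.ext (M.Sy h A hA ξ)

theorem hom_rst {M : XM C X K} {M' : XM C X K'} {T : K →L[ℂ] K'} (hT : M.Hom M' T) {V : Submodule ℂ K}
    {V' : Submodule ℂ K'} (hV : M.Inv V) (hV' : M'.Inv V') (h : ∀ x ∈ V, T x ∈ V') :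
    (M.restrict V hV).Hom (M'.restrict V' hV') (rst T V V' h) where
  S c ξ := Subtype.ext (hT.S c ξ)
  x A hA ξ := Subtype.ext (hT.x A hA ξ)
  y A hA ξ := Subtype.ext (hT.y A hA ξ)

theorem mrep_restrict {M : XM C X K} {A B : G →* (K ≃ₗᵢ[ℂ] K)} (h : MRep M A B) {V : Submodule ℂ K}
    (hV : M.Inv V) (hA : ∀ g, ∀ x ∈ V, A g x ∈ V) (hB : ∀ g, ∀ x ∈ V, B g x ∈ V) :
    MRep (M.restrict V hV) (restrictRep A V hA) (restrictRep B V hB) where
  comm2 g g' x := Subtype.ext (h.comm2 g g' x)
  hA g := hom_rst (h.hA g) hV hV (hA g)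
  hB g := hom_rst (h.hB g) hV hV (hB g)

/-- The projection on an invariant subspace commutes with operators preserving it. -/
theorem proj_comm {V : Submodule ℂ K} [V.HasOrthogonalProjection] {T T' : K →L[ℂ] K}
    (hadj : ∀ x y, inner ℂ (T x) y = inner ℂ x (T' y)) (h1 : ∀ x ∈ V, T x ∈ V) (h2 : ∀ x ∈ V, T' x ∈ V)
    (f : K) : V.starProjection (T f) = T (V.starProjection f) := by
  apply Submodule.eq_starProjection_of_mem_orthogonal
  · exact h1 _ (Submodule.starProjection_apply_mem V f)
  · rw [← map_sub, Submodule.mem_orthogonal']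
    intro u hu
    have h3 := (Submodule.mem_orthogonal' _ _).1 (Submodule.sub_starProjection_mem_orthogonal
      (K := V) f) (T' u) (h2 u hu)
    rw [hadj]
    exact h3

theorem hom_proj {M : XM C X K} {V : Submodule ℂ K} [V.HasOrthogonalProjection] (hV : M.Inv V) :
    M.Hom (M.restrict V hV) V.orthogonalProjectionOnto where
  S c ξ := by
    apply Subtype.ext
    change V.starProjection (M.S c ξ) = M.S c (V.starProjection ξ)
    refine proj_comm (T := ((M.S c).toContinuousLinearEquiv : K →L[ℂ] K))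
      (T' := ((M.S c⁻¹).toContinuousLinearEquiv : K →L[ℂ] K)) (fun x y => ?_) (hV.S c) (hV.S c⁻¹) ξ
    exact (CRep.ofU M.S).adj c x y
  x A hA ξ := by
    apply Subtype.ext
    change V.starProjection (M.px.p A ξ) = M.px.p A (V.starProjection ξ)
    exact proj_comm (M.px.symm A hA) (hV.x A) (hV.x A) ξ
  y A hA ξ := by
    apply Subtype.ext
    change V.starProjection (M.py.p A ξ) = M.py.p A (V.starProjection ξ)
    exact proj_comm (M.py.symm A hA) (hV.y A) (hV.y A) ξ

theorem hom_incl {M : XM C X K} {V : Submodule ℂ K} (hV : M.Inv V) : (M.restrict V hV).Hom M V.subtypeL where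
  S _ _ := rfl
  x _ _ _ := rfl
  y _ _ _ := rfl

end Restrict

end Pool.Agent.Helper84.FR
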