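import Pool.Agent.Helper84.FR.XE
import Pool.Agent.Helper84.FR.XR

/-!
# Project FR, block XS: shifts and projections on `XUa` and `XVp`
-/

set_option autoImplicit false

open Filter Topology Matrix

namespace Pool.Agent.Helper84.FR

open NI GVN GN MeasureTheory Pool.Agent.Helper66.FR

section Xs

variable {G1 X : Type} [Group G1] [MeasurableSpace X] {μ : Measure X} [MulAction G1 X]
  [MeasurableConstSMul G1 X] [SMulInvariantMeasure G1 X μ] [IsProbabilityMeasure μ]
variable {G : Type} [Group G] {R : Reg G} {L : Type} [NormedAddCommGroup L] [InnerProductSpace ℂ L]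
  [CompleteSpace L] (b : ℕ → G1)

/-- An operator of `UE μ (ℓ²(G))` commuting with the indicator functions preserves `XUa`. -/
theorem XUa_inv {T : UE μ (L2 G) →L[ℂ] UE μ (L2 G)}
    (hT : ∀ (s : Set G) ξ, UE.map μ (ind ℂ s) (T ξ) = T (UE.map μ (ind ℂ s) ξ)) :
    ∀ x ∈ XUa μ R, T x ∈ XUa μ R := by
  have h1 : XUa μ R ≤ (XUa μ R).comap T.toLinearMap := by
    refine Submodule.topologicalClosure_minimal _ ?_ ?_
    · rw [Submodule.span_le]
      rintro a ⟨n, hn⟩
      refine Submodule.le_topologicalClosure _ (Submodule.subset_span ⟨n, fun s hs => ?_⟩)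
      change UE.map μ (ind ℂ s) (T a) = T a
      rw [hT, hn s hs]
    · exact (Submodule.isClosed_topologicalClosure _).preimage T.continuous
  exact fun x hx => h1 hx

/-- Operators given by commuting families preserve `XVp`. -/
theorem XVp_inv {T : UE μ (Lv G L) →L[ℂ] UE μ (Lv G L)} {T' : UE μ (L2 G) →L[ℂ] UE μ (L2 G)}
    (hT' : ∀ x ∈ XUa μ R, T' x ∈ XUa μ R)
    (hT : ∀ (w : L) ξ, T (UE.map μ (mulF fun _ => w) ξ) = UE.map μ (mulF fun _ => w) (T' ξ)) :
    ∀ x ∈ XVp μ R L, T x ∈ XVp μ R L := by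
  have h1 : XVp μ R L ≤ (XVp μ R L).comap T.toLinearMap := by
    refine Submodule.topologicalClosure_minimal _ ?_ ?_
    · rw [Submodule.span_le]
      rintro _ ⟨w, a, ha, rfl⟩
      refine Submodule.le_topologicalClosure _ (Submodule.subset_span ⟨w, T' a, hT' a ha, hT w a⟩)
    · exact (Submodule.isClosed_topologicalClosure _).preimage T.continuous
  exact fun x hx => h1 hx

theorem inv_XUa : (xmU μ b (L2 G)).Inv (XUa μ R) where
  S h := XUa_inv (T := (((xmU μ b (L2 G)).S h).toContinuousLinearEquiv : UE μ (L2 G) →L[ℂ] UE μ (L2 G)))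
    fun s ξ => (xmU_hom b (ind ℂ s)).S h ξ
  x A := by
    by_cases hA : MeasurableSet A
    · exact XUa_inv fun s ξ => (xmU_hom b (ind ℂ s)).x A hA ξ
    · intro x _
      have h : (xmU μ b (L2 G)).px.p A = 0 := by
        rw [xmU_px]
        unfold UE.P
        rw [dif_neg fun h => hA (h 0)]
      rw [h]
      exact Submodule.zero_mem _
  y A := by
    by_cases hA : MeasurableSet A
    · exact XUa_inv fun s ξ => (xmU_hom b (ind ℂ s)).y A hA ξ
    · intro x _
      have h : (xmU μ b (L2 G)).py.p A = 0 := by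
        rw [xmU_py]
        unfold UE.P
        rw [dif_neg fun h => hA ?_]
        have h2 := (measurable_const_smul (b 0)) (h 0)
        have e : (fun x : X => b 0 • x) ⁻¹' ((fun x => (b 0)⁻¹ • x) ⁻¹' A) = A := by
          ext x
          simp
        rwa [e] at h2
      rw [h]
      exact Submodule.zero_mem _

theorem inv_XVp : (xmU μ b (Lv G L)).Inv (XVp μ R L) where
  S h := XVp_inv (T := (((xmU μ b (Lv G L)).S h).toContinuousLinearEquiv : UE μ (Lv G L) →L[ℂ] UE μ (Lv G L)))
    (T' := (((xmU μ b (L2 G)).S h).toContinuousLinearEquiv : UE μ (L2 G) →L[ℂ] UE μ (L2 G)))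
    ((inv_XUa b).S h) fun w ξ => ((xmU_hom b (mulF fun _ => w)).S h ξ).symm
  x A := by
    by_cases hA : MeasurableSet A
    · exact XVp_inv ((inv_XUa b).x A) fun w ξ => ((xmU_hom b (mulF fun _ => w)).x A hA ξ).symm
    · intro x _
      have h : (xmU μ b (Lv G L)).px.p A = 0 := by
        rw [xmU_px]
        unfold UE.P
        rw [dif_neg fun h => hA (h 0)]
      rw [h]
      exact Submodule.zero_mem _
  y A := by
    by_cases hA : MeasurableSet A
    · exact XVp_inv ((inv_XUa b).y A) fun w ξ => ((xmU_hom b (mulF fun _ => w)).y A hA ξ).symm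
    · intro x _
      have h : (xmU μ b (Lv G L)).py.p A = 0 := by
        rw [xmU_py]
        unfold UE.P
        rw [dif_neg fun h => hA ?_]
        have h2 := (measurable_const_smul (b 0)) (h 0)
        have e : (fun x : X => b 0 • x) ⁻¹' ((fun x => (b 0)⁻¹ • x) ⁻¹' A) = A := by
          ext x
          simp
        rwa [e] at h2
      rw [h]
      exact Submodule.zero_mem _

/-- Shifts and projections on `XUa`. -/
noncomputable def xmUa (μ : Measure X) [SMulInvariantMeasure G1 X μ] [IsProbabilityMeasure μ]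
    (b : ℕ → G1) (R : Reg G) : XM (cen b) X (XUa μ R) := (xmU μ b (L2 G)).restrict (XUa μ R) (inv_XUa b)

/-- Shifts and projections on `XVp`. -/
noncomputable def xmVp (μ : Measure X) [SMulInvariantMeasure G1 X μ] [IsProbabilityMeasure μ]
    (b : ℕ → G1) (R : Reg G) (L : Type) [NormedAddCommGroup L] [InnerProductSpace ℂ L] [CompleteSpace L] :
    XM (cen b) X (XVp μ R L) := (xmU μ b (Lv G L)).restrict (XVp μ R L) (inv_XVp b)

theorem mrep_UE : MRep (xmU μ b (L2 G)) (XAlim μ G) (XBlim μ G) := xmU_mrep b comm2_lr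

theorem mrep_XU : MRep (xmUa μ b R) (XAU R) (XBU R) := mrep_restrict (mrep_UE b) _ _ _

theorem hom_XPpr : (xmU μ b (L2 G)).Hom (xmUa μ b R) (XPpr R) := hom_proj _

variable (Γ : Coc R L)

theorem mrep_XV : MRep (xmVp μ b R L) (XAV μ Γ) (XBV μ Γ) where
  comm2 := comm2_XV μ Γ
  hA g := hom_rst (xmU_hom b (((GN.What Γ g 1).toContinuousLinearEquiv : Lv G L →L[ℂ] Lv G L))) _ _
    (fun x hx => xwhat_mem Γ g 1 x hx)
  hB g := hom_rst (xmU_hom b (((GN.What Γ 1 g).toContinuousLinearEquiv : Lv G L →L[ℂ] Lv G L))) _ _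
    (fun x hx => xwhat_mem Γ 1 g x hx)

theorem hom_XTR : (xmUa μ b R).Hom (xmVp μ b R L) (XTR μ Γ).toContinuousLinearMap :=
  hom_rst (xmU_hom b (mulF fun _ => Γ.v)) _ _ fun a ha => XTR_mem μ Γ a ha

theorem hom_XTL : (xmUa μ b R).Hom (xmVp μ b R L) (XTL μ Γ).toContinuousLinearMap :=
  hom_rst (xmU_hom b (mulF fun γ => Γ.vX γ)) _ _ fun a ha => XTL_mem μ Γ a ha

end Xs

end Pool.Agent.Helper84.FR
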