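import Pool.Agent.Helper84.FR.PV
import Pool.Agent.Helper84.NI.Vec

/-!
# Project FR, block GJ: isometric intertwiners (helper66; statement)

Operators `s i` on `H0` and `k i` on `H` with adjoints `s (ι i)`, `k (ι i)`. `T : H0 → H` is an intertwiner if `T (s i x) = k i (T x)`. `z` is the projection on the closed span of the ranges of all intertwiners,
`J` a partial isometry into `ℓ²(Y; H0)` with `‖J x‖ = ‖z x‖` and `J (k i x) y = s i (J x y)`. PROOF: Zorn's lemma for orthogonal families of intertwiners, and the polar decomposition (see `NI/J3.lean`) of the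
operator `v ↦ (c_T⁻¹ T* v)_T`. `z` commutes with every operator `T'` on `H` commuting with all `k i`: `T'` and its adjoint map intertwiners to intertwiners.
-/

set_option autoImplicit false

namespace Pool.Agent.Helper84.FR

open NI GVN

section Proj

variable {H : Type} [NormedAddCommGroup H] [InnerProductSpace ℂ H] [CompleteSpace H]

/-- The projection onto a subspace which is invariant under `T` and its adjoint commutes with `T`. -/
private theorem gj_proj {V : Submodule ℂ H} [V.HasOrthogonalProjection] (T : H →L[ℂ] H)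
    (h1 : ∀ x ∈ V, T x ∈ V) (h2 : ∀ x ∈ V, ContinuousLinearMap.adjoint T x ∈ V) (x : H) :
    V.starProjection (T x) = T (V.starProjection x) := by
  refine Submodule.eq_starProjection_of_mem_orthogonal (h1 _ (V.starProjection_apply_mem x)) ?_
  rw [← map_sub, Submodule.mem_orthogonal]
  intro y hy
  rw [← ContinuousLinearMap.adjoint_inner_left]
  exact (Submodule.mem_orthogonal _ _).1 (V.sub_starProjection_mem_orthogonal x) _ (h2 y hy)

end Proj

section Polar

variable {I V Z : Type} [NormedAddCommGroup V] [InnerProductSpace ℂ V] [CompleteSpace V]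
  [NormedAddCommGroup Z] [InnerProductSpace ℂ Z] [CompleteSpace Z]

/-- Polar decomposition of an injective intertwiner. -/
private theorem gj_polar (W : V →L[ℂ] Z) (hinj : ∀ v, W v = 0 → v = 0) (k : I → (V →L[ℂ] V))
    (τ : I → (Z →L[ℂ] Z)) (ι : I → I) (hk : ∀ i x y, inner ℂ (k i x) y = inner ℂ x (k (ι i) y))
    (hτ : ∀ i x y, inner ℂ (τ i x) y = inner ℂ x (τ (ι i) y)) (hW : ∀ i v, W (k i v) = τ i (W v)) :
    ∃ J : V →ₗᵢ[ℂ] Z, ∀ i v, J (k i v) = τ i (J v) := by
  have hW' : ∀ i w, ContinuousLinearMap.adjoint W (τ i w) = k i (ContinuousLinearMap.adjoint W w) := by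
    intro i w
    refine ext_inner_right ℂ fun v => ?_
    rw [ContinuousLinearMap.adjoint_inner_left, hτ, ← hW, hk, ContinuousLinearMap.adjoint_inner_left]
  let A : V →L[ℂ] V := (ContinuousLinearMap.adjoint W).comp W
  have hA : 0 ≤ A := (ContinuousLinearMap.nonneg_iff_isPositive _).2
    (ContinuousLinearMap.isPositive_adjoint_comp_self W)
  let D : V →L[ℂ] V := CFC.sqrt A
  have hDD : D * D = A := CFC.sqrt_mul_sqrt_self A hA
  have hDp : 0 ≤ D := CFC.sqrt_nonneg A
  have hDs : ContinuousLinearMap.adjoint D = D := (IsSelfAdjoint.of_nonneg hDp).adjoint_eq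
  have hDn : ∀ v, ‖D v‖ = ‖W v‖ := by
    intro v
    have h1 : inner ℂ (D v) (D v) = inner ℂ (W v) (W v) := by
      calc inner ℂ (D v) (D v) = inner ℂ (ContinuousLinearMap.adjoint D (D v)) v :=
            (ContinuousLinearMap.adjoint_inner_left D v (D v)).symm
        _ = inner ℂ ((D * D) v) v := by rw [hDs]; rfl
        _ = inner ℂ (ContinuousLinearMap.adjoint W (W v)) v := by rw [hDD]; rfl
        _ = inner ℂ (W v) (W v) := ContinuousLinearMap.adjoint_inner_left W v (W v)
    rw [inner_self_eq_norm_sq_to_K, inner_self_eq_norm_sq_to_K] at h1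
    have h2 : ‖D v‖ ^ 2 = ‖W v‖ ^ 2 := by exact_mod_cast h1
    exact (pow_left_inj₀ (norm_nonneg _) (norm_nonneg _) two_ne_zero).1 h2
  have hDinj : ∀ v, D v = 0 → v = 0 := by
    intro v hv
    apply hinj
    rw [← norm_eq_zero, ← hDn, hv, norm_zero]
  have hdense : DenseRange D := by
    have h1 : (LinearMap.range (D : V →ₗ[ℂ] V))ᗮ = ⊥ := by
      rw [Submodule.eq_bot_iff]
      intro v hv
      apply hDinj
      have h2 : inner ℂ (D (D v)) v = 0 := hv _ ⟨D v, rfl⟩
      have h3 : inner ℂ (D v) (D v) = 0 := by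
        rw [← h2]
        calc inner ℂ (D v) (D v) = inner ℂ (ContinuousLinearMap.adjoint D (D v)) v :=
            (ContinuousLinearMap.adjoint_inner_left D v (D v)).symm
          _ = _ := by rw [hDs]
      exact inner_self_eq_zero.1 h3
    have h2 := (Submodule.topologicalClosure_eq_top_iff).2 h1
    exact (Submodule.dense_iff_topologicalClosure_eq_top).2 h2
  have hcomm : ∀ i v, D (k i v) = k i (D v) := by
    intro i v
    have h1 : Commute A (k i) := by
      change A * _ = _ * A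
      ext w
      change ContinuousLinearMap.adjoint W (W (k i w)) = k i (ContinuousLinearMap.adjoint W (W w))
      rw [hW, hW']
    have h2 : Commute D (k i) := h1.cfcₙ_nnreal _
    have h3 := congrArg (fun T : V →L[ℂ] V => T v) h2.eq
    exact h3
  let J0 : V →L[ℂ] Z := (W : V →ₗ[ℂ] Z).extendOfNorm (D : V →ₗ[ℂ] V)
  have hbd : ∀ v, ‖(W : V →ₗ[ℂ] Z) v‖ ≤ 1 * ‖(D : V →ₗ[ℂ] V) v‖ := by
    intro v
    rw [one_mul]
    exact (hDn v).ge
  have hJ0 : ∀ v, J0 (D v) = W v := fun v => LinearMap.extendOfNorm_eq hdense ⟨1, hbd⟩ v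
  have hnorm : ∀ y, ‖J0 y‖ = ‖y‖ := by
    intro y
    refine hdense.induction_on (p := fun y => ‖J0 y‖ = ‖y‖) y
      (isClosed_eq (J0.continuous.norm) continuous_norm) ?_
    intro v
    rw [hJ0, hDn]
  refine ⟨⟨J0.toLinearMap, hnorm⟩, ?_⟩
  intro i v
  change J0 (k i v) = τ i (J0 v)
  refine hdense.induction_on (p := fun v => J0 (k i v) = τ i (J0 v)) v
    (isClosed_eq (J0.continuous.comp (k i).continuous) ((τ i).continuous.comp J0.continuous)) ?_
  intro y
  rw [← hcomm, hJ0, hJ0, hW]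

end Polar

section Fam

variable {I H0 H : Type} [NormedAddCommGroup H0] [InnerProductSpace ℂ H0] [CompleteSpace H0]
    [NormedAddCommGroup H] [InnerProductSpace ℂ H] [CompleteSpace H]

/-- Intertwiners. -/
private def Itw (s : I → (H0 →L[ℂ] H0)) (k : I → (H →L[ℂ] H)) (T : H0 →L[ℂ] H) : Prop :=
  ∀ i x, T (s i x) = k i (T x)

/-- The vectors orthogonal to the ranges of a family of operators. -/
private def gjN (m : Set (H0 →L[ℂ] H)) : Submodule ℂ H where
  carrier := {v | ∀ T ∈ m, ∀ x, inner ℂ (T x) v = 0}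
  add_mem' := by
    intro a b ha hb T hT x
    rw [inner_add_right, ha T hT x, hb T hT x, add_zero]
  zero_mem' := by
    intro T _ x
    rw [inner_zero_right]
  smul_mem' := by
    intro c a ha T hT x
    rw [inner_smul_right, ha T hT x, mul_zero]

omit [CompleteSpace H0] [CompleteSpace H] in
private theorem gjN_closed (m : Set (H0 →L[ℂ] H)) : IsClosed (gjN m : Set H) := by
  have h : (gjN m : Set H) = ⋂ T ∈ m, ⋂ x : H0, {v : H | inner ℂ (T x) v = 0} := by
    ext v
    simp only [Set.mem_iInter, Set.mem_ofPred_eq]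
    rfl
  rw [h]
  refine isClosed_biInter fun T _ => isClosed_iInter fun x => ?_
  exact isClosed_eq (continuous_const.inner continuous_id) continuous_const

omit [CompleteSpace H0] in
/-- A maximal orthogonal family of intertwiners. -/
private theorem gj_family (s : I → (H0 →L[ℂ] H0)) (k : I → (H →L[ℂ] H)) (ι : I → I)
    (hk : ∀ i x y, inner ℂ (k i x) y = inner ℂ x (k (ι i) y)) :
    ∃ m : Set (H0 →L[ℂ] H), (∀ T ∈ m, T ≠ 0 ∧ Itw s k T) ∧
      (∀ T ∈ m, ∀ T' ∈ m, T ≠ T' → ∀ x y, inner ℂ (T x) (T' y) = 0) ∧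
      ∀ v ∈ gjN m, ∀ T, Itw s k T → ∀ x, inner ℂ (T x) v = 0 := by
  classical
  obtain ⟨m, hm⟩ := zorn_subset {m : Set (H0 →L[ℂ] H) | (∀ T ∈ m, T ≠ 0 ∧ Itw s k T) ∧
      (∀ T ∈ m, ∀ T' ∈ m, T ≠ T' → ∀ x y, inner ℂ (T x) (T' y) = 0)} (by
    intro c hc hch
    refine ⟨⋃₀ c, ⟨?_, ?_⟩, fun s hs => Set.subset_sUnion_of_mem hs⟩
    · rintro T ⟨s, hs, hT⟩
      exact (hc hs).1 T hT
    · rintro T ⟨s, hs, hT⟩ T' ⟨s', hs', hT'⟩ hne x y
      rcases hch.total hs hs' with h | h
      · exact (hc hs').2 T (h hT) T' hT' hne x y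
      · exact (hc hs).2 T hT T' (h hT') hne x y)
  have h1 := hm.prop
  refine ⟨m, h1.1, h1.2, ?_⟩
  have hcp : CompleteSpace (gjN m) := (gjN_closed m).completeSpace_coe
  -- the projection onto `gjN m` commutes with the `k i`
  have hinv : ∀ i, ∀ v ∈ gjN m, k i v ∈ gjN m := by
    intro i v hv T hT x
    have h2 : inner ℂ (T x) (k i v) = inner ℂ (k (ι i) (T x)) v := by
      have h3 := hk i v (T x)
      have h4 := congrArg (starRingEnd ℂ) h3
      rw [inner_conj_symm, inner_conj_symm] at h4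
      exact h4
    rw [h2, ← (h1.1 T hT).2]
    exact hv T hT _
  have hadj : ∀ i, ContinuousLinearMap.adjoint (k i) = k (ι i) := by
    intro i
    symm
    rw [ContinuousLinearMap.eq_adjoint_iff]
    intro x y
    have h4 := congrArg (starRingEnd ℂ) (hk i y x)
    rw [inner_conj_symm, inner_conj_symm] at h4
    exact h4.symm
  intro v hv T hT x
  by_contra hne
  let T1 : H0 →L[ℂ] H := ((gjN m).starProjection).comp T
  have hT1 : ∀ x, T1 x = (gjN m).starProjection (T x) := fun _ => rfl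
  have hI : Itw s k T1 := by
    intro i y
    rw [hT1, hT1, hT i y]
    exact gj_proj (k i) (hinv i) (fun y hy => by rw [hadj]; exact hinv _ y hy) (T y)
  have hmem : ∀ y, T1 y ∈ gjN m := fun y => (gjN m).starProjection_apply_mem _
  have hne1 : T1 ≠ 0 := by
    intro h0
    apply hne
    have h5 : inner ℂ (T x) v = inner ℂ (T1 x) v := by
      have h6 := (Submodule.mem_orthogonal' _ _).1 ((gjN m).sub_starProjection_mem_orthogonal (T x)) v hv
      rw [inner_sub_left, sub_eq_zero] at h6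
      exact h6
    rw [h5, h0, zero_apply, inner_zero_left]
  have horth : ∀ S ∈ m, ∀ x y, inner ℂ (S x) (T1 y) = 0 := fun S hS x y => hmem y S hS x
  have hnot : T1 ∉ m := by
    intro hin
    apply hne1
    ext y
    have h7 := horth T1 hin y y
    rw [inner_self_eq_zero] at h7
    exact h7
  have h8 : insert T1 m ∈ {m : Set (H0 →L[ℂ] H) | (∀ T ∈ m, T ≠ 0 ∧ Itw s k T) ∧
      (∀ T ∈ m, ∀ T' ∈ m, T ≠ T' → ∀ x y, inner ℂ (T x) (T' y) = 0)} := by
    refine ⟨?_, ?_⟩
    · rintro S (rfl | hS)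
      · exact ⟨hne1, hI⟩
      · exact h1.1 S hS
    · rintro S (rfl | hS) S' (rfl | hS') hSS x y
      · exact absurd rfl hSS
      · rw [← inner_conj_symm, horth S' hS' y x, map_zero]
      · exact horth S hS x y
      · exact h1.2 S hS S' hS' hSS x y
  exact hnot ((hm.le_of_ge h8 (Set.subset_insert _ _)) (Set.mem_insert _ _))

end Fam

theorem exists_GJ {I H0 H : Type} [NormedAddCommGroup H0] [InnerProductSpace ℂ H0] [CompleteSpace H0]
    [NormedAddCommGroup H] [InnerProductSpace ℂ H] [CompleteSpace H] (s : I → (H0 →L[ℂ] H0))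
    (k : I → (H →L[ℂ] H)) (ι : I → I) (hs : ∀ i x y, inner ℂ (s i x) y = inner ℂ x (s (ι i) y))
    (hk : ∀ i x y, inner ℂ (k i x) y = inner ℂ x (k (ι i) y)) :
    ∃ (Y : Type) (J : H →L[ℂ] Lv Y H0) (z : H →L[ℂ] H),
      (∀ x, ‖J x‖ = ‖z x‖) ∧ (∀ x, ‖z x‖ ≤ ‖x‖) ∧
      (∀ x y, inner ℂ (z x) y = inner ℂ x (z y)) ∧
      (∀ T : H0 →L[ℂ] H, (∀ i x, T (s i x) = k i (T x)) → ∀ x, z (T x) = T x) ∧
      (∀ T' : H →L[ℂ] H, (∀ i x, T' (k i x) = k i (T' x)) → ∀ x, z (T' x) = T' (z x)) ∧
      ∀ i x y, J (k i x) y = s i (J x y) := by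
  classical
  -- adjoints
  have hkadj : ∀ i, ContinuousLinearMap.adjoint (k i) = k (ι i) := by
    intro i
    symm
    rw [ContinuousLinearMap.eq_adjoint_iff]
    intro x y
    have h4 := congrArg (starRingEnd ℂ) (hk i y x)
    rw [inner_conj_symm, inner_conj_symm] at h4
    exact h4.symm
  have hsadj : ∀ i, ContinuousLinearMap.adjoint (s i) = s (ι i) := by
    intro i
    symm
    rw [ContinuousLinearMap.eq_adjoint_iff]
    intro x y
    have h4 := congrArg (starRingEnd ℂ) (hs i y x)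
    rw [inner_conj_symm, inner_conj_symm] at h4
    exact h4.symm
  -- adjoints of intertwiners
  have hTadj : ∀ T : H0 →L[ℂ] H, Itw s k T → ∀ i v,
      ContinuousLinearMap.adjoint T (k i v) = s i (ContinuousLinearMap.adjoint T v) := by
    intro T hT i v
    refine ext_inner_right ℂ fun x => ?_
    rw [ContinuousLinearMap.adjoint_inner_left, hk, ← hT, hs, ContinuousLinearMap.adjoint_inner_left]
  obtain ⟨m, hm1, hm2, hm3⟩ := gj_family s k ι hk
  -- the regular part
  let V : Submodule ℂ H :=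
    (Submodule.span ℂ {v : H | ∃ T : H0 →L[ℂ] H, Itw s k T ∧ ∃ x, T x = v}).topologicalClosure
  have hVc : IsClosed (V : Set H) := Submodule.isClosed_topologicalClosure _
  have hcp : CompleteSpace V := hVc.completeSpace_coe
  have hVT : ∀ T : H0 →L[ℂ] H, Itw s k T → ∀ x, T x ∈ V := fun T hT x =>
    Submodule.le_topologicalClosure _ (Submodule.subset_span ⟨T, hT, x, rfl⟩)
  have hVind : ∀ {S : H →L[ℂ] H}, (∀ T : H0 →L[ℂ] H, Itw s k T → ∀ x, S (T x) ∈ V) → ∀ v ∈ V, S v ∈ V := by
    intro S hS v hv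
    have h1 : V ≤ V.comap (S : H →ₗ[ℂ] H) := by
      refine Submodule.topologicalClosure_minimal _ (Submodule.span_le.2 ?_) ?_
      · rintro _ ⟨T, hT, x, rfl⟩
        exact hS T hT x
      · exact hVc.preimage S.continuous
    exact h1 hv
  -- `V` is invariant under the `k i`
  have hVk : ∀ i, ∀ v ∈ V, k i v ∈ V := by
    intro i
    refine hVind fun T hT x => ?_
    rw [← hT i x]
    exact hVT T hT _
  have hzk : ∀ i x, V.starProjection (k i x) = k i (V.starProjection x) := fun i x =>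
    gj_proj (k i) (hVk i) (fun y hy => by rw [hkadj]; exact hVk _ y hy) x
  -- the operator `W`
  have hc : ∀ T : m, 0 < ‖(T : H0 →L[ℂ] H)‖ := fun T => norm_pos_iff.2 (hm1 T.1 T.2).1
  have hW1 : ∀ (v : H) (F : Finset m),
      ∑ T ∈ F, ‖((‖(T : H0 →L[ℂ] H)‖⁻¹ : ℝ) : ℂ) • ContinuousLinearMap.adjoint (T : H0 →L[ℂ] H) v‖ ^ 2 ≤
        ‖v‖ ^ 2 := by
    intro v F
    set a : m → H0 := fun T =>
      ((‖(T : H0 →L[ℂ] H)‖⁻¹ : ℝ) : ℂ) • ContinuousLinearMap.adjoint (T : H0 →L[ℂ] H) v with ha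
    set y : m → H := fun T => ((‖(T : H0 →L[ℂ] H)‖⁻¹ : ℝ) : ℂ) • (T : H0 →L[ℂ] H) (a T) with hy
    set q : ℝ := ∑ T ∈ F, ‖a T‖ ^ 2 with hq
    have hq0 : 0 ≤ q := Finset.sum_nonneg fun _ _ => sq_nonneg _
    have hyn : ∀ T, ‖y T‖ ≤ ‖a T‖ := by
      intro T
      rw [hy]
      simp only
      rw [norm_smul, Complex.norm_real, norm_inv, norm_norm]
      calc ‖(T : H0 →L[ℂ] H)‖⁻¹ * ‖(T : H0 →L[ℂ] H) (a T)‖ ≤
          ‖(T : H0 →L[ℂ] H)‖⁻¹ * (‖(T : H0 →L[ℂ] H)‖ * ‖a T‖) :=
            mul_le_mul_of_nonneg_left ((T : H0 →L[ℂ] H).le_opNorm _) (inv_nonneg.2 (norm_nonneg _))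
        _ = ‖a T‖ := by rw [← mul_assoc, inv_mul_cancel₀ (hc T).ne', one_mul]
    have hyo : ∀ T T' : m, T ≠ T' → inner ℂ (y T) (y T') = 0 := by
      intro T T' hne
      rw [hy]
      simp only
      rw [inner_smul_left, inner_smul_right,
        hm2 T.1 T.2 T'.1 T'.2 (fun e => hne (Subtype.ext e)), mul_zero, mul_zero]
    have hsum : ‖∑ T ∈ F, y T‖ ^ 2 ≤ q := by
      rw [@norm_sq_eq_re_inner ℂ, sum_inner, map_sum]
      refine Finset.sum_le_sum fun T hT => ?_
      rw [inner_sum, Finset.sum_eq_single T (fun T' _ hne => hyo T T' hne.symm)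
        (fun h => absurd hT h), inner_self_eq_norm_sq (𝕜 := ℂ)]
      exact pow_le_pow_left₀ (norm_nonneg _) (hyn T) 2
    have hin : inner ℂ (∑ T ∈ F, y T) v = ((q : ℝ) : ℂ) := by
      rw [sum_inner, hq, Complex.ofReal_sum]
      refine Finset.sum_congr rfl fun T _ => ?_
      rw [hy]
      simp only
      rw [inner_smul_left, ← ContinuousLinearMap.adjoint_inner_right, ← inner_smul_left]
      have h5 : inner ℂ (((‖(T : H0 →L[ℂ] H)‖⁻¹ : ℝ) : ℂ) • a T)
          (ContinuousLinearMap.adjoint (T : H0 →L[ℂ] H) v) = inner ℂ (a T) (a T) := by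
        rw [inner_smul_left, Complex.conj_ofReal, ← inner_smul_right]
      rw [h5, inner_self_eq_norm_sq_to_K]
      push_cast
      rfl
    have h6 : q ≤ ‖∑ T ∈ F, y T‖ * ‖v‖ := by
      have h7 := norm_inner_le_norm (𝕜 := ℂ) (∑ T ∈ F, y T) v
      rw [hin, Complex.norm_real, Real.norm_eq_abs, abs_of_nonneg hq0] at h7
      exact h7
    have h8 : q ^ 2 ≤ q * ‖v‖ ^ 2 := by
      calc q ^ 2 ≤ (‖∑ T ∈ F, y T‖ * ‖v‖) ^ 2 := pow_le_pow_left₀ hq0 h6 2
        _ = ‖∑ T ∈ F, y T‖ ^ 2 * ‖v‖ ^ 2 := mul_pow _ _ _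
        _ ≤ q * ‖v‖ ^ 2 := mul_le_mul_of_nonneg_right hsum (sq_nonneg _)
    rcases eq_or_lt_of_le hq0 with h9 | h9
    · rw [← h9]
      exact sq_nonneg _
    · rw [sq] at h8
      exact le_of_mul_le_mul_left h8 h9
  have hW2 : ∀ v : H, Summable fun T : m =>
      ‖((‖(T : H0 →L[ℂ] H)‖⁻¹ : ℝ) : ℂ) • ContinuousLinearMap.adjoint (T : H0 →L[ℂ] H) v‖ ^ 2 :=
    fun v => summable_of_sum_le (fun _ => sq_nonneg _) (hW1 v)
  let W : H →L[ℂ] Lv m H0 := LinearMap.mkContinuous
    { toFun := fun v => ⟨fun T : m =>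
        ((‖(T : H0 →L[ℂ] H)‖⁻¹ : ℝ) : ℂ) • ContinuousLinearMap.adjoint (T : H0 →L[ℂ] H) v, lv_mem (hW2 v)⟩
      map_add' := fun v w => by
        apply lv_ext
        intro T
        change ((‖(T : H0 →L[ℂ] H)‖⁻¹ : ℝ) : ℂ) • ContinuousLinearMap.adjoint (T : H0 →L[ℂ] H) (v + w) =
          ((‖(T : H0 →L[ℂ] H)‖⁻¹ : ℝ) : ℂ) • ContinuousLinearMap.adjoint (T : H0 →L[ℂ] H) v +
          ((‖(T : H0 →L[ℂ] H)‖⁻¹ : ℝ) : ℂ) • ContinuousLinearMap.adjoint (T : H0 →L[ℂ] H) w
        rw [map_add, smul_add]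
      map_smul' := fun c v => by
        apply lv_ext
        intro T
        change ((‖(T : H0 →L[ℂ] H)‖⁻¹ : ℝ) : ℂ) • ContinuousLinearMap.adjoint (T : H0 →L[ℂ] H) (c • v) =
          c • (((‖(T : H0 →L[ℂ] H)‖⁻¹ : ℝ) : ℂ) • ContinuousLinearMap.adjoint (T : H0 →L[ℂ] H) v)
        rw [map_smul, smul_comm] } 1 (by
    intro v
    rw [one_mul]
    refine le_of_sq_le_sq ?_ (norm_nonneg _)
    exact hasSum_le_of_sum_le (lv_hasSum _) (hW1 v))
  have hWa : ∀ v (T : m), W v T =
      ((‖(T : H0 →L[ℂ] H)‖⁻¹ : ℝ) : ℂ) • ContinuousLinearMap.adjoint (T : H0 →L[ℂ] H) v := fun v T => rfl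
  -- restriction to `V`
  let kV : I → (V →L[ℂ] V) := fun i =>
    ((k i).comp V.subtypeL).codRestrict V fun v => hVk i v v.2
  have hkV : ∀ i (v : V), ((kV i v : V) : H) = k i v := fun _ _ => rfl
  let τ : I → (Lv m H0 →L[ℂ] Lv m H0) := fun i => dg fun _ => s i
  have hτ : ∀ i (w : Lv m H0) (T : m), τ i w T = s i (w T) := fun i w T =>
    dg_apply (C := ‖s i‖) (fun _ x => (s i).le_opNorm x) w T
  obtain ⟨J, hJ⟩ := gj_polar (W.comp V.subtypeL) (fun v hv => by
      have h1 : (v : H) ∈ gjN m := by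
        intro T hT x
        have h2 : W v ⟨T, hT⟩ = 0 := by
          have h3 : W (v : H) = 0 := hv
          rw [h3]
          rfl
        rw [hWa] at h2
        have h3 : ContinuousLinearMap.adjoint T (v : H) = 0 := by
          rcases smul_eq_zero.1 h2 with h4 | h4
          · exact absurd (Complex.ofReal_eq_zero.1 h4) (inv_ne_zero (hc ⟨T, hT⟩).ne')
          · exact h4
        rw [← ContinuousLinearMap.adjoint_inner_right, h3, inner_zero_right]
      -- orthogonal to everything in `V`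
      have h2 : ∀ w ∈ V, inner ℂ w (v : H) = 0 := by
        intro w hw
        have h3 : V ≤ (LinearMap.ker ((innerSL ℂ (v : H)) : H →ₗ[ℂ] ℂ)) := by
          refine Submodule.topologicalClosure_minimal _ (Submodule.span_le.2 ?_) ?_
          · rintro _ ⟨T, hT, x, rfl⟩
            change inner ℂ (v : H) (T x) = 0
            rw [← inner_conj_symm, hm3 _ h1 T hT x, map_zero]
          · exact (isClosed_singleton (x := (0 : ℂ))).preimage (innerSL ℂ (v : H)).continuous
        have h4 : inner ℂ (v : H) w = 0 := h3 hw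
        rw [← inner_conj_symm, h4, map_zero]
      exact Subtype.ext (inner_self_eq_zero.1 (h2 _ v.2)))
    kV τ ι (fun i x y => hk i x y) (fun i x y => by
      have h1 := lv_inner (τ i x) y
      have h2 := lv_inner x (τ (ι i) y)
      have h3 : (fun T => inner ℂ (τ i x T) (y T)) = fun T => inner ℂ (x T) (τ (ι i) y T) := by
        funext T
        rw [hτ, hτ, hs]
      rw [h3] at h1
      exact h1.unique h2) (fun i v => by
      apply lv_ext
      intro T
      change W (k i v) T = τ i (W v) T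
      rw [hτ, hWa, hWa, hTadj _ (hm1 T.1 T.2).2, map_smul])
  refine ⟨m, J.toContinuousLinearMap.comp V.orthogonalProjectionOnto, V.starProjection, ?_, ?_, ?_, ?_, ?_, ?_⟩
  · intro x
    change ‖J (V.orthogonalProjectionOnto x)‖ = _
    rw [J.norm_map]
    rfl
  · intro x
    exact V.norm_starProjection_apply_le x
  · intro x y
    exact Submodule.inner_starProjection_left_eq_right V x y
  · intro T hT x
    exact Submodule.starProjection_eq_self_iff.2 (hVT T hT x)
  · intro T' hT' x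
    have hadj : ∀ i x, ContinuousLinearMap.adjoint T' (k i x) = k i (ContinuousLinearMap.adjoint T' x) := by
      intro i x
      refine ext_inner_right ℂ fun y => ?_
      rw [ContinuousLinearMap.adjoint_inner_left, hk, ← hT', hk, ContinuousLinearMap.adjoint_inner_left]
    refine gj_proj T' (hVind fun T hT x => ?_) (hVind fun T hT x => ?_) x
    · exact hVT (T'.comp T) (fun i y => by
        change T' (T (s i y)) = k i (T' (T y))
        rw [hT, hT']) x
    · exact hVT ((ContinuousLinearMap.adjoint T').comp T) (fun i y => by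
        change ContinuousLinearMap.adjoint T' (T (s i y)) = k i (ContinuousLinearMap.adjoint T' (T y))
        rw [hT, hadj]) x
  · intro i x y
    change J (V.orthogonalProjectionOnto (k i x)) y = s i (J (V.orthogonalProjectionOnto x) y)
    have h1 : V.orthogonalProjectionOnto (k i x) = kV i (V.orthogonalProjectionOnto x) :=
      Subtype.ext (hzk i x)
    rw [h1, hJ, hτ]

end Pool.Agent.Helper84.FR
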