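import Pool.Agent.Helper84.FR.PV
import Pool.Agent.Helper84.NI.F2

/-!
# Project FR, block QG: the forms `qg` (adapt `NI/F1.lean`, `NI/F1b.lean`, `NI/F2.lean`)

`Φ_t ξ = J (B t⁻¹ (m t ξ)) ∈ W`, `qg J Y B m S ξ ξ' = ∑_{t ∈ S} ⟪Φ_t ξ, Y (Φ_t ξ')⟫` for a bounded operator `Y` on a Hilbert space `W`, `‖Y w‖ ≤ ‖w‖`. (In `NI`: `W = ℓ²(Λ × X)`, `Y` = multiplication by a function `f`.)
PROOFS: those of `qf_bound`, `qf_add_left`, ..., `qf_move`, `qf_main`, simpler: sesquilinearity is `inner_add_left` etc.; the weighted product `∑ f conj u v` becomes `⟪u, Y v⟫`.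
`qg_bound`: `|⟪u, Y v⟫| ≤ ‖u‖ ‖v‖` and Cauchy-Schwarz for the sum over `t`. `qg_move`: header of `NI/F1b.lean`. `qg_main`: header of `NI/F2.lean` with `θ = ext B E.conj l η`, `‖θ‖ = ‖η‖` (`norm_ext`, `hB.mem_VB`), `Bdd B c θ` (`ext_bdd`), `c g = cf (E.conj.U l) g`;
`f2_cf_inv`, `f2_tail` of `NI/F2.lean` can be cited. The vector is `B`-bounded with some constant `c` (in `F2` the constant is 1), so replace `δ` by `δ / (c + 1)` etc.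
-/

set_option autoImplicit false

open Filter Topology MeasureTheory

namespace Pool.Agent.Helper84.FR

open NI GVN

variable {G Λ : Type} [Group G] [Group Λ]
variable {H W : Type} [NormedAddCommGroup H] [InnerProductSpace ℂ H]
  [NormedAddCommGroup W] [InnerProductSpace ℂ W]

/-- The form `∑_{t ∈ S} ⟪J (B t⁻¹ (m t ξ)), Y (J (B t⁻¹ (m t ξ')))⟫`. -/
noncomputable def qg (J : H →L[ℂ] W) (Y : W →L[ℂ] W) (B : G →* (H ≃ₗᵢ[ℂ] H)) (m : G → (H →L[ℂ] H))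
    (S : Finset G) (ξ ξ' : H) : ℂ :=
  ∑ t ∈ S, inner ℂ (J (B t⁻¹ (m t ξ))) (Y (J (B t⁻¹ (m t ξ'))))

theorem qg_add_left (J : H →L[ℂ] W) (Y : W →L[ℂ] W) (B : G →* (H ≃ₗᵢ[ℂ] H)) (m : G → (H →L[ℂ] H))
    (S : Finset G) (ξ₁ ξ₂ ξ' : H) :
    qg J Y B m S (ξ₁ + ξ₂) ξ' = qg J Y B m S ξ₁ ξ' + qg J Y B m S ξ₂ ξ' := by
  unfold qg
  rw [← Finset.sum_add_distrib]
  refine Finset.sum_congr rfl fun t _ => ?_
  rw [map_add, map_add, map_add, inner_add_left]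

theorem qg_add_right (J : H →L[ℂ] W) (Y : W →L[ℂ] W) (B : G →* (H ≃ₗᵢ[ℂ] H)) (m : G → (H →L[ℂ] H))
    (S : Finset G) (ξ ξ₁ ξ₂ : H) :
    qg J Y B m S ξ (ξ₁ + ξ₂) = qg J Y B m S ξ ξ₁ + qg J Y B m S ξ ξ₂ := by
  unfold qg
  rw [← Finset.sum_add_distrib]
  refine Finset.sum_congr rfl fun t _ => ?_
  rw [map_add, map_add, map_add, map_add, inner_add_right]

theorem qg_smul_left (J : H →L[ℂ] W) (Y : W →L[ℂ] W) (B : G →* (H ≃ₗᵢ[ℂ] H)) (m : G → (H →L[ℂ] H))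
    (S : Finset G) (c : ℂ) (ξ ξ' : H) :
    qg J Y B m S (c • ξ) ξ' = (starRingEnd ℂ c) * qg J Y B m S ξ ξ' := by
  unfold qg
  rw [Finset.mul_sum]
  refine Finset.sum_congr rfl fun t _ => ?_
  rw [map_smul, map_smul, map_smul, inner_smul_left]

theorem qg_smul_right (J : H →L[ℂ] W) (Y : W →L[ℂ] W) (B : G →* (H ≃ₗᵢ[ℂ] H)) (m : G → (H →L[ℂ] H))
    (S : Finset G) (c : ℂ) (ξ ξ' : H) :
    qg J Y B m S ξ (c • ξ') = c * qg J Y B m S ξ ξ' := by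
  unfold qg
  rw [Finset.mul_sum]
  refine Finset.sum_congr rfl fun t _ => ?_
  rw [map_smul, map_smul, map_smul, map_smul, inner_smul_right]

omit [Group G] in
private theorem cs89 {a b c : G → ℝ} (S : Finset G)
    (hc : ∀ t ∈ S, c t ≤ a t * b t) {A B : ℝ} (hA : 0 ≤ A) (hB : 0 ≤ B)
    (h1 : ∑ t ∈ S, a t ^ 2 ≤ A ^ 2) (h2 : ∑ t ∈ S, b t ^ 2 ≤ B ^ 2) : ∑ t ∈ S, c t ≤ A * B := by
  have h3 := Finset.sum_le_sum hc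
  have h4 := Finset.sum_mul_sq_le_sq_mul_sq S a b
  have h5 : (∑ t ∈ S, a t * b t) ^ 2 ≤ (A * B) ^ 2 := by
    rw [mul_pow]
    exact h4.trans (mul_le_mul h1 h2 (Finset.sum_nonneg fun t _ => sq_nonneg _) (sq_nonneg _))
  exact h3.trans (abs_le_of_sq_le_sq' h5 (mul_nonneg hA hB)).2

private theorem nm89 {Y : W →L[ℂ] W} (hY : ∀ w, ‖Y w‖ ≤ ‖w‖) (u v : W) :
    ‖(inner ℂ u (Y v) : ℂ)‖ ≤ ‖u‖ * ‖v‖ :=
  (norm_inner_le_norm u (Y v)).trans (mul_le_mul_of_nonneg_left (hY v) (norm_nonneg _))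

theorem qg_bound {J : H →L[ℂ] W} (hJ : ∀ x, ‖J x‖ ≤ ‖x‖) {Y : W →L[ℂ] W} (hY : ∀ w, ‖Y w‖ ≤ ‖w‖)
    (B : G →* (H ≃ₗᵢ[ℂ] H)) {m : G → (H →L[ℂ] H)} {S : Finset G}
    (hM : ∀ x, ∑ t ∈ S, ‖m t x‖ ^ 2 = ‖x‖ ^ 2) (ξ ξ' : H) : ‖qg J Y B m S ξ ξ'‖ ≤ ‖ξ‖ * ‖ξ'‖ := by
  have h1 : ∀ t x, ‖J (B t⁻¹ (m t x))‖ ≤ ‖m t x‖ := by
    intro t x
    exact (hJ _).trans (le_of_eq (LinearIsometryEquiv.norm_map _ _))
  unfold qg
  refine (norm_sum_le _ _).trans ?_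
  refine cs89 (a := fun t => ‖m t ξ‖) (b := fun t => ‖m t ξ'‖) S ?_ (norm_nonneg _) (norm_nonneg _)
    (hM ξ).le (hM ξ').le
  intro t _
  exact (nm89 hY _ _).trans (mul_le_mul (h1 t ξ) (h1 t ξ') (norm_nonneg _) (norm_nonneg _))

theorem qg_move {J : H →L[ℂ] W} (hJ : ∀ x, ‖J x‖ ≤ ‖x‖) {Y : W →L[ℂ] W} (hY : ∀ w, ‖Y w‖ ≤ ‖w‖)
    {B : G →* (H ≃ₗᵢ[ℂ] H)} {m : G → (H →L[ℂ] H)} {S : Finset G} (h0 : ∀ t, t ∉ S → m t = 0)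
    (hM : ∀ x, ∑ t ∈ S, ‖m t x‖ ^ 2 = ‖x‖ ^ 2) {ε : ℝ} (hε : 0 < ε) {h : G}
    (h1 : ∀ x, ∀ S' : Finset G, ∑ t ∈ S', ‖m t (B h x) - B h (m (h⁻¹ * t) x)‖ ^ 2 ≤ ε ^ 2 * ‖x‖ ^ 2)
    (h2 : ∀ x, ∀ S' : Finset G, ∑ t ∈ S', ‖m t (B h⁻¹ x) - B h⁻¹ (m (h * t) x)‖ ^ 2 ≤ ε ^ 2 * ‖x‖ ^ 2)
    (ξ ξ' : H) : ‖qg J Y B m S (B h ξ) ξ' - qg J Y B m S ξ (B h⁻¹ ξ')‖ ≤ 2 * ε * ‖ξ‖ * ‖ξ'‖ := by
  obtain ⟨Φ, hΦ⟩ : ∃ Φ : G → H → W, Φ = fun t ξ => J (B t⁻¹ (m t ξ)) := ⟨_, rfl⟩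
  have hq : ∀ x y, qg J Y B m S x y = ∑ t ∈ S, inner ℂ (Φ t x) (Y (Φ t y)) := by
    intro x y
    rw [hΦ]
    rfl
  have hΦ0 : ∀ t, t ∉ S → ∀ x, Φ t x = 0 := by
    intro t ht x
    rw [hΦ]
    show J (B t⁻¹ (m t x)) = 0
    rw [h0 t ht]
    simp
  have hΦn : ∀ t x, ‖Φ t x‖ ≤ ‖m t x‖ := by
    intro t x
    rw [hΦ]
    exact (hJ _).trans (le_of_eq (LinearIsometryEquiv.norm_map _ _))
  have hΦs : ∀ x, ∑ t ∈ S, ‖Φ t x‖ ^ 2 ≤ ‖x‖ ^ 2 := by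
    intro x
    rw [← hM x]
    exact Finset.sum_le_sum fun t _ => pow_le_pow_left₀ (norm_nonneg _) (hΦn t x) 2
  have hd : ∀ (k : G) (t : G) (x : H), ‖Φ t (B k x) - Φ (k⁻¹ * t) x‖ ≤ ‖m t (B k x) - B k (m (k⁻¹ * t) x)‖ := by
    intro k t x
    have e : Φ t (B k x) - Φ (k⁻¹ * t) x = J (B t⁻¹ (m t (B k x) - B k (m (k⁻¹ * t) x))) := by
      rw [hΦ]
      show J (B t⁻¹ (m t (B k x))) - J (B (k⁻¹ * t)⁻¹ (m (k⁻¹ * t) x)) = _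
      rw [map_sub, map_sub, mul_inv_rev, inv_inv, map_mul]
      rfl
    rw [e]
    exact (hJ _).trans (le_of_eq (LinearIsometryEquiv.norm_map _ _))
  -- the middle term
  have hmid : ∑ t ∈ S, (inner ℂ (Φ (h⁻¹ * t) ξ) (Y (Φ t ξ')) : ℂ) =
      ∑ s ∈ S, inner ℂ (Φ s ξ) (Y (Φ (h * s) ξ')) := by
    have e1 : ∑' t, (inner ℂ (Φ (h⁻¹ * t) ξ) (Y (Φ t ξ')) : ℂ) =
        ∑ t ∈ S, inner ℂ (Φ (h⁻¹ * t) ξ) (Y (Φ t ξ')) :=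
      tsum_eq_sum fun t ht => by rw [hΦ0 t ht, map_zero, inner_zero_right]
    have e2 : ∑' s, (inner ℂ (Φ s ξ) (Y (Φ (h * s) ξ')) : ℂ) =
        ∑ s ∈ S, inner ℂ (Φ s ξ) (Y (Φ (h * s) ξ')) :=
      tsum_eq_sum fun t ht => by rw [hΦ0 t ht, inner_zero_left]
    rw [← e1, ← e2, ← (Equiv.mulLeft h).tsum_eq]
    congr 1
    funext s
    simp
  have hA : ‖∑ t ∈ S, (inner ℂ (Φ t (B h ξ)) (Y (Φ t ξ')) : ℂ) -
      ∑ t ∈ S, inner ℂ (Φ (h⁻¹ * t) ξ) (Y (Φ t ξ'))‖ ≤ (ε * ‖ξ‖) * ‖ξ'‖ := by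
    rw [← Finset.sum_sub_distrib]
    refine (norm_sum_le _ _).trans ?_
    refine cs89 (a := fun t => ‖m t (B h ξ) - B h (m (h⁻¹ * t) ξ)‖) (b := fun t => ‖Φ t ξ'‖) S ?_
      (by positivity) (norm_nonneg _) ?_ (hΦs ξ')
    · intro t _
      rw [← inner_sub_left]
      refine (nm89 hY _ _).trans ?_
      exact mul_le_mul_of_nonneg_right (hd h t ξ) (norm_nonneg _)
    · rw [mul_pow]
      exact h1 ξ S
  have hB : ‖∑ s ∈ S, (inner ℂ (Φ s ξ) (Y (Φ s (B h⁻¹ ξ'))) : ℂ) -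
      ∑ s ∈ S, inner ℂ (Φ s ξ) (Y (Φ (h * s) ξ'))‖ ≤ ‖ξ‖ * (ε * ‖ξ'‖) := by
    rw [← Finset.sum_sub_distrib]
    refine (norm_sum_le _ _).trans ?_
    refine cs89 (a := fun t => ‖Φ t ξ‖) (b := fun t => ‖m t (B h⁻¹ ξ') - B h⁻¹ (m (h * t) ξ')‖) S ?_
      (norm_nonneg _) (by positivity) (hΦs ξ) ?_
    · intro t _
      rw [← inner_sub_right, ← map_sub]
      refine (nm89 hY _ _).trans ?_
      refine mul_le_mul_of_nonneg_left ?_ (norm_nonneg _)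
      have := hd h⁻¹ t ξ'
      rw [inv_inv] at this
      exact this
    · rw [mul_pow]
      exact h2 ξ' S
  rw [hq, hq]
  have e : ∑ t ∈ S, (inner ℂ (Φ t (B h ξ)) (Y (Φ t ξ')) : ℂ) -
      ∑ t ∈ S, inner ℂ (Φ t ξ) (Y (Φ t (B h⁻¹ ξ'))) =
      (∑ t ∈ S, (inner ℂ (Φ t (B h ξ)) (Y (Φ t ξ')) : ℂ) -
        ∑ t ∈ S, inner ℂ (Φ (h⁻¹ * t) ξ) (Y (Φ t ξ'))) -
        (∑ s ∈ S, (inner ℂ (Φ s ξ) (Y (Φ s (B h⁻¹ ξ'))) : ℂ) -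
          ∑ s ∈ S, inner ℂ (Φ s ξ) (Y (Φ (h * s) ξ'))) := by
    rw [hmid]
    ring
  rw [e]
  refine (norm_sub_le _ _).trans ((add_le_add hA hB).trans (le_of_eq ?_))
  ring

section lin89

variable (J : H →L[ℂ] W) (Y : W →L[ℂ] W) (B : G →* (H ≃ₗᵢ[ℂ] H)) (m : G → (H →L[ℂ] H))
  (S : Finset G)

theorem qg_sub_left (ξ₁ ξ₂ ξ' : H) :
    qg J Y B m S (ξ₁ - ξ₂) ξ' = qg J Y B m S ξ₁ ξ' - qg J Y B m S ξ₂ ξ' := by
  have h := qg_add_left J Y B m S (ξ₁ - ξ₂) ξ₂ ξ'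
  rw [sub_add_cancel] at h
  rw [h]
  ring

theorem qg_sub_right (ξ ξ₁ ξ₂ : H) :
    qg J Y B m S ξ (ξ₁ - ξ₂) = qg J Y B m S ξ ξ₁ - qg J Y B m S ξ ξ₂ := by
  have h := qg_add_right J Y B m S ξ (ξ₁ - ξ₂) ξ₂
  rw [sub_add_cancel] at h
  rw [h]
  ring

theorem qg_sum_left (F : Finset G) (c : G → ℂ) (v : G → H) (ξ' : H) :
    qg J Y B m S (∑ g ∈ F, c g • v g) ξ' = ∑ g ∈ F, (starRingEnd ℂ (c g)) * qg J Y B m S (v g) ξ' := by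
  classical
  induction F using Finset.induction_on with
  | empty =>
    rw [Finset.sum_empty, Finset.sum_empty]
    have := qg_smul_left J Y B m S 0 (0 : H) ξ'
    rwa [zero_smul, map_zero, zero_mul] at this
  | insert a F ha ih =>
    rw [Finset.sum_insert ha, Finset.sum_insert ha, qg_add_left J Y B m S, qg_smul_left, ih]

theorem qg_sum_right (F : Finset G) (c : G → ℂ) (v : G → H) (ξ : H) :
    qg J Y B m S ξ (∑ g ∈ F, c g • v g) = ∑ g ∈ F, c g * qg J Y B m S ξ (v g) := by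
  classical
  induction F using Finset.induction_on with
  | empty =>
    rw [Finset.sum_empty, Finset.sum_empty]
    have := qg_smul_right J Y B m S 0 ξ (0 : H)
    rwa [zero_smul, zero_mul] at this
  | insert a F ha ih =>
    rw [Finset.sum_insert ha, Finset.sum_insert ha, qg_add_right J Y B m S, qg_smul_right, ih]

end lin89

theorem qg_main [CompleteSpace H] {B : G →* (H ≃ₗᵢ[ℂ] H)} {E : Emb Λ G} {η : H} {c : ℝ}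
    (hB : Bdd B c η) (l : Λ) {ε₁ : ℝ} (hε₁ : 0 < ε₁) :
    ∃ (Q : Finset G) (ε : ℝ), 0 < ε ∧ ∀ (S : Finset G) (m : G → (H →L[ℂ] H)),
      (∀ t, t ∉ S → m t = 0) → (∀ x, ∑ t ∈ S, ‖m t x‖ ^ 2 = ‖x‖ ^ 2) →
      (∀ h ∈ Q, ∀ x, ∀ S' : Finset G,
        ∑ t ∈ S', ‖m t (B h x) - B h (m (h⁻¹ * t) x)‖ ^ 2 ≤ ε ^ 2 * ‖x‖ ^ 2) →
      ∀ (J : H →L[ℂ] W) (Y : W →L[ℂ] W), (∀ x, ‖J x‖ ≤ ‖x‖) → (∀ w, ‖Y w‖ ≤ ‖w‖) →
        ‖qg J Y B m S (ext B E l η) (ext B E l η) - qg J Y B m S η η‖ ≤ ε₁ := by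
  classical
  have hc0 : 0 ≤ c := hB.1
  set θ := ext B E l η with hθ
  have hnθ : ‖θ‖ = ‖η‖ := norm_ext E l hB.mem_VB
  have hBθ : Bdd B c θ := ext_bdd E l hB
  let d : G → ℂ := fun g => cf (E.U l) g
  have hs1 : HasSum (fun g => d g • B g η) θ := hasSum_ext E l hB
  have hηθ : ext B E l⁻¹ θ = η := by
    rw [hθ, ← ext_mul, inv_mul_cancel, ext_one_apply E hB.mem_VB]
  have hs2 : HasSum (fun g => (starRingEnd ℂ (d g)) • B g⁻¹ θ) η := by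
    have h1 := hasSum_ext E l⁻¹ hBθ
    rw [hηθ] at h1
    have h2 := (Equiv.hasSum_iff (Equiv.inv G)).2 h1
    have h5 : (fun g => (starRingEnd ℂ (d g)) • B g⁻¹ θ) =
        (fun g => cf (E.U l⁻¹) g • B g θ) ∘ (Equiv.inv G) := by
      funext g
      simp only [Function.comp_apply, Equiv.inv_apply]
      have h4 := f2_cf_inv (E.comm l) g
      rw [← map_inv] at h4
      rw [h4]
    rw [h5]
    exact h2
  -- the finite set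
  set δ : ℝ := ε₁ / (4 * (‖η‖ + 1)) with hδ
  have hη0 := norm_nonneg η
  have hδ0 : 0 < δ := by positivity
  obtain ⟨F, hF⟩ := summable_iff_vanishing_norm.1 (summable_sq (cf (E.U l))) ((δ / (c + 1)) ^ 2)
    (by positivity)
  have hF' : ∀ t : Finset G, Disjoint t F → ∑ g ∈ t, c ^ 2 * ‖d g‖ ^ 2 ≤ δ ^ 2 := by
    intro t ht
    have h1 := hF t ht
    rw [Real.norm_of_nonneg (Finset.sum_nonneg fun g _ => by positivity)] at h1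
    rw [← Finset.mul_sum]
    have h2 : c ^ 2 * (δ / (c + 1)) ^ 2 ≤ δ ^ 2 := by
      have h3 : c * (δ / (c + 1)) ≤ δ := by
        rw [mul_div_assoc', div_le_iff₀ (by positivity)]
        nlinarith
      have h4 : 0 ≤ c * (δ / (c + 1)) := by positivity
      calc c ^ 2 * (δ / (c + 1)) ^ 2 = (c * (δ / (c + 1))) ^ 2 := by ring
        _ ≤ δ ^ 2 := pow_le_pow_left₀ h4 h3 2
    exact (mul_le_mul_of_nonneg_left h1.le (sq_nonneg c)).trans h2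
  have hsq : ∀ (s : Finset G) (a : G → ℂ), c * Real.sqrt (∑ g ∈ s, ‖a g‖ ^ 2) =
      Real.sqrt (∑ g ∈ s, c ^ 2 * ‖a g‖ ^ 2) := by
    intro s a
    rw [← Finset.mul_sum, Real.sqrt_mul (sq_nonneg c), Real.sqrt_sq hc0]
  have hP : ‖θ - ∑ g ∈ F, d g • B g η‖ ≤ δ := by
    refine f2_tail hs1 hδ0.le (w := fun g => c ^ 2 * ‖d g‖ ^ 2) (fun s => ?_) hF'
    have := hB.norm_le s d
    rwa [hsq] at this
  have hP' : ‖η - ∑ g ∈ F, (starRingEnd ℂ (d g)) • B g⁻¹ θ‖ ≤ δ := by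
    refine f2_tail hs2 hδ0.le (w := fun g => c ^ 2 * ‖d g‖ ^ 2) (fun s => ?_) hF'
    have h1 := hBθ.norm_le (s.map (Equiv.inv G).toEmbedding) (fun g => starRingEnd ℂ (d g⁻¹))
    rw [hsq, Finset.sum_map, Finset.sum_map] at h1
    simpa only [Equiv.coe_toEmbedding, Equiv.inv_apply, inv_inv, RCLike.norm_conj] using h1
  set σ : ℝ := ∑ g ∈ F, ‖d g‖ with hσ
  have hσ0 : 0 ≤ σ := Finset.sum_nonneg fun g _ => norm_nonneg _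
  set ε : ℝ := ε₁ / (4 * (‖η‖ ^ 2 + 1) * (σ + 1)) with hε
  have hε0 : 0 < ε := by positivity
  refine ⟨F ∪ F.image (fun g => g⁻¹), ε, hε0, fun S m h0 hM hQ J Y hJ hY => ?_⟩
  set q : H → H → ℂ := fun x y => qg J Y B m S x y with hq
  have hmove : ∀ g ∈ F, ‖q (B g η) θ - q η (B g⁻¹ θ)‖ ≤ 2 * ε * ‖η‖ * ‖θ‖ := by
    intro g hg
    refine qg_move hJ hY h0 hM hε0 (hQ g (Finset.mem_union_left _ hg)) (fun x S' => ?_) η θ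
    have h1 := hQ g⁻¹ (Finset.mem_union_right _ (Finset.mem_image_of_mem _ hg)) x S'
    rwa [inv_inv] at h1
  set P := ∑ g ∈ F, d g • B g η with hPdef
  set P' := ∑ g ∈ F, (starRingEnd ℂ (d g)) • B g⁻¹ θ with hP'def
  have e1 : q θ θ - q η η = q (θ - P) θ + (q P θ - q η P') - q η (η - P') := by
    simp only [hq]
    rw [qg_sub_left J Y B m S, qg_sub_right J Y B m S]
    ring
  have b1 : ‖q (θ - P) θ‖ ≤ δ * ‖η‖ := by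
    refine (qg_bound hJ hY B hM _ _).trans ?_
    rw [hnθ]
    exact mul_le_mul_of_nonneg_right hP hη0
  have b3 : ‖q η (η - P')‖ ≤ ‖η‖ * δ :=
    (qg_bound hJ hY B hM _ _).trans (mul_le_mul_of_nonneg_left hP' hη0)
  have b2 : ‖q P θ - q η P'‖ ≤ σ * (2 * ε * ‖η‖ * ‖η‖) := by
    have e2 : q P θ - q η P' = ∑ g ∈ F, (starRingEnd ℂ (d g)) * (q (B g η) θ - q η (B g⁻¹ θ)) := by
      simp only [hq, hPdef, hP'def]
      rw [qg_sum_left J Y B m S, qg_sum_right J Y B m S, ← Finset.sum_sub_distrib]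
      exact Finset.sum_congr rfl fun g _ => by ring
    rw [e2, hσ, Finset.sum_mul]
    refine (norm_sum_le _ _).trans (Finset.sum_le_sum fun g hg => ?_)
    rw [norm_mul, RCLike.norm_conj]
    refine mul_le_mul_of_nonneg_left ?_ (norm_nonneg _)
    have := hmove g hg
    rwa [hnθ] at this
  have hδη : 2 * (δ * ‖η‖) ≤ ε₁ / 2 := by
    have h1 : δ * (4 * (‖η‖ + 1)) = ε₁ := by
      rw [hδ]
      field_simp
    nlinarith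
  have hεη : σ * (2 * ε * ‖η‖ * ‖η‖) ≤ ε₁ / 2 := by
    have h1 : ε * (4 * (‖η‖ ^ 2 + 1) * (σ + 1)) = ε₁ := by
      rw [hε]
      field_simp
    have h2 : σ * (2 * ε * ‖η‖ * ‖η‖) = 2 * ε * (σ * ‖η‖ ^ 2) := by ring
    have h3 : σ * ‖η‖ ^ 2 ≤ (‖η‖ ^ 2 + 1) * (σ + 1) := by nlinarith [sq_nonneg ‖η‖]
    have h4 : 2 * ε * (σ * ‖η‖ ^ 2) ≤ 2 * ε * ((‖η‖ ^ 2 + 1) * (σ + 1)) :=
      mul_le_mul_of_nonneg_left h3 (by positivity)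
    rw [h2]
    linarith
  calc ‖q θ θ - q η η‖ = ‖q (θ - P) θ + (q P θ - q η P') - q η (η - P')‖ := by rw [e1]
    _ ≤ ‖q (θ - P) θ‖ + ‖q P θ - q η P'‖ + ‖q η (η - P')‖ :=
        (norm_sub_le _ _).trans (add_le_add (norm_add_le _ _) le_rfl)
    _ ≤ δ * ‖η‖ + σ * (2 * ε * ‖η‖ * ‖η‖) + ‖η‖ * δ := add_le_add (add_le_add b1 b2) b3
    _ ≤ ε₁ := by linarith

end Pool.Agent.Helper84.FR
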