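import Pool.Agent.Helper84.FR.PV

/-!
# Project FR, block HM: the Mautner phenomenon for representations by contractions

PROOF (compare `Pool/Agent/Helper96/FR/Maut.lean`, theorem `mautner_closure`). `σ 1 η = η`: `σ h η → η` along `𝓝 1`, which contains `1`. Let `K1 = {ξ : σ 1 ξ = ξ}`; for `ξ ∈ K1`, `‖σ h ξ‖ = ‖ξ‖` (`ξ = σ h⁻¹ (σ h ξ)`, contractions), and `σ h ξ ∈ K1`.
`σ (a0^m) η = η` for all `m ∈ ℤ`. If `a0⁻ᵐ u a0ᵐ → 1`: `‖σ u η - η‖ = ‖σ (a0⁻ᵐ) (σ u (σ (a0ᵐ) η) - η)‖ = ‖σ (a0⁻ᵐ u a0ᵐ) η - η‖ → 0`. The stabiliser of `η` is a subgroup (`σ g⁻¹ η = σ g⁻¹ (σ g η) = σ 1 η = η`), so it contains the closure of `S`.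
-/

set_option autoImplicit false

open Filter Topology MeasureTheory

namespace Pool.Agent.Helper84.FR

open NI GVN

variable {C : Type} [Group C] [TopologicalSpace C] [IsTopologicalGroup C]
variable {K : Type} [NormedAddCommGroup K] [InnerProductSpace ℂ K]

omit [TopologicalSpace C] [IsTopologicalGroup C] in
private lemma norm_h12 {σ : CRep C K} {ξ : K} (h1 : σ.U 1 ξ = ξ) (h : C) : ‖σ.U h ξ‖ = ‖ξ‖ := by
  apply le_antisymm (σ.norm_le h ξ)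
  have e : σ.U h⁻¹ (σ.U h ξ) = ξ := by rw [← σ.mul, inv_mul_cancel, h1]
  calc ‖ξ‖ = ‖σ.U h⁻¹ (σ.U h ξ)‖ := by rw [e]
    _ ≤ ‖σ.U h ξ‖ := σ.norm_le _ _

omit [TopologicalSpace C] [IsTopologicalGroup C] in
private lemma fix_inv_h12 {σ : CRep C K} {η : K} (h1 : σ.U 1 η = η) {g : C} (hg : σ.U g η = η) :
    σ.U g⁻¹ η = η := by
  have e : σ.U g⁻¹ (σ.U g η) = η := by rw [← σ.mul, inv_mul_cancel, h1]
  rwa [hg] at e

omit [TopologicalSpace C] [IsTopologicalGroup C] in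
private lemma fix_pow_h12 {σ : CRep C K} {η : K} (h1 : σ.U 1 η = η) {g : C} (hg : σ.U g η = η)
    (m : ℕ) : σ.U (g ^ m) η = η := by
  induction m with
  | zero => rw [pow_zero, h1]
  | succ m ih => rw [pow_succ, σ.mul, hg, ih]

omit [IsTopologicalGroup C] in
private lemma mautner_h12 {σ : CRep C K} {η : K}
    (hη : Tendsto (fun h : C => σ.U h η) (𝓝 1) (𝓝 η)) (h1 : σ.U 1 η = η) {a u : C}
    (ha : σ.U a η = η) (hau : Tendsto (fun m : ℕ => (a ^ m)⁻¹ * u * a ^ m) atTop (𝓝 1)) :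
    σ.U u η = η := by
  have h2 : Tendsto (fun m : ℕ => σ.U ((a ^ m)⁻¹ * u * a ^ m) η) atTop (𝓝 η) := hη.comp hau
  have h3 : ∀ m : ℕ, ‖σ.U ((a ^ m)⁻¹ * u * a ^ m) η - η‖ = ‖σ.U u η - η‖ := by
    intro m
    have e1 : σ.U ((a ^ m)⁻¹ * u * a ^ m) η = σ.U (a ^ m)⁻¹ (σ.U u η) := by
      rw [σ.mul, σ.mul, fix_pow_h12 h1 ha m]
    have e2 : σ.U (a ^ m)⁻¹ η = η := fix_inv_h12 h1 (fix_pow_h12 h1 ha m)
    have e3 : σ.U 1 (σ.U u η - η) = σ.U u η - η := by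
      rw [map_sub, ← σ.mul, one_mul, h1]
    calc ‖σ.U ((a ^ m)⁻¹ * u * a ^ m) η - η‖ = ‖σ.U (a ^ m)⁻¹ (σ.U u η - η)‖ := by
          rw [map_sub, e1, e2]
      _ = ‖σ.U u η - η‖ := norm_h12 e3 _
  have h4 : Tendsto (fun m : ℕ => ‖σ.U ((a ^ m)⁻¹ * u * a ^ m) η - η‖) atTop (𝓝 0) := by
    have h5 := (h2.sub_const η).norm
    rwa [sub_self, norm_zero] at h5
  have h6 : Tendsto (fun _ : ℕ => ‖σ.U u η - η‖) atTop (𝓝 0) := h4.congr h3
  have h7 := tendsto_nhds_unique tendsto_const_nhds h6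
  exact sub_eq_zero.1 (norm_eq_zero.1 h7)

/-- **Mautner phenomenon** for representations by contractions (compare `Pool/Agent/Helper96/FR/Maut.lean`). -/
theorem mautnerX {σ : CRep C K} {η : K} (hη : Tendsto (fun h : C => σ.U h η) (𝓝 1) (𝓝 η)) {a0 : C}
    (ha : σ.U a0 η = η) {S : Set C} (hS : ∀ u ∈ S, Tendsto (fun m : ℕ => (a0 ^ m)⁻¹ * u * a0 ^ m) atTop (𝓝 1) ∨
      Tendsto (fun m : ℕ => a0 ^ m * u * (a0 ^ m)⁻¹) atTop (𝓝 1)) :
    ∀ g ∈ Subgroup.closure S, σ.U g η = η := by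
  have h1 : σ.U 1 η = η :=
    tendsto_nhds_unique (tendsto_pure_nhds (fun h : C => σ.U h η) 1)
      (hη.mono_left (pure_le_nhds 1))
  intro g hg
  induction hg using Subgroup.closure_induction with
  | mem u hu =>
    rcases hS u hu with h | h
    · exact mautner_h12 hη h1 ha h
    · refine mautner_h12 (a := a0⁻¹) hη h1 (fix_inv_h12 h1 ha) ?_
      refine h.congr fun m => ?_
      rw [inv_pow, inv_inv]
  | one => exact h1
  | mul x y _ _ hx hy => rw [σ.mul, hy, hx]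
  | inv x _ hx => exact fix_inv_h12 h1 hx

end Pool.Agent.Helper84.FR
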