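import Pool.Agent.Helper84.FR.HB
import Pool.Agent.Helper84.NI.HU

/-!
# Project FR, block HX: a fixed vector from the convex hull (adapt `NI/HU.lean`)

Uses only the statements of HB, SG, TW, PVL. PROOF.
Notation: `L v = opL M a (ext A E) v`, `R v = opR M a (ext B E.conj) v`, `σ v = sgm .. v = L v ∘ R v`, `L0`, `R0` the same over `M0`; `z = (VB A).starProjection`, `η0 = z (TL ζ)`.
`z` commutes with `B g`, `M` (`map_starProjection` with `T = B g`, `M.S h`, `M.px.p D`, `M.py.p D`), hence with `R v` (`opR_nat`); `ext A E l` commutes with `B g` and `M` (`map_ext`), hence with `R v`; `L v`, `R v`, `TL`, `TR` as in `HU.lean` (`opL_nat`, `opR_nat`, `map_ext`).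
(1) `inner_sgm`: for all `v`: `⟪σ v η0, TR ζ⟫ = ⟪R v η0, L v⁻¹ (TR ζ)⟫` (`opL_adj`), `R v η0 = z (TL (R0 v ζ)) = z (TL ζ_v)`, `L v⁻¹ (TR ζ) = TR ζ_v`, `ζ_v = L0 v⁻¹ ζ = R0 v ζ` (`hcen`), and `z (TR ζ_v) = TR ζ_v`
(`TR ζ_v ∈ VB A`: `opL` maps `VB A0` to itself, it is the limit of sums of `S h (px.p D (ext A0 E l ζ))` and `VB A0` is closed and invariant, `map_VB`; or: `L0 1 ζ_v = ζ_v` as `L0` is multiplicative and `L0 1 = ext A0 E 1` is the projection on `VB A0`). So it is `⟪TL ζ_v, TR ζ_v⟫`.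
(2) `BddX M ν B (σ v η0)`: `bddX_opR`, `bddX_opL` (block HB); `BddX M ν B η0`: `py.p D (z (TL ζ)) = z (TL (py.p D ζ))` and `Bdd.map`. `{ξ | BddX M ν B ξ}` is closed (`hu_closed` in `HU.lean`) and convex.
(3) continuity: let `D = {x | a h (h⁻¹ x) = 1}`, `D' = {x | a h x = 1} = h⁻¹ D`. `px.p D (σ h η0) = px.p D (η0)`: `px.p D (L h ξ) = S h (px.p D' (ext A E 1 ξ))` (`tw_const`), `σ h η0 = L h (R h η0) = L h (z (TL (L0 h⁻¹ ζ)))`, and `px.p D' (L0 h⁻¹ ζ) = px.p D' (S h⁻¹ ζ)` as `a h⁻¹ (h x) = 1` for `x ∈ D'`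
(use `opL = S ∘ tw` or `tw_shift`), `z`, `TL` commute with `px` and `S`. `‖px.p Dᶜ (σ h η0)‖ ≤ ‖px.p D'ᶜ ζ‖`: `px.p Dᶜ (L h ξ) = L h (px.p D'ᶜ ξ)`, contractions commuting with `px`. So `‖σ h η0 - η0‖ ≤ ‖px.p D'ᶜ ζ‖ + ‖px.p Dᶜ ζ‖ ≤ 2 √(ν D'ᶜ)` by `hν` and invariance of `ν`.
For `v ∈ V`: `σ h (σ v η0) = σ v (σ (v⁻¹ h v) η0)` and `v⁻¹ h v → 1`. The set of `ξ` with `σ h ξ → ξ` is a closed subspace (contractions).
(4) closed convex hull of `{σ v η0 : v ∈ V}`, the element of least norm as in `HU.lean` (`hu_fix` is private there: copy it); all its elements satisfy the closed convex conditions `BddX`, `c1 ≤ Re ⟪ξ, TR ζ⟫` and continuity.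
-/

set_option autoImplicit false

open Filter Topology MeasureTheory

namespace Pool.Agent.Helper84.FR

open NI GVN

/-- Contractions preserving a closed convex set of a Hilbert space fix its point of least norm. -/
private theorem hx_fix {F : Type} [NormedAddCommGroup F] [InnerProductSpace ℝ F] [CompleteSpace F]
    {ι : Type} (T : ι → F → F) (C : Set F) (hne : C.Nonempty) (hcl : IsClosed C)
    (hconv : Convex ℝ C) (hT : ∀ i, ∀ x ∈ C, T i x ∈ C) (hn : ∀ i x, ‖T i x‖ ≤ ‖x‖) :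
    ∃ η ∈ C, ∀ i, T i η = η := by
  obtain ⟨η, hη, hmin⟩ := exists_norm_eq_iInf_of_complete_convex hne hcl.isComplete hconv 0
  have hle : ∀ w ∈ C, ‖η‖ ≤ ‖w‖ := by
    intro w hw
    have h1 : (⨅ w : C, ‖(0 : F) - w‖) ≤ ‖(0 : F) - (⟨w, hw⟩ : C)‖ :=
      ciInf_le ⟨0, Set.forall_mem_range.2 fun _ => norm_nonneg _⟩ (⟨w, hw⟩ : C)
    rw [← hmin, zero_sub, zero_sub, norm_neg, norm_neg] at h1
    exact h1
  refine ⟨η, hη, fun i => ?_⟩
  have hw := hT i η hη
  have h1 : ‖T i η‖ = ‖η‖ := le_antisymm (hn i η) (hle _ hw)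
  generalize T i η = w at hw h1
  have h2 := hle _ (hconv hw hη (a := 1 / 2) (b := 1 / 2) (by norm_num) (by norm_num)
    (by norm_num))
  have h3 : ‖(1 / 2 : ℝ) • w + (1 / 2 : ℝ) • η‖ = (1 / 2) * ‖w + η‖ := by
    rw [← smul_add, norm_smul, Real.norm_of_nonneg (by norm_num)]
  rw [h3] at h2
  have h4 := parallelogram_law_with_norm ℝ w η
  rw [h1] at h4
  have h5 : ‖w - η‖ ^ 2 ≤ 0 := by
    nlinarith [norm_nonneg η, norm_nonneg (w + η)]
  have h6 : ‖w - η‖ = 0 := by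
    have := le_antisymm h5 (by positivity)
    exact pow_eq_zero_iff two_ne_zero |>.1 this
  exact sub_eq_zero.1 (norm_eq_zero.1 h6)

/-- The set of vectors bounded with a given constant is closed. -/
private theorem hx_closed {G K : Type} [Group G] [NormedAddCommGroup K] [InnerProductSpace ℂ K]
    (B' : G →* (K ≃ₗᵢ[ℂ] K)) {c : ℝ} (hc : 0 ≤ c) : IsClosed {ξ : K | Bdd B' c ξ} := by
  have h : {ξ : K | Bdd B' c ξ} = ⋂ (s : Finset G) (a : G → ℂ),
      {ξ : K | ‖∑ g ∈ s, a g • B' g ξ‖ ^ 2 ≤ c ^ 2 * ∑ g ∈ s, ‖a g‖ ^ 2} := by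
    ext ξ
    simp only [Set.mem_setOf_eq, Set.mem_iInter, Bdd]
    exact ⟨fun h => h.2, fun h => ⟨hc, h⟩⟩
  rw [h]
  refine isClosed_iInter fun s => isClosed_iInter fun a => ?_
  refine isClosed_le (Continuous.pow (Continuous.norm ?_) 2) continuous_const
  exact continuous_finset_sum s fun g _ => ((B' g).continuous).const_smul _

/-- The vectors on which a family of contractions is continuous form a closed set. -/
private theorem hx_tclosed {α K : Type} [NormedAddCommGroup K] [NormedSpace ℂ K] (l : Filter α)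
    (σ : α → (K →L[ℂ] K)) (hσ : ∀ i x, ‖σ i x‖ ≤ ‖x‖) :
    IsClosed {ξ : K | Tendsto (fun i => σ i ξ) l (𝓝 ξ)} := by
  refine isClosed_of_closure_subset fun ξ hξ => ?_
  rw [Set.mem_setOf_eq, Metric.tendsto_nhds]
  intro ε hε
  obtain ⟨ξ', hξ', hd⟩ := Metric.mem_closure_iff.1 hξ (ε / 3) (by positivity)
  have h1 : Tendsto (fun i => σ i ξ') l (𝓝 ξ') := hξ'
  rw [Metric.tendsto_nhds] at h1
  filter_upwards [h1 (ε / 3) (by positivity)] with i hi
  rw [dist_eq_norm] at hd hi ⊢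
  have e : σ i ξ - ξ = σ i (ξ - ξ') + (σ i ξ' - ξ') - (ξ - ξ') := by
    rw [map_sub]
    abel
  rw [e]
  have h2 := norm_sub_le (σ i (ξ - ξ') + (σ i ξ' - ξ')) (ξ - ξ')
  have h3 := norm_add_le (σ i (ξ - ξ')) (σ i ξ' - ξ')
  have h4 := hσ i (ξ - ξ')
  linarith

variable {C X Λ G : Type} [Group C] [TopologicalSpace C] [IsTopologicalGroup C] [MulAction C X]
  [MeasurableSpace X] [MeasurableConstSMul C X] [Group Λ] [Countable Λ] [Group G]
variable {H K : Type} [NormedAddCommGroup H] [InnerProductSpace ℂ H] [CompleteSpace H]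
  [NormedAddCommGroup K] [InnerProductSpace ℂ K] [CompleteSpace K]

omit [TopologicalSpace C] [IsTopologicalGroup C] [MeasurableConstSMul C X] [Countable Λ] in
private theorem hx_S_inv (M : XM C X K) (h : C) (ξ : K) : M.S h (M.S h⁻¹ ξ) = ξ := by
  have e : M.S h (M.S h⁻¹ ξ) = (M.S h * M.S h⁻¹) ξ := rfl
  rw [e, ← map_mul, mul_inv_cancel, map_one]
  rfl

omit [TopologicalSpace C] [IsTopologicalGroup C] [MeasurableConstSMul C X] in
private theorem hx_zhom {M : XM C X K} {A B : G →* (K ≃ₗᵢ[ℂ] K)} (h1 : MRep M A B) :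
    M.Hom M (VB A).starProjection where
  S h ξ := (map_starProjection (T := ((M.S h).toContinuousLinearEquiv : K →L[ℂ] K)) (A := A) (A' := A)
    (fun g x => ((h1.hA g).S h x).symm) ξ).symm
  x D hD ξ := (map_starProjection (T := M.px.p D) (A := A) (A' := A)
    (fun g x => ((h1.hA g).x D hD x).symm) ξ).symm
  y D hD ξ := (map_starProjection (T := M.py.p D) (A := A) (A' := A)
    (fun g x => ((h1.hA g).y D hD x).symm) ξ).symm

omit [TopologicalSpace C] [IsTopologicalGroup C] in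
/-- `opL` on the set where the cocycle is trivial. -/
private theorem hx_const (a : Cocy C X Λ) {M : XM C X K} {U : CRep Λ K} (hU : UHom M U) (h : C) (ξ : K) :
    opL M a U h (M.px.p {x | a.a h x = 1} ξ) = M.S h (M.px.p {x | a.a h x = 1} (U.U 1 ξ)) := by
  have hm : MeasurableSet {x | a.a h x = 1} := a.meas h 1
  have e : opL M a U h (M.px.p {x | a.a h x = 1} ξ) =
      M.S h (tw M.px U (a.a h) (M.px.p {x | a.a h x = 1} ξ)) := rfl
  rw [e, ← tw_p M.px U hU.px (a.meas h) hm, tw_const M.px U hU.px (a.meas h) hm (l := 1) (fun x hx => hx)]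

omit [TopologicalSpace C] [IsTopologicalGroup C] in
/-- The orbit map is close to the identity. -/
private theorem hx_near (a : Cocy C X Λ) (E : Emb Λ G) {M0 : XM C X H} {A0 B0 : G →* (H ≃ₗᵢ[ℂ] H)}
    (h0 : MRep M0 A0 B0) {M : XM C X K} {A B : G →* (K ≃ₗᵢ[ℂ] K)} (h1 : MRep M A B)
    {T : H →L[ℂ] K} (hT : M0.Hom M T) (hTn : ∀ x, ‖T x‖ ≤ ‖x‖)
    {ν : Measure X} [IsFiniteMeasure ν] [SMulInvariantMeasure C X ν] {ζ : H} (hA : ζ ∈ VB A0)
    (hTA : T ζ ∈ VB A)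
    (hR : ∀ v : C, opR M a (CRep.ext B E.conj) v (T ζ) = T (opL M0 a (CRep.ext A0 E) v⁻¹ ζ))
    (hν : ∀ D : Set X, MeasurableSet D → ‖M0.px.p D ζ‖ ^ 2 ≤ (ν D).toReal) (h : C) :
    ‖sgm M a (CRep.ext A E) (CRep.ext B E.conj) h (T ζ) - T ζ‖ ≤
      2 * Real.sqrt (ν {x | a.a h x ≠ 1}).toReal := by
  have hU : UHom M (CRep.ext A E) := uhom_ext E h1.hA
  have hU' : UHom M (CRep.ext B E.conj) := uhom_ext E.conj h1.hB
  have hU0 : UHom M0 (CRep.ext A0 E) := uhom_ext E h0.hA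
  set D' : Set X := {x | a.a h x = 1} with hD'
  have hD'm : MeasurableSet D' := a.meas h 1
  set D : Set X := (fun x => h⁻¹ • x) ⁻¹' D' with hD
  have hDm : MeasurableSet D := (measurable_const_smul h⁻¹) hD'm
  have hDD : (fun x => (h⁻¹)⁻¹ • x) ⁻¹' D = D' := by
    ext x
    simp only [hD, hD', Set.mem_preimage, Set.mem_setOf_eq, inv_inv, inv_smul_smul]
  have hDinv : D = {x | a.a h⁻¹ x = 1} := by
    ext x
    simp only [hD, hD', Set.mem_preimage, Set.mem_setOf_eq]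
    rw [← a.a_inv h x, inv_eq_one]
  have hDc : (fun x => h⁻¹ • x) ⁻¹' D'ᶜ = Dᶜ := rfl
  have e0 : ext A0 E 1 ζ = ζ := ext_one_apply E hA
  have e1 : ext A E 1 (T ζ) = T ζ := ext_one_apply E hTA
  -- the left operator at the source
  have k1 : M0.px.p D' (opL M0 a (CRep.ext A0 E) h⁻¹ ζ) = M0.S h⁻¹ (M0.px.p D ζ) := by
    have h2 := opL_px M0 a hU0 h⁻¹ hDm ζ
    rw [hDD] at h2
    rw [← h2, hDinv, hx_const a hU0 h⁻¹ ζ]
    have e : (CRep.ext A0 E).U 1 ζ = ζ := e0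
    rw [e]
  have k2 : M.px.p D' (opR M a (CRep.ext B E.conj) h (T ζ)) = M.S h⁻¹ (M.px.p D (T ζ)) := by
    rw [hR, ← hT.x D' hD'm, k1, hT.S, hT.x D hDm]
  have k3 : M.px.p D (sgm M a (CRep.ext A E) (CRep.ext B E.conj) h (T ζ)) = M.px.p D (T ζ) := by
    have h2 := opL_px M a hU h hD'm (opR M a (CRep.ext B E.conj) h (T ζ))
    have e : sgm M a (CRep.ext A E) (CRep.ext B E.conj) h (T ζ) =
        opL M a (CRep.ext A E) h (opR M a (CRep.ext B E.conj) h (T ζ)) := rfl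
    rw [e, ← h2, k2]
    have h3 := M.Sx h⁻¹ D hDm (T ζ)
    rw [hDD] at h3
    rw [h3, hx_const a hU h]
    have e2 : (CRep.ext A E).U 1 (M.S h⁻¹ (T ζ)) = M.S h⁻¹ (T ζ) := by
      have h4 := (hU 1).S h⁻¹ (T ζ)
      rw [h4]
      have e3 : (CRep.ext A E).U 1 (T ζ) = T ζ := e1
      rw [e3]
    rw [e2, ← h3, hx_S_inv]
  have k4 : M.px.p Dᶜ (sgm M a (CRep.ext A E) (CRep.ext B E.conj) h (T ζ)) =
      opL M a (CRep.ext A E) h (opR M a (CRep.ext B E.conj) h (M.px.p D'ᶜ (T ζ))) := by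
    rw [opR_px M a hU' h hD'm.compl, opL_px M a hU h hD'm.compl, hDc]
    rfl
  have hs : ∀ S : Set X, MeasurableSet S → ‖M.px.p S (T ζ)‖ ≤ Real.sqrt (ν S).toReal := by
    intro S hS
    rw [← hT.x S hS]
    exact (hTn _).trans (Real.le_sqrt_of_sq_le (hν S hS))
  have hνD : ν Dᶜ = ν D'ᶜ := by
    rw [← hDc]
    exact measure_preimage_smul ν h⁻¹ D'ᶜ
  have n1 : ‖M.px.p Dᶜ (sgm M a (CRep.ext A E) (CRep.ext B E.conj) h (T ζ))‖ ≤
      Real.sqrt (ν D'ᶜ).toReal := by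
    rw [k4]
    exact (norm_opL_le M a hU h _).trans ((norm_opR_le M a hU' h _).trans (hs _ hD'm.compl))
  have n2 : ‖M.px.p Dᶜ (T ζ)‖ ≤ Real.sqrt (ν D'ᶜ).toReal := by
    rw [← hνD]
    exact hs _ hDm.compl
  have hset : {x | a.a h x ≠ 1} = D'ᶜ := rfl
  rw [hset]
  have k5 := M.px.p_compl hDm (sgm M a (CRep.ext A E) (CRep.ext B E.conj) h (T ζ) - T ζ)
  rw [map_sub, map_sub, k3, sub_self, zero_add] at k5
  rw [← k5]
  refine (norm_sub_le _ _).trans ?_
  linarith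

theorem hullX (a : Cocy C X Λ) (E : Emb Λ G) {M0 : XM C X H} {A0 B0 : G →* (H ≃ₗᵢ[ℂ] H)}
    (h0 : MRep M0 A0 B0) {M : XM C X K} {A B : G →* (K ≃ₗᵢ[ℂ] K)} (h1 : MRep M A B)
    (TL TR : H →ₗᵢ[ℂ] K) (hR : ∀ g x, TR (A0 g x) = A g (TR x)) (hL : ∀ g x, TL (B0 g x) = B g (TL x))
    (hRM : M0.Hom M TR.toContinuousLinearMap) (hLM : M0.Hom M TL.toContinuousLinearMap)
    {ν : Measure X} [IsFiniteMeasure ν] [SMulInvariantMeasure C X ν]
    {ζ : H} (hA : ζ ∈ VB A0) (hB : BddX M0 ν B0 ζ)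
    (hcen : ∀ v : C, opL M0 a (CRep.ext A0 E) v⁻¹ ζ = opR M0 a (CRep.ext B0 E.conj) v ζ)
    (hν : ∀ D : Set X, MeasurableSet D → ‖M0.px.p D ζ‖ ^ 2 ≤ (ν D).toReal)
    (h3 : Tendsto (fun h : C => ν {x | a.a h x ≠ 1}) (𝓝 1) (𝓝 0))
    (V : Subgroup C) {c1 : ℝ} (hc1 : 0 < c1)
    (hlow : ∀ v ∈ V, c1 ≤ (inner ℂ (TL (opL M0 a (CRep.ext A0 E) v ζ))
      (TR (opL M0 a (CRep.ext A0 E) v ζ))).re) :
    ∃ η : K, BddX M ν B η ∧ c1 ≤ (inner ℂ η (TR ζ)).re ∧
      (∀ v ∈ V, sgm M a (CRep.ext A E) (CRep.ext B E.conj) v η = η) ∧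
      Tendsto (fun h : C => sgm M a (CRep.ext A E) (CRep.ext B E.conj) h η) (𝓝 1) (𝓝 η) := by
  let U : CRep Λ K := CRep.ext A E
  let U' : CRep Λ K := CRep.ext B E.conj
  have hU : UHom M U := uhom_ext E h1.hA
  have hU' : UHom M U' := uhom_ext E.conj h1.hB
  have hc : UCom U U' := ucom_ext h1.comm2 E E.conj
  have hU0 : UHom M0 (CRep.ext A0 E) := uhom_ext E h0.hA
  have hU0' : UHom M0 (CRep.ext B0 E.conj) := uhom_ext E.conj h0.hB
  let z : K →L[ℂ] K := (VB A).starProjection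
  let L : C → (K →L[ℂ] K) := opL M a U
  let R : C → (K →L[ℂ] K) := opR M a U'
  let L0 : C → (H →L[ℂ] H) := opL M0 a (CRep.ext A0 E)
  let σ : C → (K →L[ℂ] K) := sgm M a U U'
  have hσ : ∀ v x, σ v x = L v (R v x) := fun v x => rfl
  have hz : M.Hom M z := hx_zhom h1
  have hzB : ∀ g x, z (B g x) = B g (z x) := fun g x =>
    (map_starProjection (T := ((B g).toContinuousLinearEquiv : K →L[ℂ] K)) (A := A) (A' := A)
      (fun h x => (h1.comm2 h g x).symm) x).symm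
  have hzR : ∀ v x, z (R v x) = R v (z x) := fun v x =>
    opR_nat M a hU' hU' hz (fun l ξ => map_ext (T := z) hzB E.conj l ξ) v x
  have hTRL : ∀ v x, TR (L0 v x) = L v (TR x) := fun v x =>
    opL_nat M0 a hU0 hU hRM (fun l ξ => map_ext (T := TR.toContinuousLinearMap) hR E l ξ) v x
  have hTLR : ∀ v, R v (TL ζ) = TL (L0 v⁻¹ ζ) := by
    intro v
    have h2 := opR_nat M0 a hU0' hU' hLM
      (fun l ξ => map_ext (T := TL.toContinuousLinearMap) hL E.conj l ξ) v ζ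
    rw [← hcen v] at h2
    exact h2.symm
  let T : H →L[ℂ] K := z.comp TL.toContinuousLinearMap
  have hTx : ∀ x, T x = z (TL x) := fun x => rfl
  have hzn : ∀ x, ‖z x‖ ≤ ‖x‖ := fun x => Submodule.norm_starProjection_apply_le _ x
  have hTn : ∀ x, ‖T x‖ ≤ ‖x‖ := fun x => (hzn _).trans (TL.norm_map x).le
  have hT : M0.Hom M T := by
    refine ⟨fun h ξ => ?_, fun D hD ξ => ?_, fun D hD ξ => ?_⟩
    · have e : TL (M0.S h ξ) = M.S h (TL ξ) := hLM.S h ξ
      rw [hTx, hTx, e]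
      exact hz.S h _
    · have e : TL (M0.px.p D ξ) = M.px.p D (TL ξ) := hLM.x D hD ξ
      rw [hTx, hTx, e]
      exact hz.x D hD _
    · have e : TL (M0.py.p D ξ) = M.py.p D (TL ξ) := hLM.y D hD ξ
      rw [hTx, hTx, e]
      exact hz.y D hD _
  have hRT : ∀ v : C, R v (T ζ) = T (L0 v⁻¹ ζ) := by
    intro v
    rw [hTx, hTx, ← hTLR]
    exact (hzR v _).symm
  have hTA : T ζ ∈ VB A := (VB A).starProjection_apply_mem _
  -- the vector `η0 = T ζ` is bounded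
  have hTB : BddX M ν B (T ζ) := by
    intro D hD
    rw [← hT.y D hD]
    have hTc : ∀ g x, T (B0 g x) = B g (T x) := by
      intro g x
      rw [hTx, hTx, hL, hzB]
    refine (Bdd.map hTc (hB D hD)).mono ?_
    refine mul_le_of_le_one_left (Real.sqrt_nonneg _) ?_
    exact T.opNorm_le_bound zero_le_one fun x => by rw [one_mul]; exact hTn x
  have hσn : ∀ v x, ‖σ v x‖ ≤ ‖x‖ := fun v x => norm_sgm_le M a hU hU' v x
  have hσm : ∀ g h x, σ (g * h) x = σ g (σ h x) := fun g h x => sgm_mul M a hU hU' hc g h x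
  -- the scalar products
  have hin : ∀ v, inner ℂ (σ v (T ζ)) (TR ζ) = inner ℂ (TL (L0 v⁻¹ ζ)) (TR (L0 v⁻¹ ζ)) := by
    intro v
    have h2 : inner ℂ (σ v (T ζ)) (TR ζ) = inner ℂ (R v (T ζ)) (L v⁻¹ (TR ζ)) :=
      opL_adj M a hU v (R v (T ζ)) (TR ζ)
    have h3 : L0 v⁻¹ ζ ∈ VB A0 := by
      have e1 : L0 (1 * v⁻¹) ζ = L0 1 (L0 v⁻¹ ζ) := opL_mul M0 a hU0 1 v⁻¹ ζ
      have e2 : L0 1 (L0 v⁻¹ ζ) = ext A0 E 1 (L0 v⁻¹ ζ) := opL_one M0 a hU0 (L0 v⁻¹ ζ)
      rw [one_mul] at e1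
      rw [e1, e2]
      exact ext_mem A0 E 1 _
    have h4 : z (TR (L0 v⁻¹ ζ)) = TR (L0 v⁻¹ ζ) := by
      apply Submodule.starProjection_eq_self_iff.2
      exact map_VB (T := TR.toContinuousLinearMap) hR h3
    have h5 : inner ℂ (z (TL (L0 v⁻¹ ζ))) (TR (L0 v⁻¹ ζ)) = inner ℂ (TL (L0 v⁻¹ ζ)) (z (TR (L0 v⁻¹ ζ))) :=
      Submodule.inner_starProjection_left_eq_right _ _ _
    rw [h2, hRT, hTx, ← hTRL, h5, h4]
  -- continuity at the orbit
  have hcont0 : Tendsto (fun h : C => σ h (T ζ)) (𝓝 1) (𝓝 (T ζ)) := by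
    rw [tendsto_iff_norm_sub_tendsto_zero]
    have h2 : ∀ h : C, ‖σ h (T ζ) - T ζ‖ ≤ 2 * Real.sqrt (ν {x | a.a h x ≠ 1}).toReal :=
      fun h => hx_near a E h0 h1 hT hTn hA hTA hRT hν h
    have h4 : Tendsto (fun h : C => 2 * Real.sqrt (ν {x | a.a h x ≠ 1}).toReal) (𝓝 1) (𝓝 0) := by
      have h5 := (ENNReal.tendsto_toReal ENNReal.zero_ne_top).comp h3
      rw [ENNReal.toReal_zero] at h5
      have h6 := ((Real.continuous_sqrt.tendsto 0).comp h5).const_mul 2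
      rw [Real.sqrt_zero, mul_zero] at h6
      exact h6
    exact squeeze_zero (fun h => norm_nonneg _) h2 h4
  have hcontv : ∀ v : C, Tendsto (fun h : C => σ h (σ v (T ζ))) (𝓝 1) (𝓝 (σ v (T ζ))) := by
    intro v
    have h2 : Tendsto (fun h : C => v⁻¹ * h * v) (𝓝 1) (𝓝 1) := by
      have h5 : Continuous fun h : C => v⁻¹ * h * v := by fun_prop
      have h6 := h5.tendsto 1
      rw [mul_one, inv_mul_cancel] at h6
      exact h6
    have h4 := ((σ v).continuous.tendsto (T ζ)).comp (hcont0.comp h2)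
    refine h4.congr fun h => ?_
    show σ v (σ (v⁻¹ * h * v) (T ζ)) = σ h (σ v (T ζ))
    rw [← hσm, ← hσm]
    congr 2
    group
  -- the large closed convex set
  let S : Set K := {ξ | BddX M ν B ξ ∧ c1 ≤ (inner ℂ ξ (TR ζ)).re ∧
    Tendsto (fun h : C => σ h ξ) (𝓝 1) (𝓝 ξ)}
  have hScl : IsClosed S := by
    have e1 : IsClosed {ξ : K | BddX M ν B ξ} := by
      have e : {ξ : K | BddX M ν B ξ} = ⋂ (D : Set X) (_ : MeasurableSet D),
          (M.py.p D) ⁻¹' {ξ : K | Bdd B (Real.sqrt (ν D).toReal) ξ} := by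
        ext ξ
        simp only [Set.mem_setOf_eq, Set.mem_iInter, Set.mem_preimage, BddX]
      rw [e]
      refine isClosed_iInter fun D => isClosed_iInter fun _ => ?_
      exact (hx_closed B (Real.sqrt_nonneg _)).preimage (M.py.p D).continuous
    refine e1.inter (IsClosed.inter ?_ (hx_tclosed (𝓝 (1 : C)) σ hσn))
    exact isClosed_le continuous_const
      (Complex.continuous_re.comp (continuous_id.inner continuous_const))
  have hSconv : Convex ℝ S := by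
    rintro x ⟨x1, x2, x3⟩ y ⟨y1, y2, y3⟩ p q hp hq hpq
    have ea : p • x = (p : ℂ) • x := rfl
    have eb : q • y = (q : ℂ) • y := rfl
    rw [ea, eb]
    refine ⟨fun D hD => ?_, ?_, ?_⟩
    · rw [map_add, map_smul, map_smul]
      refine (((x1 D hD).smul (p : ℂ)).add ((y1 D hD).smul (q : ℂ))).mono ?_
      rw [Complex.norm_real, Complex.norm_real, Real.norm_of_nonneg hp, Real.norm_of_nonneg hq,
        ← add_mul, hpq, one_mul]
    · rw [inner_add_left, inner_smul_left, inner_smul_left, Complex.conj_ofReal,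
        Complex.conj_ofReal, Complex.add_re, Complex.re_ofReal_mul, Complex.re_ofReal_mul]
      have h2 := mul_le_mul_of_nonneg_left x2 hp
      have h4 := mul_le_mul_of_nonneg_left y2 hq
      have h5 : p * c1 + q * c1 = c1 := by rw [← add_mul, hpq, one_mul]
      linarith
    · have h2 := (x3.const_smul (p : ℂ)).add (y3.const_smul (q : ℂ))
      refine h2.congr fun h => ?_
      rw [map_add, map_smul, map_smul]
  have horb : ∀ v ∈ V, σ v (T ζ) ∈ S := by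
    intro v hv
    refine ⟨?_, ?_, hcontv v⟩
    · exact bddX_opL a E h1 (bddX_opR a E h1 hTB v) v
    · rw [hin]
      exact hlow v⁻¹ (V.inv_mem hv)
  -- the orbit and its closed convex hull
  let O : Set K := Set.range fun v : V => σ v (T ζ)
  let C0 : Set K := closure (convexHull ℝ O)
  have hC0S : C0 ⊆ S := by
    refine closure_minimal (convexHull_min ?_ hSconv) hScl
    rintro _ ⟨v, rfl⟩
    exact horb v v.2
  have hC0conv : Convex ℝ C0 := (convex_convexHull ℝ O).closure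
  have hσC0 : ∀ m : V, ∀ x ∈ C0, σ m x ∈ C0 := by
    intro m
    have h2 : C0 ⊆ (σ m) ⁻¹' C0 := by
      refine closure_minimal (convexHull_min ?_ ?_) (isClosed_closure.preimage (σ m).continuous)
      · rintro _ ⟨v, rfl⟩
        change σ m (σ v (T ζ)) ∈ C0
        rw [← hσm]
        exact subset_closure (subset_convexHull ℝ O ⟨m * v, rfl⟩)
      · intro x hx y hy p q hp hq hpq
        change σ m (p • x + q • y) ∈ C0
        have ea : p • x = (p : ℂ) • x := rfl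
        have eb : q • y = (q : ℂ) • y := rfl
        rw [ea, eb, map_add, map_smul, map_smul]
        exact hC0conv hx hy hp hq hpq
    exact fun x hx => h2 hx
  obtain ⟨η, hη, hfix⟩ : ∃ η ∈ C0, ∀ m : V, σ m η = η := by
    let _ : InnerProductSpace ℝ K := InnerProductSpace.complexToReal
    exact hx_fix (fun (m : V) x => σ m x) C0
      ⟨σ (1 : V) (T ζ), subset_closure (subset_convexHull ℝ O ⟨1, rfl⟩)⟩ isClosed_closure hC0conv hσC0
      (fun m x => hσn m x)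
  obtain ⟨k1, k2, k3⟩ := hC0S hη
  exact ⟨η, k1, k2, fun v hv => hfix ⟨v, hv⟩, k3⟩

end Pool.Agent.Helper84.FR
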