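import Pool.Agent.Helper84.FR.XX
import Pool.Agent.Helper84.FR.HX
import Pool.Agent.Helper84.FR.HM
import Pool.Agent.Helper84.FR.FX
import Pool.Agent.Helper66.FR.Zt3
import Pool.Agent.Helper90.RK.NonAmDef

/-!
# Project FR (MP_0f6f3f_an, full rank theorem): the escape lemma

`escapeX`: if `vec b` has a component over the stratum `R` and the centraliser of `b` contains elements `a0, u, w` such that `a0` contracts `u` and `w⁻¹`-side (Mautner) and `⟨u, w⟩` is nonamenable, then
the powers of `a0` move the component out of the regions `R.W n`. `escape_seqX`: the same for honest vectors.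
-/

set_option autoImplicit false

open Filter Topology Matrix

namespace Pool.Agent.Helper84.FR

open NI GVN GN MeasureTheory Pool.Agent.Helper66.FR Pool.Agent.Helper90.RK

section Lower

variable {X : Type} [MeasurableSpace X] {μ : Measure X} {G : Type}

private theorem esx_mulop {f : G → ℂ} (hf : ∀ γ, ‖f γ‖ ≤ 1) (x : L2 G) :
    HasSum (fun γ => (f γ).re * ‖x γ‖ ^ 2) (inner ℂ x (mulop f x)).re := by
  have h1 : HasSum (fun γ => inner ℂ (x γ) (mulop f x γ)) (inner ℂ x (mulop f x)) :=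
    lv_inner x (mulop f x)
  have h2 := Complex.reCLM.hasSum h1
  have h3 : (fun γ => Complex.reCLM (inner ℂ (x γ) (mulop f x γ))) =
      fun γ => (f γ).re * ‖x γ‖ ^ 2 := by
    funext γ
    have hC : ∀ (i : G) (y : ℂ), ‖(f i • ContinuousLinearMap.id ℂ ℂ) y‖ ≤ 1 * ‖y‖ := by
      intro i y
      rw [_root_.smul_apply, ContinuousLinearMap.id_apply, norm_smul]
      exact mul_le_mul_of_nonneg_right (hf i) (norm_nonneg _)
    have h4 : mulop f x γ = f γ * x γ := by
      unfold mulop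
      rw [dg_apply hC, _root_.smul_apply, ContinuousLinearMap.id_apply, smul_eq_mul]
    rw [h4]
    change (inner ℂ (x γ) (f γ * x γ) : ℂ).re = _
    rw [← smul_eq_mul, inner_smul_right, inner_self_eq_norm_sq_to_K]
    have : ((‖x γ‖ : ℂ)) ^ 2 = ((‖x γ‖ ^ 2 : ℝ) : ℂ) := by push_cast; rfl
    change (f γ * ((‖x γ‖ : ℂ)) ^ 2).re = _
    rw [this, Complex.re_mul_ofReal]
  rw [h3] at h2
  exact h2

/-- A multiplication operator that is at least `c` on `W`. -/
theorem xlower {f : G → ℂ} (hf : ∀ γ, ‖f γ‖ ≤ 1) {W : Set G} {c : ℝ} (h0 : ∀ γ, 0 ≤ (f γ).re)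
    (h : ∀ γ ∈ W, c ≤ (f γ).re) (b : UE μ (L2 G)) :
    c * ‖UE.map μ (ind ℂ W) b‖ ^ 2 ≤ (inner ℂ b (UE.map μ (mulop f) b)).re := by
  classical
  have h1 := UE.re_inner_nonneg (μ := μ) (T := mulop f - (c : ℂ) • ind ℂ W)
    (S := ContinuousLinearMap.id ℂ (L2 G)) (fun x => by
      rw [ContinuousLinearMap.id_apply, _root_.sub_apply, _root_.smul_apply, inner_sub_right,
        inner_smul_right, Complex.sub_re, Complex.re_ofReal_mul]
      have s1 := esx_mulop hf x
      have s2 : HasSum (fun γ => (inner ℂ (x γ) (ind ℂ W x γ) : ℂ).re) (inner ℂ x (ind ℂ W x)).re :=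
        Complex.reCLM.hasSum (lv_inner x (ind ℂ W x))
      have s3 := s2.mul_left c
      have s4 := s1.sub s3
      refine s4.nonneg fun γ => ?_
      rw [ind_apply]
      by_cases hγ : γ ∈ W
      · rw [if_pos hγ, inner_self_eq_norm_sq_to_K]
        have e : (((‖x γ‖ : ℂ)) ^ 2 : ℂ).re = ‖x γ‖ ^ 2 := by
          have : ((‖x γ‖ : ℂ)) ^ 2 = ((‖x γ‖ ^ 2 : ℝ) : ℂ) := by push_cast; rfl
          rw [this, Complex.ofReal_re]
        change 0 ≤ (f γ).re * ‖x γ‖ ^ 2 - c * (((‖x γ‖ : ℂ)) ^ 2 : ℂ).re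
        rw [e]
        have := mul_le_mul_of_nonneg_right (h γ hγ) (sq_nonneg ‖x γ‖)
        linarith
      · rw [if_neg hγ, inner_zero_right, Complex.zero_re, mul_zero, sub_zero]
        exact mul_nonneg (h0 γ) (sq_nonneg _)) b
  rw [UE.map_id, UE.map_sub, UE.map_smul, inner_sub_right, inner_smul_right, Complex.sub_re,
    Complex.re_ofReal_mul] at h1
  have h2 : (inner ℂ b (UE.map μ (ind ℂ W) b)).re = ‖UE.map μ (ind ℂ W) b‖ ^ 2 := by
    have e1 : UE.map μ (ind ℂ W) b = UE.map μ (ind ℂ W) (UE.map μ (ind ℂ W) b) := by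
      rw [xind_ind, Set.inter_self]
    have e2 : inner ℂ b (UE.map μ (ind ℂ W) b) =
        inner ℂ (UE.map μ (ind ℂ W) b) (UE.map μ (ind ℂ W) b) := by
      rw [xinner_ind, ← e1]
    rw [e2]
    exact (norm_sq_eq_re_inner (𝕜 := ℂ) _).symm
  rw [h2] at h1
  linarith

end Lower

end Pool.Agent.Helper84.FR
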