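import Pool.Agent.Helper84.FR.SG

/-!
# Project FR, block HB: bounded vectors (uses only the statements of SG, TW, PVL)

`BddX M ν B η`: `M.py.p D η` is `B`-bounded with constant `√(ν D)` for all `D`. Notation: `L v = opL M a (ext A E) v`, `R v = opR M a (ext B E.conj) v = tw py (ext B E.conj) (a v)`. PROOFS.
`bddX_opR`: let `D` be measurable, `s` finite, `c` coefficients, `ζ' = ∑_{g ∈ s} c g • B g (py.p D (R v η))`. `py_l = M.py.p (a v ⁻¹' {l})`. `py_l ζ' = ∑ c g • B g (py.p (D ∩ {a v = l}) (ext B E.conj l η))` (`tw_at`, `PV.inter`, `B g` commutes with `py`)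
`= ∑ c g • B g (ext B E.conj l (py.p (D ∩ {a v = l}) η))` (`uhom_ext`), norm square `≤ ν (D ∩ {a v = l}) ∑ |c g|^2` by `ext_bdd` and `h (D ∩ {a v = l})`. Sum over `l` (`PV.norm_sq_sum` for `ζ'`; `∑_l ν (D ∩ {a v = l}) = ν D`: `measure_iUnion`, `ENNReal.toReal` of a sum of finite numbers;
`hasSum_le`). `bddX_opL`: `py.p D (L v η) = L v (py.p (v • D) ..)`: precisely `opL` commutes with `py` up to the shift: `L v (M.py.p D' ξ) = M.py.p ((fun x => v⁻¹ • x) ⁻¹' D') (L v ξ)` (`M.Sy`, and `tw px` commutes with `py.p D'` by `tw_comm`, `M.comm`, `uhom_ext`); take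
`D' = (fun x => v • x) ⁻¹' D`, `ν D' = ν D` (`measure_preimage_smul` or `measurePreserving_smul`). `L v` commutes with `B g` (`opL_nat` with `T = B g`, `h1.hB`, `map_ext`, `h1.comm2`) and is a contraction (`norm_opL_le`), so `Bdd B c ξ → Bdd B c (L v ξ)` (`Bdd.map`, or directly).
-/

set_option autoImplicit false

open Filter Topology MeasureTheory

namespace Pool.Agent.Helper84.FR

open NI GVN

section Defs

variable {C X G : Type} [Group C] [MulAction C X] [MeasurableSpace X] [Group G]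
variable {H : Type} [NormedAddCommGroup H] [InnerProductSpace ℂ H]

/-- Bounded vectors for the right action and the functions of the source point. -/
def BddX (M : XM C X H) (ν : Measure X) (B : G →* (H ≃ₗᵢ[ℂ] H)) (η : H) : Prop :=
  ∀ D : Set X, MeasurableSet D → Bdd B (Real.sqrt (ν D).toReal) (M.py.p D η)

end Defs

variable {C X Λ G : Type} [Group C] [TopologicalSpace C] [IsTopologicalGroup C] [MulAction C X]
  [MeasurableSpace X] [MeasurableConstSMul C X] [Group Λ] [Countable Λ] [Group G]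
variable {H K : Type} [NormedAddCommGroup H] [InnerProductSpace ℂ H] [CompleteSpace H]
  [NormedAddCommGroup K] [InnerProductSpace ℂ K] [CompleteSpace K]

omit [Group C] [MulAction C X] [MeasurableConstSMul C X] [Group Λ] in
private theorem hasSum_inter67 {ν : Measure X} [IsFiniteMeasure ν] {c : X → Λ} (hc : ∀ l, MeasurableSet (c ⁻¹' {l}))
    {D : Set X} (hD : MeasurableSet D) :
    HasSum (fun l => (ν (D ∩ c ⁻¹' {l})).toReal) (ν D).toReal := by
  have h1 : ν D = ∑' l, ν (D ∩ c ⁻¹' {l}) := by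
    rw [← measure_iUnion]
    · congr 1
      ext x
      simp
    · intro l l' hl
      rw [Function.onFun, Set.disjoint_left]
      rintro x ⟨-, hx⟩ ⟨-, hx'⟩
      exact hl (hx.symm.trans hx')
    · exact fun l => hD.inter (hc l)
  have h2 : ∑' l, ν (D ∩ c ⁻¹' {l}) ≠ ⊤ := by
    rw [← h1]
    exact measure_ne_top ν D
  have h3 := ENNReal.hasSum_toReal h2
  rwa [← ENNReal.tsum_toReal_eq (fun l => measure_ne_top ν _), ← h1] at h3

omit [TopologicalSpace C] [IsTopologicalGroup C] in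
theorem bddX_opR (a : Cocy C X Λ) (E : Emb Λ G) {M : XM C X K} {A B : G →* (K ≃ₗᵢ[ℂ] K)}
    (h1 : MRep M A B) {ν : Measure X} [IsFiniteMeasure ν] {η : K} (h : BddX M ν B η) (v : C) :
    BddX M ν B (opR M a (CRep.ext B E.conj) v η) := by
  have hV : UHom M (CRep.ext B E.conj) := uhom_ext E.conj h1.hB
  have hPV : PCom M.py (CRep.ext B E.conj) := hV.py
  have hc : Mea (a.a v) := a.meas v
  intro D hD
  refine ⟨Real.sqrt_nonneg _, fun s α => ?_⟩
  rw [Real.sq_sqrt ENNReal.toReal_nonneg]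
  change ‖∑ g ∈ s, α g • B g (M.py.p D (tw M.py (CRep.ext B E.conj) (a.a v) η))‖ ^ 2 ≤ _
  set ζ := ∑ g ∈ s, α g • B g (M.py.p D (tw M.py (CRep.ext B E.conj) (a.a v) η)) with hζ
  have hs1 := M.py.norm_sq_sum hc ζ
  have hs2 := (hasSum_inter67 (ν := ν) hc hD).mul_right (∑ g ∈ s, ‖α g‖ ^ 2)
  refine hasSum_le (fun l => ?_) hs1 hs2
  have hS : MeasurableSet (a.a v ⁻¹' {l}) := hc l
  have e1 : M.py.p (a.a v ⁻¹' {l}) ζ = ∑ g ∈ s, α g • B g (ext B E.conj l (M.py.p (D ∩ a.a v ⁻¹' {l}) η)) := by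
    rw [hζ, map_sum]
    refine Finset.sum_congr rfl fun g _ => ?_
    have e2 := (h1.hB g).y (a.a v ⁻¹' {l}) hS (M.py.p D (tw M.py (CRep.ext B E.conj) (a.a v) η))
    have e3 : M.py.p (a.a v ⁻¹' {l}) (M.py.p D (tw M.py (CRep.ext B E.conj) (a.a v) η)) =
        ext B E.conj l (M.py.p (D ∩ a.a v ⁻¹' {l}) η) := by
      rw [M.py.p_comm hS hD, tw_at M.py (CRep.ext B E.conj) hPV hc l η, M.py.inter D _ hD hS, hPV _ (hD.inter hS)]
      rfl
    rw [map_smul]
    congr 1
    rw [← e3]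
    exact e2.symm
  rw [e1]
  have h2 := (ext_bdd E.conj l (h (D ∩ a.a v ⁻¹' {l}) (hD.inter hS))).2 s α
  rwa [Real.sq_sqrt ENNReal.toReal_nonneg] at h2

omit [TopologicalSpace C] [IsTopologicalGroup C] in
theorem bddX_opL (a : Cocy C X Λ) (E : Emb Λ G) {M : XM C X K} {A B : G →* (K ≃ₗᵢ[ℂ] K)}
    (h1 : MRep M A B) {ν : Measure X} [IsFiniteMeasure ν] [SMulInvariantMeasure C X ν] {η : K}
    (h : BddX M ν B η) (v : C) : BddX M ν B (opL M a (CRep.ext A E) v η) := by
  have hU : UHom M (CRep.ext A E) := uhom_ext E h1.hA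
  have hc : Mea (a.a v) := a.meas v
  intro D hD
  have hD' : MeasurableSet ((fun x => v • x) ⁻¹' D) := measurable_const_smul v hD
  have e1 : M.py.p D (opL M a (CRep.ext A E) v η) =
      opL M a (CRep.ext A E) v (M.py.p ((fun x => v • x) ⁻¹' D) η) := by
    have e2 : (fun x : X => v⁻¹ • x) ⁻¹' ((fun x => v • x) ⁻¹' D) = D := by
      ext x
      rw [Set.mem_preimage, Set.mem_preimage, smul_inv_smul]
    have e3 := M.Sy v _ hD' (tw M.px (CRep.ext A E) (a.a v) η)
    rw [e2] at e3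
    have e4 := tw_comm M.px (CRep.ext A E) hU.px hc (T := M.py.p ((fun x => v • x) ⁻¹' D))
      (fun S hS ξ => (M.comm S _ hS hD' ξ).symm) (fun l ξ => hU.py _ hD' l ξ) η
    rw [e4] at e3
    exact e3.symm
  rw [e1]
  have h2 := h _ hD'
  rw [SMulInvariantMeasure.measure_preimage_smul v hD] at h2
  refine ⟨h2.1, fun s α => ?_⟩
  have e5 : ∑ g ∈ s, α g • B g (opL M a (CRep.ext A E) v (M.py.p ((fun x => v • x) ⁻¹' D) η)) =
      opL M a (CRep.ext A E) v (∑ g ∈ s, α g • B g (M.py.p ((fun x => v • x) ⁻¹' D) η)) := by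
    rw [map_sum]
    refine Finset.sum_congr rfl fun g _ => ?_
    rw [map_smul]
    congr 1
    exact opL_nat M a hU hU (h1.hB g) (fun l ξ => map_ext (T := ((B g).toContinuousLinearEquiv : K →L[ℂ] K))
      (fun g' x => (h1.comm2 g' g x).symm) E l ξ) v _
  rw [e5]
  exact (pow_le_pow_left₀ (norm_nonneg _) (norm_opL_le M a hU v _) 2).trans (h2.2 s α)

end Pool.Agent.Helper84.FR
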