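import Pool.Agent.Helper84.FR.PV

/-!
# Project FR, block PVL: projection valued measures

PROOFS. `p_empty`: `P.sum` for a partition of `X` into `univ` and `∅` (`I = Bool`, `c x = true`) and `univ`. `norm_p_le`: `p A` is a symmetric idempotent (`inter A A`, `symm`):
`‖p A ξ‖^2 = ⟪p A ξ, p A ξ⟫ = ⟪ξ, p A ξ⟫`. `p_compl`: the partition `A`, `Aᶜ` (`I = Bool`, `c x = decide (x ∈ A)`). `norm_sq_sum`: apply `inner ξ` to `P.sum`, `⟪ξ, p A ξ⟫ = ‖p A ξ‖^2`. `ext_parts`: `P.sum`, uniqueness.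
`summable_parts`: the `v i` are pairwise orthogonal (`p_disj`, `symm`), so `‖∑_{i ∈ s} v i‖^2 = ∑_{i ∈ s} ‖v i‖^2 ≤ ∑_{i ∈ s} ‖P.p (c ⁻¹' {i}) ξ‖^2` and `norm_sq_sum`; Cauchy criterion (`summable_iff_vanishing_norm`).
-/

set_option autoImplicit false

open Filter Topology MeasureTheory

namespace Pool.Agent.Helper84.FR

open NI GVN

variable {X I : Type} [MeasurableSpace X] {H : Type} [NormedAddCommGroup H] [InnerProductSpace ℂ H]

private theorem PV.compl38 (P : PV X H) {A : Set X} (hA : MeasurableSet A) (ξ : H) :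
    P.p A ξ + P.p Aᶜ ξ = ξ := by
  classical
  have h1 : (fun x => decide (x ∈ A)) ⁻¹' {true} = A := by
    ext x
    simp
  have h2 : (fun x => decide (x ∈ A)) ⁻¹' {false} = Aᶜ := by
    ext x
    simp
  have h := P.sum Bool (fun x => decide (x ∈ A)) (fun i => by
    cases i
    · rw [h2]
      exact hA.compl
    · rw [h1]
      exact hA) ξ
  have h3 := (hasSum_fintype _).unique h
  rw [Fintype.sum_bool, h1, h2] at h3
  exact h3

private theorem PV.inner38 (P : PV X H) {A : Set X} (hA : MeasurableSet A) (ξ : H) :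
    inner ℂ ξ (P.p A ξ) = ((‖P.p A ξ‖ ^ 2 : ℝ) : ℂ) := by
  have h1 : inner ℂ (P.p A ξ) (P.p A ξ) = inner ℂ ξ (P.p A ξ) := by
    rw [P.symm A hA, P.inter A A hA hA, Set.inter_self]
  rw [← h1, inner_self_eq_norm_sq_to_K, Complex.ofReal_pow]
  rfl

theorem PV.p_empty (P : PV X H) (ξ : H) : P.p ∅ ξ = 0 := by
  have h := P.compl38 MeasurableSet.univ ξ
  rw [Set.compl_univ, P.univ, add_eq_left] at h
  exact h

theorem PV.norm_p_le (P : PV X H) {A : Set X} (hA : MeasurableSet A) (ξ : H) : ‖P.p A ξ‖ ≤ ‖ξ‖ := by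
  have h1 := P.inner38 hA ξ
  have h2 : ‖P.p A ξ‖ ^ 2 ≤ ‖ξ‖ * ‖P.p A ξ‖ := by
    have h3 := norm_inner_le_norm (𝕜 := ℂ) ξ (P.p A ξ)
    rw [h1, Complex.norm_real, Real.norm_of_nonneg (sq_nonneg _)] at h3
    exact h3
  rcases (norm_nonneg (P.p A ξ)).eq_or_lt with h | h
  · rw [← h]
    exact norm_nonneg ξ
  · rw [sq] at h2
    exact le_of_mul_le_mul_right h2 h

theorem PV.p_comm (P : PV X H) {A B : Set X} (hA : MeasurableSet A) (hB : MeasurableSet B) (ξ : H) :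
    P.p A (P.p B ξ) = P.p B (P.p A ξ) := by
  rw [P.inter A B hA hB, P.inter B A hB hA, Set.inter_comm]

theorem PV.p_disj (P : PV X H) {A B : Set X} (hA : MeasurableSet A) (hB : MeasurableSet B)
    (h : A ∩ B = ∅) (ξ : H) : P.p A (P.p B ξ) = 0 := by
  rw [P.inter A B hA hB, h, P.p_empty]

theorem PV.p_compl (P : PV X H) {A : Set X} (hA : MeasurableSet A) (ξ : H) :
    P.p A ξ + P.p Aᶜ ξ = ξ := P.compl38 hA ξ

theorem PV.inner_p (P : PV X H) {A : Set X} (hA : MeasurableSet A) (ξ : H) :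
    inner ℂ ξ (P.p A ξ) = ((‖P.p A ξ‖ ^ 2 : ℝ) : ℂ) := P.inner38 hA ξ

theorem PV.norm_sq_compl (P : PV X H) {A : Set X} (hA : MeasurableSet A) (ξ : H) :
    ‖P.p A ξ‖ ^ 2 + ‖P.p Aᶜ ξ‖ ^ 2 = ‖ξ‖ ^ 2 := by
  have h1 : inner ℂ ξ (P.p A ξ + P.p Aᶜ ξ) = inner ℂ ξ ξ := by rw [P.p_compl hA]
  rw [inner_add_right, P.inner_p hA, P.inner_p hA.compl, inner_self_eq_norm_sq_to_K] at h1
  have h2 : ((‖P.p A ξ‖ ^ 2 + ‖P.p Aᶜ ξ‖ ^ 2 : ℝ) : ℂ) = ((‖ξ‖ ^ 2 : ℝ) : ℂ) := by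
    rw [Complex.ofReal_add, h1, Complex.ofReal_pow]
    rfl
  exact_mod_cast h2

theorem PV.norm_sq_sum (P : PV X H) [Countable I] {c : X → I} (hc : ∀ i, MeasurableSet (c ⁻¹' {i}))
    (ξ : H) : HasSum (fun i => ‖P.p (c ⁻¹' {i}) ξ‖ ^ 2) (‖ξ‖ ^ 2) := by
  have h1 := ((P.sum I c hc ξ).mapL (innerSL ℂ ξ)).mapL Complex.reCLM
  have h2 : Complex.reCLM ((innerSL ℂ ξ) ξ) = ‖ξ‖ ^ 2 := by
    change (inner ℂ ξ ξ).re = ‖ξ‖ ^ 2
    rw [inner_self_eq_norm_sq_to_K]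
    have h3 : ((‖ξ‖ : ℝ) : ℂ) ^ 2 = ((‖ξ‖ ^ 2 : ℝ) : ℂ) := (Complex.ofReal_pow _ _).symm
    exact (congrArg Complex.re h3).trans (Complex.ofReal_re _)
  rw [h2] at h1
  refine h1.congr_fun fun i => ?_
  change _ = (inner ℂ ξ (P.p (c ⁻¹' {i}) ξ)).re
  rw [P.inner_p (hc i), Complex.ofReal_re]

theorem PV.ext_parts (P : PV X H) [Countable I] {c : X → I} (hc : ∀ i, MeasurableSet (c ⁻¹' {i}))
    {ξ η : H} (h : ∀ i, P.p (c ⁻¹' {i}) ξ = P.p (c ⁻¹' {i}) η) : ξ = η := by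
  have h1 := P.sum I c hc ξ
  have h2 := P.sum I c hc η
  rw [funext h] at h1
  exact h1.unique h2

theorem PV.summable_parts [CompleteSpace H] (P : PV X H) [Countable I] {c : X → I}
    (hc : ∀ i, MeasurableSet (c ⁻¹' {i})) (ξ : H) {v : I → H} (hv : ∀ i, P.p (c ⁻¹' {i}) (v i) = v i)
    (hn : ∀ i, ‖v i‖ ≤ ‖P.p (c ⁻¹' {i}) ξ‖) : ∃ y, HasSum v y ∧ ‖y‖ ≤ ‖ξ‖ := by
  have horth : ∀ i j, i ≠ j → ∀ a b : H, P.p (c ⁻¹' {i}) a = a → P.p (c ⁻¹' {j}) b = b →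
      inner ℂ a b = 0 := by
    intro i j hij a b ha hb
    rw [← ha, P.symm _ (hc i), ← hb, P.p_disj (hc i) (hc j), inner_zero_right]
    ext x
    simp only [Set.mem_inter_iff, Set.mem_preimage, Set.mem_singleton_iff,
      Set.mem_empty_iff_false, iff_false, not_and]
    rintro rfl h2
    exact hij h2
  let K : I → Submodule ℂ H := fun i =>
    { carrier := {a | P.p (c ⁻¹' {i}) a = a}
      add_mem' := fun {a b} ha hb => by
        change P.p (c ⁻¹' {i}) (a + b) = a + b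
        rw [map_add, show P.p (c ⁻¹' {i}) a = a from ha, show P.p (c ⁻¹' {i}) b = b from hb]
      zero_mem' := map_zero _
      smul_mem' := fun r a ha => by
        change P.p (c ⁻¹' {i}) (r • a) = r • a
        rw [map_smul, show P.p (c ⁻¹' {i}) a = a from ha] }
  have hK : OrthogonalFamily ℂ (fun i => K i) fun i => (K i).subtypeₗᵢ := by
    intro i j hij a b
    exact horth i j hij _ _ a.2 b.2
  let w : ∀ i, K i := fun i => ⟨v i, hv i⟩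
  have hsq := P.norm_sq_sum hc ξ
  have hwn : ∀ i, ‖w i‖ = ‖v i‖ := fun i => rfl
  have hle : ∀ i, ‖v i‖ ^ 2 ≤ ‖P.p (c ⁻¹' {i}) ξ‖ ^ 2 := fun i =>
    pow_le_pow_left₀ (norm_nonneg _) (hn i) 2
  have hsum : Summable v := by
    have h1 : Summable fun i => ‖w i‖ ^ 2 :=
      Summable.of_nonneg_of_le (fun i => sq_nonneg _) hle hsq.summable
    exact (hK.summable_iff_norm_sq_summable w).2 h1
  refine ⟨∑' i, v i, hsum.hasSum, ?_⟩
  refine le_of_tendsto' (hsum.hasSum.norm) fun t => ?_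
  have h2 : ‖∑ i ∈ t, v i‖ ^ 2 = ∑ i ∈ t, ‖v i‖ ^ 2 := hK.norm_sum w t
  have h3 : ‖∑ i ∈ t, v i‖ ^ 2 ≤ ‖ξ‖ ^ 2 := by
    rw [h2]
    refine (Finset.sum_le_sum fun i _ => hle i).trans ?_
    exact sum_le_hasSum t (fun i _ => sq_nonneg _) hsq
  exact (sq_le_sq₀ (norm_nonneg _) (norm_nonneg _)).1 h3

end Pool.Agent.Helper84.FR
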