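import Pool.Agent.Helper84.FR.TW

/-!
# Project FR, block SG: the operators `opL`, `opR`, `sgm`

PROOFS. `tw_shift` with `e x = h⁻¹ • x` gives `S h (tw px U c) = tw px U (c ∘ h⁻¹) (S h ·)`, also for `py`; so `tw c (S h ξ) = S h (tw (c ∘ h) ξ)` (`shift_x`, `shift_y`).
`opL_mul`: `S g tw(a g) S h tw(a h) = S g S h tw(a g ∘ h) tw(a h) = S (g h) tw(x ↦ a g (h x) * a h x)`, `tw_mul`, `a.mul`. `a_one`: `a 1 x = a 1 x * a 1 x`. `a_inv`: `a h (h⁻¹ x) * a h⁻¹ x = 1`.
`opL_adj`: `⟪S h tw(a h) ξ, η⟫ = ⟪tw(a h) ξ, S h⁻¹ η⟫ = ⟪ξ, tw((a h)⁻¹) (S h⁻¹ η)⟫ = ⟪ξ, S h⁻¹ tw(x ↦ (a h (h⁻¹ x))⁻¹) η⟫`, and `(a h (h⁻¹ x))⁻¹ = a h⁻¹ x`.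
`sgm_mul`: `opL g (opR g (opL h (opR h ξ)))`; `opR g (opL h η) = opL h (tw py U' (a g ∘ h) η)` (`opR_opL`, as `tw py` commutes with `tw px U`: `tw_comm` twice); so it is `opL g (opL h (tw py (a g ∘ h) (tw py (a h) ξ)))`.
`sgm_adj`: `opL_adj`, `tw_adj`, `opR_opL` as for `opL_adj`. Norms: `norm_tw_le`. `opL_nat`, `opR_nat`: `tw_nat`.
-/

set_option autoImplicit false

open Filter Topology MeasureTheory

namespace Pool.Agent.Helper84.FR

open NI GVN

variable {C X Λ : Type} [Group C] [MulAction C X] [MeasurableSpace X] [MeasurableConstSMul C X]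
  [Group Λ] [Countable Λ]
variable {H K : Type} [NormedAddCommGroup H] [InnerProductSpace ℂ H] [CompleteSpace H]
  [NormedAddCommGroup K] [InnerProductSpace ℂ K] [CompleteSpace K]

namespace Cocy

variable (a : Cocy C X Λ)

omit [MeasurableConstSMul C X] [Countable Λ] in
theorem a_one (x : X) : a.a 1 x = 1 := by
  have h := a.mul 1 1 x
  rw [one_mul, one_smul] at h
  exact (mul_eq_left.1 h.symm)

omit [MeasurableConstSMul C X] [Countable Λ] in
theorem a_inv (h : C) (x : X) : (a.a h (h⁻¹ • x))⁻¹ = a.a h⁻¹ x := by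
  have e := a.mul h h⁻¹ x
  rw [mul_inv_cancel, a.a_one] at e
  exact inv_eq_of_mul_eq_one_right e.symm

omit [Countable Λ] in
theorem mea_shift (g h : C) : Mea fun x => a.a g (h • x) := by
  intro l
  exact (measurable_const_smul h) (a.meas g l)

end Cocy

/-- `U` commutes with shifts and projections. -/
def UHom (M : XM C X H) (U : CRep Λ H) : Prop := ∀ l, M.Hom M (U.U l)

theorem UHom.px {M : XM C X H} {U : CRep Λ H} (h : UHom M U) : PCom M.px U :=
  fun A hA l ξ => ((h l).x A hA ξ).symm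

theorem UHom.py {M : XM C X H} {U : CRep Λ H} (h : UHom M U) : PCom M.py U :=
  fun A hA l ξ => ((h l).y A hA ξ).symm

/-- `U` and `U'` commute. -/
def UCom (U U' : CRep Λ H) : Prop := ∀ l m ξ, U.U l (U'.U m ξ) = U'.U m (U.U l ξ)

section

variable (M : XM C X H) (a : Cocy C X Λ) {U U' : CRep Λ H} (hU : UHom M U) (hU' : UHom M U')
  (hc : UCom U U')

include hU in
theorem shift_x {c : X → Λ} (h : Mea c) (g : C) (ξ : H) :
    tw M.px U c (M.S g ξ) = M.S g (tw M.px U (fun x => c (g • x)) ξ) := by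
  have h' : Mea fun x => c (g • x) := fun l => (measurable_const_smul g) (h l)
  have e := tw_shift M.px U hU.px h' (S := ((M.S g).toContinuousLinearEquiv : H →L[ℂ] H))
    (e := fun x => g⁻¹ • x) (measurable_const_smul g⁻¹) (fun A hA ξ => M.Sx g A hA ξ)
    (fun l ξ => ((hU l).S g ξ).symm) ξ
  simp only [smul_inv_smul] at e
  exact e.symm

include hU' in
theorem shift_y {c : X → Λ} (h : Mea c) (g : C) (ξ : H) :
    tw M.py U' c (M.S g ξ) = M.S g (tw M.py U' (fun x => c (g • x)) ξ) := by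
  have h' : Mea fun x => c (g • x) := fun l => (measurable_const_smul g) (h l)
  have e := tw_shift M.py U' hU'.py h' (S := ((M.S g).toContinuousLinearEquiv : H →L[ℂ] H))
    (e := fun x => g⁻¹ • x) (measurable_const_smul g⁻¹) (fun A hA ξ => M.Sy g A hA ξ)
    (fun l ξ => ((hU' l).S g ξ).symm) ξ
  simp only [smul_inv_smul] at e
  exact e.symm

include hU in
theorem opL_mul (g h : C) (ξ : H) : opL M a U (g * h) ξ = opL M a U g (opL M a U h ξ) := by
  have e1 : a.a (g * h) = fun x => a.a g (h • x) * a.a h x := funext fun x => a.mul g h x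
  have e2 : opL M a U (g * h) ξ = M.S (g * h) (tw M.px U (a.a (g * h)) ξ) := rfl
  have e3 : opL M a U g (opL M a U h ξ) =
      M.S g (tw M.px U (a.a g) (M.S h (tw M.px U (a.a h) ξ))) := rfl
  rw [e2, e3, shift_x M hU (a.meas g) h, e1,
    tw_mul M.px U hU.px (a.mea_shift g h) (a.meas h), map_mul]
  rfl

include hU in
theorem opL_one (ξ : H) : opL M a U 1 ξ = U.U 1 ξ := by
  have e1 : a.a 1 = fun _ => 1 := funext fun x => a.a_one x
  have e2 : opL M a U 1 ξ = M.S 1 (tw M.px U (a.a 1) ξ) := rfl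
  rw [e2, e1, tw_one M.px U hU.px, map_one]
  rfl

include hU in
theorem norm_opL_le (h : C) (ξ : H) : ‖opL M a U h ξ‖ ≤ ‖ξ‖ := by
  have e2 : opL M a U h ξ = M.S h (tw M.px U (a.a h) ξ) := rfl
  rw [e2, LinearIsometryEquiv.norm_map]
  exact norm_tw_le M.px U hU.px (a.meas h) ξ

include hU in
theorem opL_adj (h : C) (ξ η : H) : inner ℂ (opL M a U h ξ) η = inner ℂ ξ (opL M a U h⁻¹ η) := by
  have e2 : opL M a U h ξ = M.S h (tw M.px U (a.a h) ξ) := rfl
  have e3 : η = M.S h (M.S h⁻¹ η) := by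
    change η = (M.S h * M.S h⁻¹) η
    rw [← map_mul, mul_inv_cancel, map_one]
    rfl
  have e4 : opL M a U h⁻¹ η = M.S h⁻¹ (tw M.px U (a.a h⁻¹) η) := rfl
  have hm : Mea fun x => (a.a h x)⁻¹ := fun l => by
    have e : (fun x => (a.a h x)⁻¹) ⁻¹' {l} = a.a h ⁻¹' {l⁻¹} := by
      ext x
      simp only [Set.mem_preimage, Set.mem_singleton_iff]
      exact inv_eq_iff_eq_inv
    rw [e]
    exact a.meas h l⁻¹
  rw [e2, e4]
  conv_lhs => rw [e3]
  rw [LinearIsometryEquiv.inner_map_map, tw_adj M.px U hU.px (a.meas h), shift_x M hU hm]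
  simp only [a.a_inv]

include hU' in
theorem norm_opR_le (h : C) (ξ : H) : ‖opR M a U' h ξ‖ ≤ ‖ξ‖ := by
  exact norm_tw_le M.py U' hU'.py (a.meas h) ξ

include hU hU' hc in
theorem opR_opL {c : X → Λ} (hm : Mea c) (h : C) (ξ : H) :
    tw M.py U' c (opL M a U h ξ) = opL M a U h (tw M.py U' (fun x => c (h • x)) ξ) := by
  have e2 : ∀ ξ, opL M a U h ξ = M.S h (tw M.px U (a.a h) ξ) := fun _ => rfl
  have hm' : Mea fun x => c (h • x) := fun l => (measurable_const_smul h) (hm l)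
  rw [e2, e2, shift_y M hU' hm, tw_comm M.px U hU.px (a.meas h)
    (T := tw M.py U' (fun x => c (h • x)))]
  · intro A hA ξ
    exact (tw_comm M.py U' hU'.py hm' (T := M.px.p A) (fun B hB ξ => M.comm A B hA hB ξ)
      (fun l ξ => ((hU' l).x A hA ξ).symm) ξ).symm
  · intro l ξ
    exact (tw_comm M.py U' hU'.py hm' (T := U.U l) (fun B hB ξ => (hU l).y B hB ξ)
      (fun m ξ => hc l m ξ) ξ).symm

include hU hU' hc in
theorem sgm_mul (g h : C) (ξ : H) : sgm M a U U' (g * h) ξ = sgm M a U U' g (sgm M a U U' h ξ) := by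
  have e1 : a.a (g * h) = fun x => a.a g (h • x) * a.a h x := funext fun x => a.mul g h x
  have e2 : sgm M a U U' (g * h) ξ = opL M a U (g * h) (tw M.py U' (a.a (g * h)) ξ) := rfl
  have e3 : sgm M a U U' g (sgm M a U U' h ξ) =
      opL M a U g (tw M.py U' (a.a g) (opL M a U h (tw M.py U' (a.a h) ξ))) := rfl
  rw [e2, e3, opR_opL M a hU hU' hc (a.meas g), opL_mul M a hU, e1,
    tw_mul M.py U' hU'.py (a.mea_shift g h) (a.meas h)]

include hU hU' in
theorem sgm_one (ξ : H) : sgm M a U U' 1 ξ = U.U 1 (U'.U 1 ξ) := by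
  have e1 : a.a 1 = fun _ => 1 := funext fun x => a.a_one x
  have e2 : sgm M a U U' 1 ξ = opL M a U 1 (tw M.py U' (a.a 1) ξ) := rfl
  rw [e2, opL_one M a hU, e1, tw_one M.py U' hU'.py]

include hU hU' in
theorem norm_sgm_le (h : C) (ξ : H) : ‖sgm M a U U' h ξ‖ ≤ ‖ξ‖ := by
  exact (norm_opL_le M a hU h _).trans (norm_opR_le M a hU' h ξ)

include hU hU' hc in
theorem sgm_adj (h : C) (ξ η : H) :
    inner ℂ (sgm M a U U' h ξ) η = inner ℂ ξ (sgm M a U U' h⁻¹ η) := by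
  have hm : Mea fun x => (a.a h x)⁻¹ := fun l => by
    have e : (fun x => (a.a h x)⁻¹) ⁻¹' {l} = a.a h ⁻¹' {l⁻¹} := by
      ext x
      simp only [Set.mem_preimage, Set.mem_singleton_iff]
      exact inv_eq_iff_eq_inv
    rw [e]
    exact a.meas h l⁻¹
  have e1 : sgm M a U U' h ξ = opL M a U h (tw M.py U' (a.a h) ξ) := rfl
  have e2 : sgm M a U U' h⁻¹ η = opL M a U h⁻¹ (tw M.py U' (a.a h⁻¹) η) := rfl
  rw [e1, e2, opL_adj M a hU, tw_adj M.py U' hU'.py (a.meas h), opR_opL M a hU hU' hc hm]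
  simp only [a.a_inv]

include hU in
theorem opL_nat {M' : XM C X K} {V : CRep Λ K} (hV : UHom M' V) {T : H →L[ℂ] K} (hT : M.Hom M' T)
    (hTU : ∀ l ξ, T (U.U l ξ) = V.U l (T ξ)) (h : C) (ξ : H) :
    T (opL M a U h ξ) = opL M' a V h (T ξ) := by
  have e2 : opL M a U h ξ = M.S h (tw M.px U (a.a h) ξ) := rfl
  have e3 : opL M' a V h (T ξ) = M'.S h (tw M'.px V (a.a h) (T ξ)) := rfl
  rw [e2, e3, hT.S, tw_nat M.px U hU.px (a.meas h) hV.px hT.x hTU]

include hU' in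
theorem opR_nat {M' : XM C X K} {V : CRep Λ K} (hV : UHom M' V) {T : H →L[ℂ] K} (hT : M.Hom M' T)
    (hTU : ∀ l ξ, T (U'.U l ξ) = V.U l (T ξ)) (h : C) (ξ : H) :
    T (opR M a U' h ξ) = opR M' a V h (T ξ) := by
  exact tw_nat M.py U' hU'.py (a.meas h) hV.py hT.y hTU ξ

include hU in
theorem opL_px (h : C) {A : Set X} (hA : MeasurableSet A) (ξ : H) :
    opL M a U h (M.px.p A ξ) = M.px.p ((fun x => h⁻¹ • x) ⁻¹' A) (opL M a U h ξ) := by
  have e2 : ∀ ξ, opL M a U h ξ = M.S h (tw M.px U (a.a h) ξ) := fun _ => rfl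
  rw [e2, e2, ← tw_p M.px U hU.px (a.meas h) hA, M.Sx h A hA]

include hU' in
theorem opR_px (h : C) {A : Set X} (hA : MeasurableSet A) (ξ : H) :
    opR M a U' h (M.px.p A ξ) = M.px.p A (opR M a U' h ξ) := by
  exact (tw_comm M.py U' hU'.py (a.meas h) (T := M.px.p A) (fun B hB ξ => M.comm A B hA hB ξ)
    (fun l ξ => ((hU' l).x A hA ξ).symm) ξ).symm

include hU' in
theorem opR_py (h : C) {A : Set X} (hA : MeasurableSet A) (ξ : H) :
    opR M a U' h (M.py.p A ξ) = M.py.p A (opR M a U' h ξ) := by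
  exact (tw_p M.py U' hU'.py (a.meas h) hA ξ).symm

end

/-- The normal extension commutes with shifts and projections. -/
theorem uhom_ext {G : Type} [Group G] {M : XM C X H} {A : G →* (H ≃ₗᵢ[ℂ] H)} (E : Emb Λ G)
    (hA : ∀ g, M.Hom M ((A g).toContinuousLinearEquiv : H →L[ℂ] H)) : UHom M (CRep.ext A E) := by
  intro l
  refine ⟨fun h ξ => ?_, fun D hD ξ => ?_, fun D hD ξ => ?_⟩
  · exact (map_ext (T := ((M.S h).toContinuousLinearEquiv : H →L[ℂ] H))
      (fun g x => ((hA g).S h x).symm) E l ξ).symm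
  · exact (map_ext (T := M.px.p D) (fun g x => ((hA g).x D hD x).symm) E l ξ).symm
  · exact (map_ext (T := M.py.p D) (fun g x => ((hA g).y D hD x).symm) E l ξ).symm

theorem ucom_ext {G : Type} [Group G] {A B : G →* (H ≃ₗᵢ[ℂ] H)} (hAB : Comm2 A B) (E E' : Emb Λ G) :
    UCom (CRep.ext A E) (CRep.ext B E') := by
  intro l m ξ
  exact map_ext (T := NI.ext A E l)
    (fun g x => (map_ext (T := ((B g).toContinuousLinearEquiv : H →L[ℂ] H))
      (fun k y => (hAB k g y).symm) E l x).symm) E' m ξ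

end Pool.Agent.Helper84.FR
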