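import Pool.Agent.Helper84.FR.PVL

/-!
# Project FR, block TW: twisted products (uses only the statements of PVL)

PROOFS. `tw_hasSum`: `P.p {c = l} (U l ξ) = U l (P.p {c = l} ξ)` has norm at most `‖P.p {c = l} ξ‖` (`PV.summable_parts`); the map `ξ ↦ ∑' l, ..` is linear with norm `≤ 1` (`LinearMap.mkContinuous`). `tw_at`: continuity of `P.p {c = l}`, `p_disj`, only one term.
`tw_p`: `P.p A` commutes with all terms. `tw_const`: `P.p A` of the sum, `A ∩ {c = l}`. `tw_uniq`: `ext_parts` and `tw_at`. `tw_mul`: apply `ext_parts` to the partition by `x ↦ (c x, d x)`, `I = Λ × Λ`: on `{c = l, d = m}` both sides are `U (l m) ξ` (`tw_const`, `tw_p`).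
`tw_adj`: `⟪∑_l p_l U_l ξ, η⟫ = ∑_l ⟪ξ, U_l⁻¹ p_l η⟫` and `{c⁻¹ = l⁻¹} = {c = l}` (reindex by `Equiv.inv`). `tw_one`: `tw_uniq`. `tw_nat`, `tw_shift`, `tw_comm`: apply the continuous map to the sum and use uniqueness.
-/

set_option autoImplicit false

open Filter Topology MeasureTheory

namespace Pool.Agent.Helper84.FR

open NI GVN

variable {X Λ : Type} [MeasurableSpace X] [Group Λ] [Countable Λ]
variable {H K : Type} [NormedAddCommGroup H] [InnerProductSpace ℂ H]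
  [NormedAddCommGroup K] [InnerProductSpace ℂ K]

private theorem tw_parts [CompleteSpace H] (P : PV X H) (U : CRep Λ H) (h : PCom P U) {c : X → Λ} (hc : Mea c)
    (ξ : H) : ∃ y, HasSum (fun l => P.p (c ⁻¹' {l}) (U.U l ξ)) y ∧ ‖y‖ ≤ ‖ξ‖ := by
  refine P.summable_parts hc ξ (fun l => ?_) (fun l => ?_)
  · rw [P.inter _ _ (hc l) (hc l), Set.inter_self]
  · rw [h _ (hc l)]
    exact U.norm_le l _

private theorem tw_exists [CompleteSpace H] (P : PV X H) (U : CRep Λ H) (h : PCom P U) {c : X → Λ} (hc : Mea c) :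
    ∃ W : H →L[ℂ] H, ∀ ξ, HasSum (fun l => P.p (c ⁻¹' {l}) (U.U l ξ)) (W ξ) := by
  choose y hy hn using tw_parts P U h hc
  refine ⟨LinearMap.mkContinuous
    { toFun := y
      map_add' := fun ξ η => ?_
      map_smul' := fun a ξ => ?_ } 1 (fun ξ => ?_), hy⟩
  · refine (hy (ξ + η)).unique ?_
    have h1 := (hy ξ).add (hy η)
    refine h1.congr_fun fun l => ?_
    rw [map_add, map_add]
  · refine (hy (a • ξ)).unique ?_
    have h1 := (hy ξ).const_smul a
    refine h1.congr_fun fun l => ?_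
    rw [map_smul, map_smul]
  · rw [one_mul]
    exact hn ξ

omit [Countable Λ] in
private theorem tw_const_aux [CompleteSpace H] (P : PV X H) (U : CRep Λ H) (h : PCom P U) {c : X → Λ} (hc : Mea c)
    (hat : ∀ l ξ, P.p (c ⁻¹' {l}) (tw P U c ξ) = P.p (c ⁻¹' {l}) (U.U l ξ))
    {A : Set X} (hA : MeasurableSet A) {l : Λ} (hl : ∀ x ∈ A, c x = l) (ξ : H) :
    P.p A (tw P U c ξ) = P.p A (U.U l ξ) := by
  have _ := h
  have hA' : A ∩ c ⁻¹' {l} = A := Set.inter_eq_left.2 fun x hx => hl x hx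
  have h1 : ∀ η, P.p A η = P.p A (P.p (c ⁻¹' {l}) η) := fun η => by
    rw [P.inter _ _ hA (hc l), hA']
  rw [h1, hat, ← h1]

section tw

variable [CompleteSpace H] (P : PV X H) (U : CRep Λ H) (h : PCom P U) {c d : X → Λ} (hc : Mea c)
  (hd : Mea d)

include h hc

theorem tw_hasSum (ξ : H) : HasSum (fun l => P.p (c ⁻¹' {l}) (U.U l ξ)) (tw P U c ξ) := by
  have h1 := tw_exists P U h hc
  unfold tw
  rw [dif_pos h1]
  exact h1.choose_spec ξ

theorem norm_tw_le (ξ : H) : ‖tw P U c ξ‖ ≤ ‖ξ‖ := by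
  obtain ⟨y, hy, hn⟩ := tw_parts P U h hc ξ
  rw [(tw_hasSum P U h hc ξ).unique hy]
  exact hn

theorem tw_at (l : Λ) (ξ : H) : P.p (c ⁻¹' {l}) (tw P U c ξ) = P.p (c ⁻¹' {l}) (U.U l ξ) := by
  have h1 := (P.p (c ⁻¹' {l})).hasSum (tw_hasSum P U h hc ξ)
  refine h1.unique ?_
  have h2 : ∀ m, m ≠ l → P.p (c ⁻¹' {l}) (P.p (c ⁻¹' {m}) (U.U m ξ)) = 0 := by
    intro m hm
    refine P.p_disj (hc l) (hc m) ?_ _
    ext x
    simp only [Set.mem_inter_iff, Set.mem_preimage, Set.mem_singleton_iff, Set.mem_empty_iff_false, iff_false,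
      not_and]
    rintro rfl hx
    exact hm hx.symm
  have h3 := hasSum_single (f := fun m => P.p (c ⁻¹' {l}) (P.p (c ⁻¹' {m}) (U.U m ξ))) l h2
  have h4 : P.p (c ⁻¹' {l}) (P.p (c ⁻¹' {l}) (U.U l ξ)) = P.p (c ⁻¹' {l}) (U.U l ξ) := by
    rw [P.inter _ _ (hc l) (hc l), Set.inter_self]
  rw [h4] at h3
  exact h3

theorem tw_p {A : Set X} (hA : MeasurableSet A) (ξ : H) :
    P.p A (tw P U c ξ) = tw P U c (P.p A ξ) := by
  have h1 := (P.p A).hasSum (tw_hasSum P U h hc ξ)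
  refine h1.unique ((tw_hasSum P U h hc (P.p A ξ)).congr_fun fun l => ?_)
  rw [P.p_comm hA (hc l), h A hA]

theorem tw_uniq {ξ η : H} (he : ∀ l, P.p (c ⁻¹' {l}) η = P.p (c ⁻¹' {l}) (U.U l ξ)) :
    η = tw P U c ξ := by
  refine P.ext_parts hc fun l => ?_
  rw [tw_at P U h hc, he]

include hd in
theorem tw_mul (ξ : H) : tw P U (fun x => c x * d x) ξ = tw P U c (tw P U d ξ) := by
  have hm : Mea (fun x => c x * d x) := by
    intro l
    have e : (fun x => c x * d x) ⁻¹' {l} = ⋃ m : Λ, (c ⁻¹' {m} ∩ d ⁻¹' {m⁻¹ * l}) := by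
      ext x
      simp only [Set.mem_preimage, Set.mem_singleton_iff, Set.mem_iUnion, Set.mem_inter_iff]
      constructor
      · rintro rfl
        exact ⟨c x, rfl, by group⟩
      · rintro ⟨m, rfl, h2⟩
        rw [h2]
        group
    rw [e]
    exact MeasurableSet.iUnion fun m => (hc m).inter (hd _)
  have hcd : ∀ i : Λ × Λ, MeasurableSet ((fun x => (c x, d x)) ⁻¹' {i}) := by
    intro i
    have e : (fun x => (c x, d x)) ⁻¹' {i} = c ⁻¹' {i.1} ∩ d ⁻¹' {i.2} := by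
      ext x
      simp only [Set.mem_preimage, Set.mem_singleton_iff, Set.mem_inter_iff, Prod.ext_iff]
    rw [e]
    exact (hc _).inter (hd _)
  refine P.ext_parts hcd fun i => ?_
  have h1 : ∀ x ∈ (fun x => (c x, d x)) ⁻¹' {i}, c x = i.1 := fun x hx => congrArg Prod.fst hx
  have h2 : ∀ x ∈ (fun x => (c x, d x)) ⁻¹' {i}, d x = i.2 := fun x hx => congrArg Prod.snd hx
  rw [tw_const_aux P U h hm (tw_at P U h hm) (hcd i) (l := i.1 * i.2) (fun x hx => by
      show c x * d x = _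
      rw [h1 x hx, h2 x hx]),
    tw_const_aux P U h hc (tw_at P U h hc) (hcd i) h1, h _ (hcd i) i.1 (tw P U d ξ), tw_const_aux P U h hd (tw_at P U h hd) (hcd i) h2, U.mul,
    h _ (hcd i) i.1 (U.U i.2 ξ)]

theorem tw_adj (ξ η : H) : inner ℂ (tw P U c ξ) η = inner ℂ ξ (tw P U (fun x => (c x)⁻¹) η) := by
  have hm : Mea (fun x => (c x)⁻¹) := by
    intro l
    have e : (fun x => (c x)⁻¹) ⁻¹' {l} = c ⁻¹' {l⁻¹} := by
      ext x
      simp only [Set.mem_preimage, Set.mem_singleton_iff, inv_eq_iff_eq_inv]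
    rw [e]
    exact hc _
  have h1 := (innerSLFlip ℂ η).hasSum (tw_hasSum P U h hc ξ)
  have h2 := (innerSL ℂ ξ).hasSum (tw_hasSum P U h hm η)
  have h3 := (Equiv.inv Λ).hasSum_iff.2 h2
  refine h1.unique (h3.congr_fun fun l => ?_)
  have e : (fun x => (c x)⁻¹) ⁻¹' {l⁻¹} = c ⁻¹' {l} := by
    ext x
    simp only [Set.mem_preimage, Set.mem_singleton_iff, inv_inj]
  change inner ℂ (P.p (c ⁻¹' {l}) (U.U l ξ)) η = inner ℂ ξ (P.p ((fun x => (c x)⁻¹) ⁻¹' {l⁻¹}) (U.U l⁻¹ η))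
  rw [e, P.symm _ (hc l), U.adj, h _ (hc l)]

/-- The value on a set where `c` is constant. -/
theorem tw_const {A : Set X} (hA : MeasurableSet A) {l : Λ} (hl : ∀ x ∈ A, c x = l) (ξ : H) :
    P.p A (tw P U c ξ) = P.p A (U.U l ξ) := by
  have hA' : A ∩ c ⁻¹' {l} = A := Set.inter_eq_left.2 fun x hx => hl x hx
  have h1 : ∀ η, P.p A η = P.p A (P.p (c ⁻¹' {l}) η) := fun η => by
    rw [P.inter _ _ hA (hc l), hA']
  rw [h1, tw_at P U h hc, ← h1]

omit hc in
theorem tw_one (ξ : H) : tw P U (fun _ => 1) ξ = U.U 1 ξ := by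
  have hc : Mea (fun _ : X => (1 : Λ)) := by
    intro l
    by_cases hl : (1 : Λ) = l
    · have e : (fun _ : X => (1 : Λ)) ⁻¹' {l} = Set.univ := by
        ext x
        simp [hl]
      rw [e]
      exact MeasurableSet.univ
    · have e : (fun _ : X => (1 : Λ)) ⁻¹' {l} = ∅ := by
        ext x
        simp [hl]
      rw [e]
      exact MeasurableSet.empty
  refine (tw_uniq P U h hc fun l => ?_).symm
  by_cases hl : (1 : Λ) = l
  · rw [hl]
  · have e : (fun _ : X => (1 : Λ)) ⁻¹' {l} = ∅ := by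
      ext x
      simp [hl]
    rw [e, P.p_empty, P.p_empty]

theorem tw_nat [CompleteSpace K] {P' : PV X K} {U' : CRep Λ K} (h' : PCom P' U') {T : H →L[ℂ] K}
    (hP : ∀ A : Set X, MeasurableSet A → ∀ ξ, T (P.p A ξ) = P'.p A (T ξ))
    (hU : ∀ l ξ, T (U.U l ξ) = U'.U l (T ξ)) (ξ : H) : T (tw P U c ξ) = tw P' U' c (T ξ) := by
  have h1 := T.hasSum (tw_hasSum P U h hc ξ)
  refine h1.unique ((tw_hasSum P' U' h' hc (T ξ)).congr_fun fun l => ?_)
  rw [hP _ (hc l), hU]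

theorem tw_shift {S : H →L[ℂ] H} {e : X → X} (he : Measurable e)
    (hS : ∀ A : Set X, MeasurableSet A → ∀ ξ, S (P.p A ξ) = P.p (e ⁻¹' A) (S ξ))
    (hSU : ∀ l ξ, S (U.U l ξ) = U.U l (S ξ)) (ξ : H) :
    S (tw P U c ξ) = tw P U (fun x => c (e x)) (S ξ) := by
  have hm : Mea (fun x => c (e x)) := fun l => he (hc l)
  have h1 := S.hasSum (tw_hasSum P U h hc ξ)
  refine h1.unique ((tw_hasSum P U h hm (S ξ)).congr_fun fun l => ?_)
  rw [hS _ (hc l), hSU]
  rfl

/-- An operator commuting with the projections and with the representation commutes with `tw`. -/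
theorem tw_comm {T : H →L[ℂ] H} (hP : ∀ A : Set X, MeasurableSet A → ∀ ξ, T (P.p A ξ) = P.p A (T ξ))
    (hU : ∀ l ξ, T (U.U l ξ) = U.U l (T ξ)) (ξ : H) : T (tw P U c ξ) = tw P U c (T ξ) := by
  have h1 := T.hasSum (tw_hasSum P U h hc ξ)
  refine h1.unique ((tw_hasSum P U h hc (T ξ)).congr_fun fun l => ?_)
  rw [hP _ (hc l), hU]

end tw

end Pool.Agent.Helper84.FR
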