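import Pool.Agent.Helper84.GN.SX
import Pool.Agent.Helper66.FR.XP7

/-!
# Project FR, block XA: the spaces over a stratum in `UE μ` (port of `GN/SA.lean`)
-/

set_option autoImplicit false

open Filter Topology Matrix

namespace Pool.Agent.Helper84.FR

open NI GVN GN MeasureTheory Pool.Agent.Helper66.FR

section Defs

variable {G X : Type} [Group G] [MeasurableSpace X] (μ : Measure X) (R : Reg G)

/-- The vectors carried by all the sets of one of the filters `F n`. -/
def XUaSet : Set (UE μ (L2 G)) := {ξ | ∃ n : ℕ, ∀ s ∈ R.F n, UE.map μ (ind ℂ s) ξ = ξ}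

/-- The part of the limit space over the stratum. -/
noncomputable def XUa : Submodule ℂ (UE μ (L2 G)) := (Submodule.span ℂ (XUaSet μ R)).topologicalClosure

/-- The space over the stratum with fibre `L`. -/
noncomputable def XVp (L : Type) [NormedAddCommGroup L] [InnerProductSpace ℂ L] :
    Submodule ℂ (UE μ (Lv G L)) :=
  (Submodule.span ℂ {ξ | ∃ (w : L) (a : UE μ (L2 G)), a ∈ XUa μ R ∧
    ξ = UE.map μ (mulF fun _ => w) a}).topologicalClosure

instance instCompXUa : CompleteSpace (XUa μ R) :=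
  (Submodule.isClosed_topologicalClosure _).completeSpace_coe

instance instCompXVp (L : Type) [NormedAddCommGroup L] [InnerProductSpace ℂ L] :
    CompleteSpace (XVp μ R L) :=
  (Submodule.isClosed_topologicalClosure _).completeSpace_coe

end Defs

variable {G X : Type} [Group G] [MeasurableSpace X] {μ : Measure X} (R : Reg G)
  {L : Type} [NormedAddCommGroup L] [InnerProductSpace ℂ L]

private theorem ext88 {E : Type} [NormedAddCommGroup E] [InnerProductSpace ℂ E]
    (T : UE μ (L2 G) →L[ℂ] E) (V : Submodule ℂ E) (hV : IsClosed (V : Set E))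
    (h : ∀ a ∈ (XUaSet μ R), T a ∈ V) {a : UE μ (L2 G)} (ha : a ∈ (XUa μ R)) : T a ∈ V := by
  have h1 : (XUa μ R) ≤ V.comap T.toLinearMap := by
    unfold XUa
    refine Submodule.topologicalClosure_minimal _ ?_ ?_
    · rw [Submodule.span_le]
      intro b hb
      exact h b hb
    · exact hV.preimage T.continuous
  exact h1 ha

omit [Group G] in
private theorem ind_ind88 (A B : Set G) (a : Lv G L) :
    ind L A (ind L B a) = ind L (A ∩ B) a := by
  classical
  apply lv_ext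
  intro i
  rw [ind_apply, ind_apply, ind_apply]
  by_cases h1 : i ∈ A <;> by_cases h2 : i ∈ B <;> simp [h1, h2]

omit [Group G] in
theorem xind_ind (A B : Set G) (a : UE μ (Lv G L)) :
    UE.map μ (ind L A) (UE.map μ (ind L B) a) = UE.map μ (ind L (A ∩ B)) a := by
  rw [← UE.map_comp]
  refine congrArg (fun T => UE.map μ T a) ?_
  ext x : 1
  exact ind_ind88 A B x

omit [Group G] in
private theorem inner_ind88 (A : Set G) (x y : Lv G L) :
    inner ℂ (ind L A x) y = inner ℂ x (ind L A y) := by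
  classical
  rw [lp.inner_eq_tsum, lp.inner_eq_tsum]
  refine tsum_congr fun i => ?_
  rw [ind_apply, ind_apply]
  by_cases h : i ∈ A
  · rw [if_pos h, if_pos h]
  · rw [if_neg h, if_neg h, inner_zero_left, inner_zero_right]

omit [Group G] in
theorem xinner_ind [CompleteSpace L] (A : Set G) (a b : UE μ (Lv G L)) :
    inner ℂ (UE.map μ (ind L A) a) b = inner ℂ a (UE.map μ (ind L A) b) := by
  have h : ContinuousLinearMap.adjoint (ind L A) = ind L A :=
    ((ContinuousLinearMap.eq_adjoint_iff _ _).2 fun x y => inner_ind88 A x y).symm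
  rw [UE.inner_map, h]

omit [Group G] in
theorem xnorm_ind_le (A : Set G) (a : UE μ (Lv G L)) : ‖UE.map μ (ind L A) a‖ ≤ ‖a‖ := by
  classical
  have h := UE.norm_map_le_of (T := ind L A) (C := 1) zero_le_one (fun x => by
    refine norm_dg_le zero_le_one (fun i x => ?_) x
    split_ifs
    · simp
    · simp) a
  rwa [one_mul] at h

private theorem ind_UaSet88 (B : Set G) {a : UE μ (L2 G)} (ha : a ∈ (XUaSet μ R)) :
    UE.map μ (ind ℂ B) a ∈ (XUaSet μ R) := by
  obtain ⟨n, hn⟩ := ha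
  refine ⟨n, fun s hs => ?_⟩
  rw [xind_ind, Set.inter_comm, ← xind_ind, hn s hs]

theorem ind_mem_XUa (B : Set G) {a : UE μ (L2 G)} (ha : a ∈ (XUa μ R)) : UE.map μ (ind ℂ B) a ∈ (XUa μ R) := by
  refine ext88 R (UE.map μ (ind ℂ B)) (XUa μ R) (Submodule.isClosed_topologicalClosure _) ?_ ha
  intro b hb
  exact Submodule.le_topologicalClosure _ (Submodule.subset_span (ind_UaSet88 R B hb))

theorem XUa_ind {s : Set G} (hs : ∀ n, s ∈ R.F n) {a : UE μ (L2 G)} (ha : a ∈ (XUa μ R)) :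
    UE.map μ (ind ℂ s) a = a := by
  have h0 : (UE.map μ (ind ℂ s) - ContinuousLinearMap.id ℂ (UE μ (L2 G))) a ∈
      (⊥ : Submodule ℂ (UE μ (L2 G))) := by
    refine ext88 R _ ⊥ (by rw [Submodule.bot_coe]; exact isClosed_singleton) ?_ ha
    intro b hb
    obtain ⟨n, hn⟩ := hb
    rw [Submodule.mem_bot, _root_.sub_apply, ContinuousLinearMap.id_apply, hn s (hs n), sub_self]
  rw [Submodule.mem_bot, _root_.sub_apply, ContinuousLinearMap.id_apply, sub_eq_zero] at h0
  exact h0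

private theorem mulF_ind88 {I : Type} {F : I → L} {C : ℝ} (hC0 : 0 ≤ C) (hC : ∀ γ, ‖F γ‖ ≤ C) (B : Set I) :
    (mulF F).comp (ind ℂ B) = mulF (B.indicator F) := by
  classical
  have hC' : ∀ γ, ‖B.indicator F γ‖ ≤ C := by
    intro γ
    unfold Set.indicator
    split_ifs
    · exact hC γ
    · rw [norm_zero]
      exact hC0
  ext1 x
  apply lv_ext
  intro i
  rw [ContinuousLinearMap.comp_apply, mulF_apply hC, mulF_apply hC', ind_apply]
  unfold Set.indicator
  by_cases h : i ∈ B <;> simp [h]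

theorem xmap_mulF_zero {F : G → L} {C : ℝ} (hC : ∀ γ, ‖F γ‖ ≤ C)
    (h : ∀ n, Tendsto F (R.F n) (𝓝 0)) {a : UE μ (L2 G)} (ha : a ∈ (XUa μ R)) :
    UE.map μ (mulF F) a = 0 := by
  have hC0 : 0 ≤ C := (norm_nonneg _).trans (hC 1)
  have h0 : UE.map μ (mulF F) a ∈ (⊥ : Submodule ℂ (UE μ (Lv G L))) := by
    refine ext88 R (UE.map μ (mulF F)) ⊥ (by rw [Submodule.bot_coe]; exact isClosed_singleton) ?_ ha
    intro b hb
    obtain ⟨n, hn⟩ := hb
    rw [Submodule.mem_bot]
    by_contra hne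
    have hpos : 0 < ‖UE.map μ (mulF F) b‖ := norm_pos_iff.2 hne
    obtain ⟨ε, hε, hε2⟩ : ∃ ε : ℝ, 0 < ε ∧ ε * ‖b‖ < ‖UE.map μ (mulF F) b‖ := by
      refine ⟨‖UE.map μ (mulF F) b‖ / (2 * (‖b‖ + 1)), by positivity, ?_⟩
      have hb1 : 0 < ‖b‖ + 1 := by positivity
      rw [div_mul_eq_mul_div, div_lt_iff₀ (by positivity)]
      nlinarith [norm_nonneg b]
    have h3 : ∀ᶠ γ in R.F n, ‖F γ‖ < ε := by
      have := (h n).norm
      rw [norm_zero] at this
      exact this.eventually (gt_mem_nhds hε)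
    have h4 := hn {γ | ‖F γ‖ < ε} h3
    rw [← h4, ← UE.map_comp, mulF_ind88 hC0 hC] at hε2
    have h5 : ∀ γ, ‖({γ | ‖F γ‖ < ε} : Set G).indicator F γ‖ ≤ ε := by
      intro γ
      unfold Set.indicator
      split_ifs with h6
      · exact le_of_lt h6
      · rw [norm_zero]
        exact hε.le
    have h6 := UE.norm_map_le_of hε.le (norm_mulF_le hε.le h5) b
    rw [h4] at hε2
    linarith
  rwa [Submodule.mem_bot] at h0

private theorem mulF_sub88 {I : Type} {F F' : I → L} {C C' : ℝ} (hC : ∀ γ, ‖F γ‖ ≤ C)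
    (hC' : ∀ γ, ‖F' γ‖ ≤ C') : mulF F - mulF F' = mulF (fun i => F i - F' i) := by
  have h : ∀ γ, ‖F γ - F' γ‖ ≤ C + C' := fun γ => (norm_sub_le _ _).trans (add_le_add (hC γ) (hC' γ))
  ext1 x
  apply lv_ext
  intro i
  rw [_root_.sub_apply, lp.coeFn_sub, Pi.sub_apply, mulF_apply hC, mulF_apply hC',
    mulF_apply h, smul_sub]

/-- multiplication by a function with finitely many values -/
private theorem mulF_sum88 {I : Type} {c : I → L} {C : ℝ} (hC : ∀ γ, ‖c γ‖ ≤ C) (t : Finset L)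
    (ht : ∀ γ, c γ ∈ t) : mulF c = ∑ w ∈ t, (mulF fun _ => w).comp (ind ℂ {γ | c γ = w}) := by
  classical
  ext1 x
  apply lv_ext
  intro i
  rw [mulF_apply hC, _root_.sum_apply, lp.coeFn_sum, Finset.sum_apply]
  have h1 : ∀ w ∈ t, ((mulF fun _ => w).comp (ind ℂ {γ | c γ = w}) x : Lv I L) i =
      if c i = w then x i • w else 0 := by
    intro w _
    rw [ContinuousLinearMap.comp_apply, mulF_apply (F := fun _ : I => w) (C := ‖w‖) (fun _ => le_rfl), ind_apply]
    by_cases h : c i = w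
    · rw [if_pos (show i ∈ {γ | c γ = w} from h), if_pos h]
    · rw [if_neg (show ¬ i ∈ {γ | c γ = w} from h), if_neg h, zero_smul]
  rw [Finset.sum_congr rfl h1, Finset.sum_ite_eq, if_pos (ht i)]

theorem xmap_mulF_mem {F : G → L} {C : ℝ} (hC : ∀ γ, ‖F γ‖ ≤ C)
    (h : ∀ n, ∃ K : Set L, IsCompact K ∧ ∀ᶠ γ in R.F n, F γ ∈ K) {a : UE μ (L2 G)}
    (ha : a ∈ (XUa μ R)) : UE.map μ (mulF F) a ∈ (XVp μ R L) := by
  classical
  have hC0 : 0 ≤ C := (norm_nonneg _).trans (hC 1)
  refine ext88 R (UE.map μ (mulF F)) ((XVp μ R L)) (Submodule.isClosed_topologicalClosure _) ?_ ha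
  intro b hb
  have hbA : b ∈ (XUa μ R) := Submodule.le_topologicalClosure _ (Submodule.subset_span hb)
  obtain ⟨n, hn⟩ := hb
  obtain ⟨K, hK, h3⟩ := h n
  obtain ⟨E, hEd⟩ : ∃ E : Set G, E = {γ | F γ ∈ K} := ⟨_, rfl⟩
  have h4 : UE.map μ (ind ℂ E) b = b := hn E (by rw [hEd]; exact h3)
  have hcl : IsClosed ((XVp μ R L) : Set (UE μ (Lv G L))) := Submodule.isClosed_topologicalClosure _
  have hmem : UE.map μ (mulF F) b ∈ closure ((XVp μ R L) : Set (UE μ (Lv G L))) := by
    rw [Metric.mem_closure_iff]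
    intro ε0 hε0
    obtain ⟨ε, hε, hε2⟩ : ∃ ε : ℝ, 0 < ε ∧ ε * ‖b‖ < ε0 := by
      refine ⟨ε0 / (2 * (‖b‖ + 1)), by positivity, ?_⟩
      rw [div_mul_eq_mul_div, div_lt_iff₀ (by positivity)]
      nlinarith [norm_nonneg b]
    obtain ⟨t, _, htf, htK⟩ := hK.finite_cover_balls hε
    obtain ⟨c, hc1, hc2⟩ : ∃ c : G → L, (∀ γ, c γ ∈ insert 0 t) ∧ ∀ γ, F γ ∈ K → ‖F γ - c γ‖ ≤ ε := by
      have h5 : ∀ γ, ∃ w : L, w ∈ insert 0 t ∧ (F γ ∈ K → ‖F γ - w‖ ≤ ε) := by
        intro γ
        by_cases hγ : F γ ∈ K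
        · obtain ⟨w, hw, hw2⟩ := Set.mem_iUnion₂.1 (htK hγ)
          refine ⟨w, Set.mem_insert_of_mem _ hw, fun _ => ?_⟩
          rw [Metric.mem_ball, dist_eq_norm] at hw2
          exact hw2.le
        · exact ⟨0, Set.mem_insert _ _, fun hh => absurd hh hγ⟩
      choose c hc using h5
      exact ⟨c, fun γ => (hc γ).1, fun γ => (hc γ).2⟩
    obtain ⟨c', hc'⟩ : ∃ c' : G → L, c' = E.indicator c := ⟨_, rfl⟩
    have hin : ∀ γ, γ ∈ E → F γ ∈ K := by
      intro γ hγ
      rw [hEd] at hγ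
      exact hγ
    have hc'b : ∀ γ, ‖c' γ‖ ≤ C + ε := by
      intro γ
      rw [hc']
      unfold Set.indicator
      split_ifs with h6
      · have h7 := hc2 γ (hin γ h6)
        have h8 : ‖c γ‖ ≤ ‖F γ‖ + ‖F γ - c γ‖ := by
          have : c γ = F γ - (F γ - c γ) := by abel
          calc ‖c γ‖ = ‖F γ - (F γ - c γ)‖ := by rw [← this]
            _ ≤ _ := norm_sub_le _ _
        linarith [hC γ]
      · rw [norm_zero]
        linarith
    have hFb : ∀ γ, ‖E.indicator F γ‖ ≤ C := by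
      intro γ
      unfold Set.indicator
      split_ifs
      · exact hC γ
      · rw [norm_zero]
        exact hC0
    have hdb : ∀ γ, ‖E.indicator F γ - c' γ‖ ≤ ε := by
      intro γ
      rw [hc']
      unfold Set.indicator
      split_ifs with h6
      · exact hc2 γ (hin γ h6)
      · rw [sub_zero, norm_zero]
        exact hε.le
    have hc't : ∀ γ, c' γ ∈ (htf.insert 0).toFinset := by
      intro γ
      rw [Set.Finite.mem_toFinset, hc']
      unfold Set.indicator
      split_ifs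
      · exact hc1 γ
      · exact Set.mem_insert _ _
    refine ⟨UE.map μ (mulF c') b, ?_, ?_⟩
    · rw [mulF_sum88 hc'b _ hc't, UE.map_sum]
      refine Submodule.sum_mem _ fun w _ => ?_
      rw [UE.map_comp]
      exact Submodule.le_topologicalClosure _ (Submodule.subset_span ⟨w, _, ind_mem_XUa R _ hbA, rfl⟩)
    · have h6 : UE.map μ (mulF F) b = UE.map μ (mulF (E.indicator F)) b := by
        rw [← mulF_ind88 hC0 hC, UE.map_comp, h4]
      rw [dist_eq_norm, h6, ← UE.map_sub, mulF_sub88 hFb hc'b]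
      exact lt_of_le_of_lt (UE.norm_map_le_of hε.le (norm_mulF_le hε.le hdb) b) hε2
  rwa [hcl.closure_eq] at hmem

end Pool.Agent.Helper84.FR
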