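import Pool.Agent.Helper84.FR.XA

/-!
# Project FR, block XB: invariance of `XUa`, the projection on it (port of `GN/SB.lean`)
-/

set_option autoImplicit false

open Filter Topology Matrix

namespace Pool.Agent.Helper84.FR

open NI GVN GN MeasureTheory Pool.Agent.Helper66.FR

/-- The left action on the limit space. -/
noncomputable def XAlim {X : Type} [MeasurableSpace X] (μ : Measure X) (G : Type) [Group G] :
    G →* (UE μ (L2 G) ≃ₗᵢ[ℂ] UE μ (L2 G)) := UE.rep μ (lamR G)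

/-- The right action on the limit space. -/
noncomputable def XBlim {X : Type} [MeasurableSpace X] (μ : Measure X) (G : Type) [Group G] :
    G →* (UE μ (L2 G) ≃ₗᵢ[ℂ] UE μ (L2 G)) := UE.rep μ (rhoR G)

variable {G X : Type} [Group G] [MeasurableSpace X] {μ : Measure X} (R : Reg G)

omit R in
theorem XAlim_apply (g : G) (a : UE μ (L2 G)) : XAlim μ G g a =
    UE.map μ ((permV (tr g 1) : Lv G ℂ ≃ₗᵢ[ℂ] Lv G ℂ).toContinuousLinearEquiv : L2 G →L[ℂ] L2 G) a := by
  change UE.rep μ (lamR G) g a = _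
  rw [UE.rep_apply]
  refine congrArg (fun T => UE.map μ T a) ?_
  ext f : 1
  refine l2_ext fun γ => ?_
  change lamU g f γ = permV (tr g 1) f γ
  rw [lamU_apply, permV_tr, mul_one]

omit R in
theorem XBlim_apply (h : G) (a : UE μ (L2 G)) : XBlim μ G h a =
    UE.map μ ((permV (tr 1 h) : Lv G ℂ ≃ₗᵢ[ℂ] Lv G ℂ).toContinuousLinearEquiv : L2 G →L[ℂ] L2 G) a := by
  change UE.rep μ (rhoR G) h a = _
  rw [UE.rep_apply]
  refine congrArg (fun T => UE.map μ T a) ?_
  ext f : 1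
  refine l2_ext fun γ => ?_
  change rhoU h f γ = permV (tr 1 h) f γ
  rw [rhoU_apply, permV_tr, inv_one, one_mul]

theorem comm2_lr : Comm2 (lamR G) (rhoR G) := by
  intro g h x
  refine l2_ext fun γ => ?_
  change lamU g (rhoU h x) γ = rhoU h (lamU g x) γ
  rw [lamU_apply, rhoU_apply, rhoU_apply, lamU_apply, mul_assoc]

theorem comm2_xlim : Comm2 (XAlim μ G) (XBlim μ G) := by
  intro g h x
  rw [XAlim_apply, XBlim_apply, XBlim_apply, XAlim_apply, ← UE.map_comp, ← UE.map_comp]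
  refine congrArg (fun T => UE.map μ T x) ?_
  ext f : 1
  refine lv_ext fun γ => ?_
  change permV (tr g 1) (permV (tr 1 h) f) γ = permV (tr 1 h) (permV (tr g 1) f) γ
  rw [permV_tr, permV_tr, permV_tr, permV_tr]
  group


/-- the translation operator -/
private noncomputable abbrev Pg38 (g h : G) : L2 G →L[ℂ] L2 G :=
  ((permV (tr g h) : Lv G ℂ ≃ₗᵢ[ℂ] Lv G ℂ).toContinuousLinearEquiv : L2 G →L[ℂ] L2 G)

private theorem ind_perm38 (g h : G) (A : Set G) (a : UE μ (L2 G)) :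
    UE.map μ (ind ℂ A) (UE.map μ (Pg38 g h) a) =
      UE.map μ (Pg38 g h) (UE.map μ (ind ℂ {γ | g * γ * h⁻¹ ∈ A}) a) := by
  rw [← UE.map_comp, ← UE.map_comp]
  refine congrArg (fun T => UE.map μ T a) ?_
  ext f : 1
  refine lv_ext fun γ => ?_
  change ind ℂ A (permV (tr g h) f) γ = permV (tr g h) (ind ℂ {γ | g * γ * h⁻¹ ∈ A} f) γ
  rw [ind_apply, permV_tr, permV_tr, ind_apply]
  have e : (g⁻¹ * γ * h ∈ {γ | g * γ * h⁻¹ ∈ A}) ↔ γ ∈ A := by
    rw [Set.mem_ofPred_eq]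
    have : g * (g⁻¹ * γ * h) * h⁻¹ = γ := by group
    rw [this]
  by_cases hγ : γ ∈ A
  · rw [if_pos hγ, if_pos (e.2 hγ)]
  · rw [if_neg hγ, if_neg (fun h => hγ (e.1 h))]

private theorem proj38 {H : Type} [NormedAddCommGroup H] [InnerProductSpace ℂ H] {K : Submodule ℂ H}
    [K.HasOrthogonalProjection] (T : H ≃ₗᵢ[ℂ] H)
    (h1 : ∀ x ∈ K, T x ∈ K) (h2 : ∀ x ∈ K, T.symm x ∈ K) (f : H) :
    K.starProjection (T f) = T (K.starProjection f) := by
  apply Submodule.eq_starProjection_of_mem_orthogonal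
  · exact h1 _ (Submodule.starProjection_apply_mem K f)
  · rw [← map_sub, Submodule.mem_orthogonal]
    intro u hu
    have h3 := (Submodule.mem_orthogonal _ _).1 (Submodule.sub_starProjection_mem_orthogonal
      (K := K) f) (T.symm u) (h2 u hu)
    rw [← LinearIsometryEquiv.inner_map_map T, LinearIsometryEquiv.apply_symm_apply] at h3
    exact h3

theorem perm_mem_XUa (g h : G) {a : UE μ (L2 G)} (ha : a ∈ (XUa μ R)) :
    UE.map μ ((permV (tr g h) : Lv G ℂ ≃ₗᵢ[ℂ] Lv G ℂ).toContinuousLinearEquiv : L2 G →L[ℂ] L2 G) a ∈ (XUa μ R) := by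
  have hcl : IsClosed ((((XUa μ R)).comap (UE.map μ (Pg38 g h) : UE μ (L2 G) →ₗ[ℂ] UE μ (L2 G)) :
      Submodule ℂ (UE μ (L2 G))) : Set (UE μ (L2 G))) := by
    have h1 : IsClosed (((XUa μ R)) : Set (UE μ (L2 G))) := Submodule.isClosed_topologicalClosure _
    exact h1.preimage (UE.map μ (Pg38 g h)).continuous
  have hle : (XUa μ R) ≤ ((XUa μ R)).comap (UE.map μ (Pg38 g h) : UE μ (L2 G) →ₗ[ℂ] UE μ (L2 G)) := by
    refine Submodule.topologicalClosure_minimal _ (Submodule.span_le.mpr ?_) hcl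
    rintro a ⟨n, hn⟩
    change UE.map μ (Pg38 g h) a ∈ (XUa μ R)
    refine Submodule.le_topologicalClosure _ (Submodule.subset_span ?_)
    obtain ⟨n', hn'⟩ := R.shift g⁻¹ h⁻¹ n
    refine ⟨n', fun s hs => ?_⟩
    have h2 : {γ | g * γ * h⁻¹ ∈ s} ∈ R.F n := by
      have h3 := hn' hs
      rw [inv_inv] at h3
      exact h3
    rw [ind_perm38, hn _ h2]
  exact hle ha

theorem XAlim_mem_XUa (g : G) (a : UE μ (L2 G)) (ha : a ∈ (XUa μ R)) : XAlim μ G g a ∈ (XUa μ R) := by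
  rw [XAlim_apply]
  exact perm_mem_XUa R g 1 ha

theorem XBlim_mem_XUa (h : G) (a : UE μ (L2 G)) (ha : a ∈ (XUa μ R)) : XBlim μ G h a ∈ (XUa μ R) := by
  rw [XBlim_apply]
  exact perm_mem_XUa R 1 h ha

/-- The left action on `Ua`. -/
noncomputable def XAU : G →* ((XUa μ R) ≃ₗᵢ[ℂ] (XUa μ R)) := restrictRep (XAlim μ G) (XUa μ R) (XAlim_mem_XUa R)

/-- The right action on `Ua`. -/
noncomputable def XBU : G →* ((XUa μ R) ≃ₗᵢ[ℂ] (XUa μ R)) := restrictRep (XBlim μ G) (XUa μ R) (XBlim_mem_XUa R)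

theorem comm2_XU : Comm2 (XAU (μ := μ) R) (XBU (μ := μ) R) := by
  intro g h x
  apply Subtype.ext
  exact comm2_xlim g h (x : UE μ (L2 G))

/-- The projection on `Ua`. -/
noncomputable def XPpr : UE μ (L2 G) →L[ℂ] (XUa μ R) := (XUa μ R).orthogonalProjectionOnto

theorem norm_XPpr : ‖XPpr (μ := μ) R‖ ≤ 1 := by
  exact Submodule.orthogonalProjectionOnto_norm_le _

theorem XPpr_A (g : G) (a : UE μ (L2 G)) : XPpr R (XAlim μ G g a) = XAU R g (XPpr R a) := by
  apply Subtype.ext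
  change ((XUa μ R)).starProjection (XAlim μ G g a) = XAlim μ G g (((XUa μ R)).starProjection a)
  refine proj38 (XAlim μ G g) (XAlim_mem_XUa R g) (fun x hx => ?_) a
  have h1 := XAlim_mem_XUa R g⁻¹ x hx
  rw [map_inv] at h1
  exact h1

theorem XPpr_B (g : G) (a : UE μ (L2 G)) : XPpr R (XBlim μ G g a) = XBU R g (XPpr R a) := by
  apply Subtype.ext
  change ((XUa μ R)).starProjection (XBlim μ G g a) = XBlim μ G g (((XUa μ R)).starProjection a)
  refine proj38 (XBlim μ G g) (XBlim_mem_XUa R g) (fun x hx => ?_) a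
  have h1 := XBlim_mem_XUa R g⁻¹ x hx
  rw [map_inv] at h1
  exact h1

theorem inner_XPpr (a : UE μ (L2 G)) (b : (XUa μ R)) : inner ℂ (b : UE μ (L2 G)) a = inner ℂ b (XPpr R a) := by
  have h1 := (Submodule.mem_orthogonal _ _).1 (Submodule.sub_starProjection_mem_orthogonal
    (K := (XUa μ R)) a) (b : UE μ (L2 G)) b.2
  rw [inner_sub_right, sub_eq_zero] at h1
  exact h1

theorem XPpr_ne_zero {ζ ξ : UE μ (L2 G)} (hξ : ξ ∈ (XUa μ R)) (h : (inner ℂ ξ ζ : ℂ) ≠ 0) : XPpr R ζ ≠ 0 := by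
  intro h0
  have h1 := inner_XPpr R ζ ⟨ξ, hξ⟩
  rw [h0, inner_zero_right] at h1
  exact h h1

end Pool.Agent.Helper84.FR
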