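import Pool.Agent.Helper84.FR.XB
import Pool.Agent.Helper84.NI.WD

/-!
# Project FR, block XD: the operators `W(g, h)` on `XVp` (port of `GN/SD.lean`)
-/

set_option autoImplicit false

open Filter Topology Matrix

namespace Pool.Agent.Helper84.FR

open NI GVN GN MeasureTheory Pool.Agent.Helper66.FR

variable {G X : Type} [Group G] [MeasurableSpace X] {μ : Measure X} {R : Reg G} {L : Type} [NormedAddCommGroup L] [InnerProductSpace ℂ L]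

theorem xwhat_gen' (Γ : Coc R L) (g h : G) {F : G → L} {C : ℝ} (hC : ∀ γ, ‖F γ‖ ≤ C) (a : UE μ (L2 G)) :
    UE.mapU μ (What Γ g h) (UE.map μ (mulF F) a) =
      UE.map μ (mulF fun γ => Γ.pi g h γ (F (g⁻¹ * γ * h)))
      (UE.map μ ((permV (tr g h) : Lv G ℂ ≃ₗᵢ[ℂ] Lv G ℂ).toContinuousLinearEquiv : L2 G →L[ℂ] L2 G) a) := by
  rw [UE.mapU_apply, ← UE.map_comp, ← UE.map_comp]
  refine congrArg (fun T => UE.map μ T a) ?_
  ext f : 1
  refine lv_ext fun γ => ?_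
  have h' : ∀ γ, ‖Γ.pi g h γ (F (g⁻¹ * γ * h))‖ ≤ C := fun γ => by
    rw [LinearIsometryEquiv.norm_map]
    exact hC _
  change What Γ g h (mulF F f) γ = mulF (fun γ => Γ.pi g h γ (F (g⁻¹ * γ * h))) (permV (tr g h) f) γ
  rw [GN.What_apply, mulF_apply hC, mulF_apply h', permV_tr, map_smul]

theorem xwhat_gen (Γ : Coc R L) (g h : G) (w : L) (a : UE μ (L2 G)) :
    UE.mapU μ (What Γ g h) (UE.map μ (mulF fun _ => w) a) = UE.map μ (mulF fun γ => Γ.pi g h γ w)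
      (UE.map μ ((permV (tr g h) : Lv G ℂ ≃ₗᵢ[ℂ] Lv G ℂ).toContinuousLinearEquiv : L2 G →L[ℂ] L2 G) a) :=
  xwhat_gen' Γ g h (F := fun _ => w) (fun _ => le_refl ‖w‖) a

theorem xperm_perm (g h g' h' : G) (a : UE μ (L2 G)) :
    UE.map μ ((permV (tr g h) : Lv G ℂ ≃ₗᵢ[ℂ] Lv G ℂ).toContinuousLinearEquiv : L2 G →L[ℂ] L2 G)
      (UE.map μ ((permV (tr g' h') : Lv G ℂ ≃ₗᵢ[ℂ] Lv G ℂ).toContinuousLinearEquiv : L2 G →L[ℂ] L2 G) a) =
    UE.map μ ((permV (tr (g * g') (h * h')) : Lv G ℂ ≃ₗᵢ[ℂ] Lv G ℂ).toContinuousLinearEquiv :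
      L2 G →L[ℂ] L2 G) a := by
  rw [← UE.map_comp]
  refine congrArg (fun T => UE.map μ T a) ?_
  ext f : 1
  refine lv_ext fun γ => ?_
  change permV (tr g h) (permV (tr g' h') f) γ = permV (tr (g * g') (h * h')) f γ
  rw [permV_tr, permV_tr, permV_tr]
  group

theorem xwhat_mem (Γ : Coc R L) (g h : G) (ξ : UE μ (Lv G L)) (hξ : ξ ∈ (XVp μ R L)) :
    UE.mapU μ (What Γ g h) ξ ∈ (XVp μ R L) := by
  set T : UE μ (Lv G L) →L[ℂ] UE μ (Lv G L) :=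
    UE.map μ ((What Γ g h).toContinuousLinearEquiv : Lv G L →L[ℂ] Lv G L) with hT
  have hcl : IsClosed ((((XVp μ R L)).comap (T : UE μ (Lv G L) →ₗ[ℂ] UE μ (Lv G L)) :
      Submodule ℂ (UE μ (Lv G L))) : Set (UE μ (Lv G L))) := by
    have h1 : IsClosed (((XVp μ R L)) : Set (UE μ (Lv G L))) :=
      Submodule.isClosed_topologicalClosure _
    exact h1.preimage T.continuous
  have hle : (XVp μ R L) ≤ ((XVp μ R L)).comap (T : UE μ (Lv G L) →ₗ[ℂ] UE μ (Lv G L)) := by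
    refine Submodule.topologicalClosure_minimal _ (Submodule.span_le.mpr ?_) hcl
    rintro _ ⟨w, a, ha, rfl⟩
    change UE.mapU μ (What Γ g h) (UE.map μ (mulF fun _ => w) a) ∈ (XVp μ R L)
    rw [xwhat_gen]
    exact xmap_mulF_mem R (C := ‖w‖) (fun γ => by rw [LinearIsometryEquiv.norm_map])
      (fun n => Γ.cpt g h n w) (perm_mem_XUa R g h ha)
  exact hle hξ

theorem xwhat_mul (Γ : Coc R L) (g h g' h' : G) (ξ : UE μ (Lv G L)) (hξ : ξ ∈ (XVp μ R L)) :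
    UE.mapU μ (What Γ (g * g') (h * h')) ξ = UE.mapU μ (What Γ g h) (UE.mapU μ (What Γ g' h') ξ) := by
  set T1 : UE μ (Lv G L) →L[ℂ] UE μ (Lv G L) :=
    UE.map μ ((What Γ (g * g') (h * h')).toContinuousLinearEquiv : Lv G L →L[ℂ] Lv G L) with hT1
  set T2 : UE μ (Lv G L) →L[ℂ] UE μ (Lv G L) :=
    UE.map μ ((What Γ g h).toContinuousLinearEquiv : Lv G L →L[ℂ] Lv G L) with hT2
  set T3 : UE μ (Lv G L) →L[ℂ] UE μ (Lv G L) :=
    UE.map μ ((What Γ g' h').toContinuousLinearEquiv : Lv G L →L[ℂ] Lv G L) with hT3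
  have hcl : IsClosed ((LinearMap.ker ((T1 - T2.comp T3 : UE μ (Lv G L) →L[ℂ] UE μ (Lv G L)) :
      UE μ (Lv G L) →ₗ[ℂ] UE μ (Lv G L)) : Submodule ℂ (UE μ (Lv G L))) : Set (UE μ (Lv G L))) :=
    ContinuousLinearMap.isClosed_ker _
  have hle : (XVp μ R L) ≤ LinearMap.ker ((T1 - T2.comp T3 : UE μ (Lv G L) →L[ℂ] UE μ (Lv G L)) :
      UE μ (Lv G L) →ₗ[ℂ] UE μ (Lv G L)) := by
    refine Submodule.topologicalClosure_minimal _ (Submodule.span_le.mpr ?_) hcl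
    rintro _ ⟨w, a, ha, rfl⟩
    rw [SetLike.mem_coe, LinearMap.mem_ker]
    change UE.mapU μ (What Γ (g * g') (h * h')) (UE.map μ (mulF fun _ => w) a) -
      UE.mapU μ (What Γ g h) (UE.mapU μ (What Γ g' h') (UE.map μ (mulF fun _ => w) a)) = 0
    have b1 : ∀ γ, ‖Γ.pi g' h' γ w‖ ≤ ‖w‖ := fun γ => by rw [LinearIsometryEquiv.norm_map]
    have b2 : ∀ γ, ‖Γ.pi (g * g') (h * h') γ w‖ ≤ ‖w‖ := fun γ => by
      rw [LinearIsometryEquiv.norm_map]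
    have b3 : ∀ γ, ‖Γ.pi g h γ (Γ.pi g' h' (g⁻¹ * γ * h) w)‖ ≤ ‖w‖ := fun γ => by
      rw [LinearIsometryEquiv.norm_map, LinearIsometryEquiv.norm_map]
    have b4 : ∀ γ, ‖Γ.pi (g * g') (h * h') γ w -
        Γ.pi g h γ (Γ.pi g' h' (g⁻¹ * γ * h) w)‖ ≤ ‖w‖ + ‖w‖ := fun γ =>
      (norm_sub_le _ _).trans (add_le_add (b2 γ) (b3 γ))
    rw [xwhat_gen, xwhat_gen, xwhat_gen' Γ g h b1, xperm_perm]
    rw [← UE.map_sub, mulF_sub' b2 b3]
    exact xmap_mulF_zero R b4 (fun n => Γ.mul g h g' h' n w) (perm_mem_XUa R _ _ ha)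
  have h1 := hle hξ
  rw [LinearMap.mem_ker] at h1
  exact sub_eq_zero.mp h1

theorem xwhat_one (Γ : Coc R L) (ξ : UE μ (Lv G L)) : UE.mapU μ (What Γ 1 1) ξ = ξ := by
  rw [UE.mapU_apply]
  refine Eq.trans (congrArg (fun T => UE.map μ T ξ) ?_) (UE.map_id ξ)
  ext f : 1
  refine lv_ext fun γ => ?_
  change What Γ 1 1 f γ = f γ
  rw [GN.What_apply, Γ.one, inv_one, one_mul, mul_one]

end Pool.Agent.Helper84.FR
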