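import Pool.Agent.Helper84.FR.XD
import Pool.Agent.Helper84.NI.WF

/-!
# Project FR, block XE: the two commuting representations on `XVp`, the sections (port of `GN/SE.lean`)
-/

set_option autoImplicit false

open Filter Topology Matrix

namespace Pool.Agent.Helper84.FR

open NI GVN GN MeasureTheory Pool.Agent.Helper66.FR

variable {G X : Type} [Group G] [MeasurableSpace X] (μ : Measure X) {R : Reg G} {L : Type}
  [NormedAddCommGroup L] [InnerProductSpace ℂ L] (Γ : Coc R L)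

/-- The left action on `Vp`. -/
noncomputable def XAV : G →* ((XVp μ R L) ≃ₗᵢ[ℂ] (XVp μ R L)) :=
  partialRep (fun g => UE.mapU μ (What Γ g 1)) ((XVp μ R L)) (fun g x hx => xwhat_mem Γ g 1 x hx)
    (fun x _ => xwhat_one Γ x) (fun g g' x hx => by
      have h := xwhat_mul Γ g 1 g' 1 x hx
      rwa [mul_one] at h)

/-- The right action on `Vp`. -/
noncomputable def XBV : G →* ((XVp μ R L) ≃ₗᵢ[ℂ] (XVp μ R L)) :=
  partialRep (fun h => UE.mapU μ (What Γ 1 h)) ((XVp μ R L)) (fun h x hx => xwhat_mem Γ 1 h x hx)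
    (fun x _ => xwhat_one Γ x) (fun h h' x hx => by
      have h := xwhat_mul Γ 1 h 1 h' x hx
      rwa [mul_one] at h)

theorem coe_XAV (g : G) (x : (XVp μ R L)) : (XAV μ Γ g x : UE μ (Lv G L)) = UE.mapU μ (What Γ g 1) x := rfl

theorem coe_XBV (g : G) (x : (XVp μ R L)) : (XBV μ Γ g x : UE μ (Lv G L)) = UE.mapU μ (What Γ 1 g) x := rfl

theorem comm2_XV : Comm2 (XAV μ Γ) (XBV μ Γ) := by
  intro g h x
  apply Subtype.ext
  have h1 := xwhat_mul (μ := μ) Γ g 1 1 h x x.2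
  have h2 := xwhat_mul (μ := μ) Γ 1 h g 1 x x.2
  rw [mul_one, one_mul] at h1
  rw [mul_one, one_mul] at h2
  exact h1.symm.trans h2

variable {μ} in
theorem xnorm_map_mulF {F : G → L} (hF : ∀ γ, ‖F γ‖ = 1) (a : UE μ (L2 G)) :
    ‖UE.map μ (mulF F) a‖ = ‖a‖ := by
  have h : ∀ x : L2 G, ∑ _i ∈ {()}, ‖mulF F x‖ ^ 2 = ‖x‖ ^ 2 := fun x => by
    rw [Finset.sum_singleton]
    have h1 : ∀ γ, ‖mulF F x γ‖ ^ 2 = ‖x γ‖ ^ 2 := fun γ => by
      rw [mulF_apply (C := 1) (fun γ => (hF γ).le), norm_smul, hF, mul_one]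
    refine (lv_hasSum (mulF F x)).unique ?_
    simp_rw [h1]
    exact lv_hasSum x
  have h2 := UE.sum_sq_eq {()} (fun _ => mulF F) h a
  rw [Finset.sum_singleton] at h2
  exact (sq_eq_sq₀ (norm_nonneg _) (norm_nonneg _)).1 h2

theorem XTR_mem (a : UE μ (L2 G)) (ha : a ∈ (XUa μ R)) : UE.map μ (mulF fun _ => Γ.v) a ∈ (XVp μ R L) :=
  Submodule.le_topologicalClosure _ (Submodule.subset_span ⟨Γ.v, a, ha, rfl⟩)

theorem XTL_mem (a : UE μ (L2 G)) (ha : a ∈ (XUa μ R)) : UE.map μ (mulF fun γ => Γ.vX γ) a ∈ (XVp μ R L) := by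
  exact xmap_mulF_mem R (C := 1) (fun γ => (Γ.nvX γ).le) (fun n => Γ.cptX n) ha

/-- The left-equivariant section. -/
noncomputable def XTR : (XUa μ R) →ₗᵢ[ℂ] (XVp μ R L) where
  toFun a := ⟨UE.map μ (mulF fun _ => Γ.v) a, XTR_mem μ Γ a a.2⟩
  map_add' a b := Subtype.ext (map_add (UE.map μ (mulF fun _ => Γ.v)) _ _)
  map_smul' c a := Subtype.ext (map_smul (UE.map μ (mulF fun _ => Γ.v)) _ _)
  norm_map' a := xnorm_map_mulF (fun _ => Γ.nv) (a : UE μ (L2 G))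

/-- The right-equivariant section. -/
noncomputable def XTL : (XUa μ R) →ₗᵢ[ℂ] (XVp μ R L) where
  toFun a := ⟨UE.map μ (mulF fun γ => Γ.vX γ) a, XTL_mem μ Γ a a.2⟩
  map_add' a b := Subtype.ext (map_add (UE.map μ (mulF fun γ => Γ.vX γ)) _ _)
  map_smul' c a := Subtype.ext (map_smul (UE.map μ (mulF fun γ => Γ.vX γ)) _ _)
  norm_map' a := xnorm_map_mulF (fun γ => Γ.nvX γ) (a : UE μ (L2 G))

theorem XTR_A (g : G) (a : (XUa μ R)) : XTR μ Γ (XAU R g a) = XAV μ Γ g (XTR μ Γ a) := by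
  apply Subtype.ext
  rw [coe_XAV]
  change UE.map μ (mulF fun _ => Γ.v) (XAlim μ G g (a : UE μ (L2 G))) =
    UE.mapU μ (What Γ g 1) (UE.map μ (mulF fun _ => Γ.v) (a : UE μ (L2 G)))
  rw [xwhat_gen, XAlim_apply]
  have b1 : ∀ γ : G, ‖(fun _ : G => Γ.v) γ‖ ≤ ‖Γ.v‖ := fun _ => le_rfl
  have b2 : ∀ γ, ‖Γ.pi g 1 γ Γ.v‖ ≤ ‖Γ.v‖ := fun γ => by rw [LinearIsometryEquiv.norm_map]
  rw [← sub_eq_zero, ← UE.map_sub, mulF_sub' b1 b2]
  refine xmap_mulF_zero R (C := ‖Γ.v‖ + ‖Γ.v‖)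
    (fun γ => (norm_sub_le _ _).trans (add_le_add (b1 γ) (b2 γ)))
    (fun n => ?_) (perm_mem_XUa R g 1 a.2)
  have h := (Γ.left g n).neg
  rw [neg_zero] at h
  exact h.congr fun γ => neg_sub _ _

theorem XTL_B (g : G) (a : (XUa μ R)) : XTL μ Γ (XBU R g a) = XBV μ Γ g (XTL μ Γ a) := by
  apply Subtype.ext
  rw [coe_XBV]
  change UE.map μ (mulF fun γ => Γ.vX γ) (XBlim μ G g (a : UE μ (L2 G))) =
    UE.mapU μ (What Γ 1 g) (UE.map μ (mulF fun γ => Γ.vX γ) (a : UE μ (L2 G)))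
  have b0 : ∀ γ, ‖Γ.vX γ‖ ≤ 1 := fun γ => (Γ.nvX γ).le
  have b2 : ∀ γ, ‖Γ.pi 1 g γ (Γ.vX (1⁻¹ * γ * g))‖ ≤ 1 := fun γ => by
    rw [LinearIsometryEquiv.norm_map]
    exact b0 _
  rw [xwhat_gen' Γ 1 g b0, XBlim_apply]
  rw [← sub_eq_zero, ← UE.map_sub, mulF_sub' b0 b2]
  refine xmap_mulF_zero R (C := 1 + 1)
    (fun γ => (norm_sub_le _ _).trans (add_le_add (b0 γ) (b2 γ)))
    (fun n => ?_) (perm_mem_XUa R 1 g a.2)
  have h := (Γ.right g n).neg
  rw [neg_zero] at h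
  exact h.congr fun γ => neg_sub _ _

/-- The scalar operator of the two sections. -/
theorem adj_mulF [CompleteSpace L] : (ContinuousLinearMap.adjoint (mulF fun γ => Γ.vX γ : L2 G →L[ℂ] Lv G L)).comp
    (mulF fun _ => Γ.v) = mulop fun γ => inner ℂ (Γ.vX γ) Γ.v := by
  have b0 : ∀ γ, ‖Γ.vX γ‖ ≤ 1 := fun γ => (Γ.nvX γ).le
  have b1 : ∀ γ : G, ‖(fun _ : G => Γ.v) γ‖ ≤ 1 := fun _ => Γ.nv.le
  set f : G → ℂ := fun γ => inner ℂ (Γ.vX γ) Γ.v with hf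
  have hfb : ∀ γ, ‖f γ‖ ≤ 1 := fun γ => by
    refine (norm_inner_le_norm _ _).trans ?_
    rw [Γ.nvX, Γ.nv, one_mul]
  have hmul : ∀ (x : L2 G) (γ : G), mulop f x γ = f γ * x γ := by
    intro x γ
    unfold mulop
    rw [dg_apply (C := 1) (fun i y => by
      rw [_root_.smul_apply, norm_smul]
      exact mul_le_mul_of_nonneg_right (hfb i) (norm_nonneg _))]
    rw [_root_.smul_apply, ContinuousLinearMap.id_apply, smul_eq_mul]
  have key : ∀ x y : L2 G, inner ℂ (mulF (fun γ => Γ.vX γ) x) (mulF (fun _ : G => Γ.v) y) =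
      inner ℂ x (mulop f y) := by
    intro x y
    refine (lv_inner _ _).unique ?_
    have e : (fun γ => inner ℂ (mulF (fun γ => Γ.vX γ) x γ) (mulF (fun _ : G => Γ.v) y γ)) =
        fun γ => inner ℂ (x γ) (mulop f y γ) := by
      funext γ
      rw [mulF_apply b0, mulF_apply b1, hmul, inner_smul_left, inner_smul_right, RCLike.inner_apply]
      ring
    rw [e]
    exact lv_inner x (mulop f y)
  refine ContinuousLinearMap.ext fun y => ?_
  refine ext_inner_left ℂ fun x => ?_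
  rw [ContinuousLinearMap.comp_apply, ContinuousLinearMap.adjoint_inner_right]
  exact key x y

theorem inner_XTL_XTR [CompleteSpace L] (a b : (XUa μ R)) : inner ℂ (XTL μ Γ a) (XTR μ Γ b) =
    inner ℂ (a : UE μ (L2 G)) (UE.map μ (mulop fun γ => inner ℂ (Γ.vX γ) Γ.v) (b : UE μ (L2 G))) := by
  change inner ℂ (UE.map μ (mulF fun γ => Γ.vX γ) (a : UE μ (L2 G)))
    (UE.map μ (mulF fun _ => Γ.v) (b : UE μ (L2 G))) = _
  rw [UE.inner_map, ← UE.map_comp, adj_mulF]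

end Pool.Agent.Helper84.FR
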